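import Pool.Agent.Lib.HS.Blue5
import Pool.Agent.Lib.HS78.Pt

/-! Project hw, part B (a weak Morse inequality): the objects. -/

open scoped Classical Topology ContDiff ComplexOrder Matrix
open Set MeasureTheory Complex Metric Filter

noncomputable section

namespace Pool.Agent.Lib.HS32.Mf

open Pool.Agent.Lib.SV (E)

variable {n : ℕ} (M : Mf n)

/-- There are `N` linearly independent holomorphic sections of the `m`-th power of the canonical
bundle. -/
def WMany (m N : ℕ) : Prop :=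
  ∃ s : Fin N → M.Fam ℂ, (∀ i, M.HSec m (s i)) ∧ LinearIndependent ℂ fun i => M.ev (s i)

/-- The canonical bundle is big. -/
def WBig : Prop :=
  ∃ c : ℝ, 0 < c ∧ ∀ᶠ m : ℕ in atTop, ∃ N : ℕ, c * (m : ℝ) ^ n ≤ N ∧ M.WMany m N

/-- The weighted scalar product of two sections. -/
def wip (T : M.Fam (Mat n)) (w : M.X → ℝ) (m : ℕ) (s s' : M.Fam ℂ) : ℂ :=
  ∫ x, HS.sp M T (m + 1) s s' x * (Real.exp (-(m * w x)) : ℝ) ∂M.mu T

/-- The squared weighted norm of a section. -/
def wn0 (T : M.Fam (Mat n)) (w : M.X → ℝ) (m : ℕ) (s : M.Fam ℂ) : ℝ :=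
  ∫ x, M.nr T (m + 1) s x * Real.exp (-(m * w x)) ∂M.mu T

/-- The squared weighted norm of the `(0,1)` derivative of a section. -/
def wn1 (T : M.Fam (Mat n)) (w : M.X → ℝ) (m : ℕ) (s : M.Fam ℂ) : ℝ :=
  ∫ x, (HS.dp M T (m + 1) s s x).re * Real.exp (-(m * w x)) ∂M.mu T

/-- Minus the `∂bar` Laplace operator for the weight `m w`. -/
def wbox (T : M.Fam (Mat n)) (w : M.X → ℝ) (m : ℕ) (s : M.Fam ℂ) : M.Fam ℂ :=
  (HS.boxOp M T (m + 1) fun x => m * w x).ap s

/-- The vector field dual to the `(0,1)` derivative of a section. -/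
def wdu (T : M.Fam (Mat n)) (s : M.Fam ℂ) : M.Fam (E n) := fun e z => (T e z)⁻¹ *ᵥ HS.db M s e z

/-- The squared `(0,1)` derivative of that field, in a chart. -/
def wgr (T : M.Fam (Mat n)) (m : ℕ) (s : M.Fam ℂ) : M.Fam ℝ := fun e z =>
  (∑ k, ∑ l, normSq (dzb l (fun y => M.wdu T s e y k) z)) / (T e z).det.re ^ (m + 1)

/-- A Kähler metric `T` and a weight `w` whose curvature lies between `-T` and `T`, and is at
least `T / 2` on the closed set `Ω`. -/
structure WDat (T : M.Fam (Mat n)) (w : M.X → ℝ) (Ω : Set M.X) : Prop where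
  kae : M.Kae T
  sm : M.Sm w
  lo : M.Le (-T) (M.theta T w)
  hi : M.Le (M.theta T w) T
  cl : IsClosed Ω
  pos : M.All fun e z => e.symm z ∈ Ω → (M.theta T w e z - (1 / 2 : ℝ) • T e z).PosSemidef

/-- A chart in which, on the ball of radius `s`, the metric is almost the standard one and the
weight is almost quadratic up to a pluriharmonic function. -/
structure WNice (T : M.Fam (Mat n)) (w : M.X → ℝ) (m : ℕ) (s : ℝ) (e : M.Ch) : Prop where
  mem : e ∈ M.C
  sub : closedBall 0 s ⊆ e.target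
  bd : ∀ z ∈ closedBall (0 : E n) s, HS78.Bd 2 (T e z)
  gau : ∃ p : E n → ℂ, Differentiable ℂ p ∧ ∀ z ∈ closedBall (0 : E n) s,
    |m * (Real.log (T e z).det.re + w (e.symm z)) - 2 * (p z).re -
      m * nq (M.theta T w e 0) z| ≤ 1

theorem WNice.mono {M : Mf n} {T : M.Fam (Mat n)} {w : M.X → ℝ} {m : ℕ} {s s' : ℝ} {e : M.Ch}
    (h : M.WNice T w m s e) (hs : s' ≤ s) : M.WNice T w m s' e :=
  have a : closedBall (0 : E n) s' ⊆ closedBall 0 s := closedBall_subset_closedBall hs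
  ⟨h.mem, a.trans h.sub, fun z hz => h.bd z (a hz),
    let ⟨p, hp, q⟩ := h.gau
    ⟨p, hp, fun z hz => q z (a hz)⟩⟩

end Pool.Agent.Lib.HS32.Mf
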