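import Pool.Agent.Lib.HW27.Blue
import Pool.Agent.Lib.HW86.Bad

/-! Project hw: the bad set is small. -/

namespace Pool.Agent.Lib.HW27

theorem st_WBA : St_WBA := fun _ M _ H _ hH hs hv =>
  ⟨M.vol H 0 / 2, half_pos hv, fun δ hδ => by
    obtain ⟨T, w, Ω, k1, k2, k3, k4, k5, k6, k7, k8⟩ := W86.bad hH hs (lt_min hδ (half_pos hv))
    exact ⟨T, w, Ω, ⟨k1, k2, k3, k4, k5, k6⟩, by linarith [min_le_right δ (M.vol H 0 / 2)],
      k7.trans (min_le_left _ _)⟩⟩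

end Pool.Agent.Lib.HW27
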