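import Pool.Agent.Lib.HW27.Blue
import Pool.Agent.Lib.HS66.LimHol
import Pool.Agent.Lib.HS32.EKit

/-! The mass of a Bessel family on a set. -/

open scoped Classical Topology ContDiff ComplexOrder Matrix ENNReal
open Set MeasureTheory Complex Metric Filter

noncomputable section

namespace Pool.Agent.Lib.HW27

open Pool.Agent.Lib.SV (E)
open Pool.Agent.Lib.HS32 Pool.Agent.Lib.HS66

namespace W95

variable {n : ℕ} {g : E n → ℝ} {r : ℝ}

theorem cs {α : Type} [MeasurableSpace α] (μ : Measure α) {w a : α → ℝ≥0∞} (hw : Measurable w)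
    (ha : Measurable a) (h1 : ∫⁻ x, w x ∂μ = 1) :
    (∫⁻ x, w x * a x ∂μ) ^ 2 ≤ ∫⁻ x, w x * a x ^ 2 ∂μ := by
  have h := ENNReal.lintegral_mul_le_Lp_mul_Lq (μ.withDensity w) Real.HolderConjugate.two_two
    (f := fun _ => 1) (g := a) aemeasurable_const ha.aemeasurable
  have e : ∀ x, a x ^ (2 : ℝ) = a x ^ 2 := fun x => ENNReal.rpow_two _
  simp only [Pi.mul_apply, one_mul, ENNReal.one_rpow, lintegral_const, e] at h
  rw [withDensity_apply _ MeasurableSet.univ, Measure.restrict_univ, h1, ENNReal.one_rpow, one_mul,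
    lintegral_withDensity_eq_lintegral_mul _ hw ha,
    lintegral_withDensity_eq_lintegral_mul _ hw (ha.pow_const 2)] at h
  refine (pow_le_pow_left' h 2).trans (le_of_eq ?_)
  rw [← ENNReal.rpow_two, ← ENNReal.rpow_mul]
  norm_num

theorem one (hg : Ker g r) : ∫⁻ t, ENNReal.ofReal (g t) = 1 := by
  rw [← ofReal_integral_eq_lintegral_ofReal hg.integrable (.of_forall hg.nn), hg.int,
    ENNReal.ofReal_one]

theorem scale (hg : Ker g r) {s : ℝ} (hs : 0 < s) :
    Ker (fun t => g (s⁻¹ • t) / s ^ (2 * n)) (r * s) := by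
  have := hg.cont
  refine ⟨by fun_prop, fun t => div_nonneg (hg.nn _) (by positivity), fun t ht => ?_,
    fun u t hu => by rw [smul_comm, hg.inv _ _ hu], ?_⟩
  · have h := hg.supp (s⁻¹ • t) fun h => ht (by rw [h, zero_div])
    rw [norm_smul, norm_inv, Real.norm_of_nonneg hs.le, inv_mul_le_iff₀ hs] at h
    linarith
  · rw [integral_div, Measure.integral_comp_inv_smul, hg.int, finrank_real_of_complex,
      Module.finrank_fin_fun, abs_of_pos (by positivity), smul_eq_mul, mul_one,
      div_self (by positivity)]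

/-- The double average of `h`. -/
def av (g : E n → ℝ) (h : E n → ℝ) (x : E n) : ℝ≥0∞ :=
  ∫⁻ σ in Ioc (0 : ℝ) 1, ∫⁻ t, ENNReal.ofReal (g t) * ENNReal.ofReal (h (x - σ • t))

theorem meas2 (hg : Ker g r) {h : E n → ℝ} (hh : Continuous h) : Measurable fun p : E n × ℝ =>
    ∫⁻ t, ENNReal.ofReal (g t) * ENNReal.ofReal (h (p.1 - p.2 • t)) := by
  have := hg.cont
  refine Measurable.lintegral_prod_right' (f := fun p : (E n × ℝ) × E n =>
    ENNReal.ofReal (g p.2) * ENNReal.ofReal (h (p.1.1 - p.1.2 • p.2))) ?_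
  exact (Continuous.measurable (by fun_prop)).ennreal_ofReal.mul
    (Continuous.measurable (by fun_prop)).ennreal_ofReal

theorem av_meas (hg : Ker g r) {h : E n → ℝ} (hh : Continuous h) : Measurable (av g h) :=
  (meas2 hg hh).lintegral_prod_right'

theorem fub (hg : Ker g r) {h : E n → ℝ} (hh : Continuous h) (R : ℝ) :
    ∫⁻ x in ball 0 R, av g h x ≤ ∫⁻ y in ball 0 (R + r), ENNReal.ofReal (h y) := by
  have hg0 := hg.cont
  set J := ∫⁻ y in ball (0 : E n) (R + r), ENNReal.ofReal (h y)
  have h1 : ∀ σ ∈ Ioc (0 : ℝ) 1, ∀ t, ∫⁻ x in ball 0 R,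
      ENNReal.ofReal (g t) * ENNReal.ofReal (h (x - σ • t)) ≤ ENNReal.ofReal (g t) * J :=
    fun σ hσ t => by
      by_cases h0 : g t = 0
      · simp [h0]
      have ht := hg.supp t h0
      rw [lintegral_const_mul' _ _ ENNReal.ofReal_ne_top]
      refine mul_le_mul_right ?_ _
      have hm := measurePreserving_sub_right (volume : Measure (E n)) (σ • t)
      have h3 := hm.setLIntegral_comp_preimage (s := ball 0 (R + r)) measurableSet_ball
        (f := fun y => ENNReal.ofReal (h y)) (by fun_prop)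
      refine le_trans (lintegral_mono_set fun x hx => ?_) h3.le
      rw [mem_preimage, mem_ball_zero_iff]
      rw [mem_ball_zero_iff] at hx
      have h4 : ‖σ • t‖ ≤ r := by
        rw [norm_smul, Real.norm_of_nonneg hσ.1.le]
        nlinarith [hσ.1, hσ.2, norm_nonneg t]
      exact (norm_sub_le _ _).trans_lt (by linarith)
  unfold av
  rw [lintegral_lintegral_swap (meas2 hg hh).aemeasurable]
  calc _ ≤ ∫⁻ _ in Ioc (0 : ℝ) 1, J := by
        refine setLIntegral_mono' measurableSet_Ioc fun σ hσ => ?_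
        rw [lintegral_lintegral_swap (Measurable.aemeasurable
          ((Continuous.measurable (by fun_prop)).ennreal_ofReal.mul
            (Continuous.measurable (by fun_prop)).ennreal_ofReal))]
        refine (lintegral_mono (h1 σ hσ)).trans ?_
        rw [lintegral_mul_const _ (by fun_prop), one hg, one_mul]
    _ = _ := by simp

theorem pt2 (hg : Ker g r) {G : E n → ℂ} (hG : ContDiff ℝ 1 G) (hc : HasCompactSupport G)
    (x : E n) : ‖G x - ∫ t, g t • G (x - t)‖ₑ ^ 2 ≤ av g (fun y => (dbn G y * r) ^ 2) x := by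
  have hd := dbn_cont hG
  have hg0 := hg.cont
  have h1 : ‖G x - ∫ t, g t • G (x - t)‖ₑ ≤ ∫⁻ σ in Ioc (0 : ℝ) 1, 1 * ∫⁻ t,
      ENNReal.ofReal (g t) * ENNReal.ofReal |dbn G (x - σ • t) * r| := by
    refine (hg.pt hG hc x).trans (lintegral_mono fun σ => ?_)
    rw [one_mul]
    refine lintegral_mono fun t => ?_
    by_cases h0 : g t = 0
    · simp [h0]
    rw [ENNReal.ofReal_mul (hg.nn t)]
    exact mul_le_mul_right (ENNReal.ofReal_le_ofReal ((mul_le_mul_of_nonneg_left (hg.supp t h0)
      (dbn_nonneg _ _)).trans (le_abs_self _))) _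
  refine (pow_le_pow_left' h1 2).trans ((cs _ measurable_const
    ((meas2 hg (h := fun y => |dbn G y * r|) (by fun_prop)).comp measurable_prodMk_left)
    (by simp)).trans (lintegral_mono fun σ => ?_))
  rw [one_mul]
  refine (cs _ (by fun_prop) (by fun_prop) (one hg)).trans (le_of_eq ?_)
  simp only [← ENNReal.ofReal_pow (abs_nonneg _), sq_abs]

theorem jen (hg : Ker g r) {A : ℝ} (hA : ∀ t, g t ≤ A) {G : E n → ℂ} (hG : Continuous G)
    {x : E n} {R : ℝ} (hx : x ∈ ball 0 R) : ‖∫ t, g t • G (x - t)‖ₑ ^ 2 ≤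
      ENNReal.ofReal A * ∫⁻ y in ball 0 (R + r), ENNReal.ofReal (normSq (G y)) := by
  have hg0 := hg.cont
  have h1 : ‖∫ t, g t • G (x - t)‖ₑ ≤ ∫⁻ t, ENNReal.ofReal (g t) * ‖G (x - t)‖ₑ := by
    refine (enorm_integral_le_lintegral_enorm _).trans (le_of_eq (lintegral_congr fun t => ?_))
    rw [enorm_smul, Real.enorm_eq_ofReal (hg.nn t)]
  refine (pow_le_pow_left' h1 2).trans ((cs _ (by fun_prop)
    (Continuous.measurable (f := fun t => G (x - t)) (by fun_prop)).enorm (one hg)).trans ?_)
  rw [← lintegral_const_mul' _ _ ENNReal.ofReal_ne_top, ← lintegral_indicator measurableSet_ball,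
    ← lintegral_sub_left_eq_self _ x]
  refine lintegral_mono fun y => ?_
  by_cases h0 : g (x - y) = 0
  · simp [h0]
  have h2 := hg.supp _ h0
  rw [mem_ball_zero_iff] at hx
  rw [indicator_of_mem, sub_sub_cancel, normSq_eq_norm_sq, ENNReal.ofReal_pow (norm_nonneg _),
    ofReal_norm]
  · exact mul_le_mul_left (ENNReal.ofReal_le_ofReal (hA _)) _
  · rw [mem_ball_zero_iff, ← sub_sub_cancel x y]
    exact (norm_sub_le _ _).trans_lt (by linarith)

theorem dbn_le (G : E n → ℂ) (y : E n) : dbn G y ^ 2 ≤ 4 * n * ∑ l, normSq (dzb l G y) := by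
  have h := sq_sum_le_card_mul_sum_sq (s := Finset.univ) (f := fun l => ‖dzb l G y‖)
  have e : dbn G y = 2 * ∑ l, ‖dzb l G y‖ := by
    simp only [dbn, dzb, Finset.mul_sum, norm_div, Complex.norm_two]
    exact Finset.sum_congr rfl fun l _ => by ring
  simp only [e, normSq_eq_norm_sq]
  rw [Finset.card_univ, Fintype.card_fin] at h
  linarith

theorem lint {f : E n → ℝ} {R : ℝ} {B : Set (E n)} (hB : B ⊆ closedBall 0 R)
    (hf : ∀ z ∈ closedBall 0 R, ContinuousAt f z) (h0 : ∀ z, 0 ≤ f z) :
    ∫⁻ z in B, ENNReal.ofReal (f z) = ENNReal.ofReal (∫ z in B, f z) :=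
  (ofReal_integral_eq_lintegral_ofReal ((ContinuousOn.integrableOn_compact
    (isCompact_closedBall 0 R) fun z hz => (hf z hz).continuousWithinAt).mono_set hB)
    (.of_forall h0)).symm

end W95

open W95 in
theorem st_WEU : St_WEU := by
  intro n
  obtain ⟨g₀, -, hg₀⟩ := exists_ker (n := n) (r := 1 / 2) (by norm_num)
  obtain ⟨A, hA⟩ := hg₀.cpt.exists_bound_of_continuous hg₀.cont
  have hA0 : 0 ≤ A := (norm_nonneg _).trans (hA 0)
  refine ⟨2 * A + 2 * n + 1, by positivity, fun s Λ N F B hs hΛ hF hb hB hBs => ?_⟩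
  have hg := scale hg₀ hs
  set g : E n → ℝ := fun t => g₀ (s⁻¹ • t) / s ^ (2 * n)
  have hgA : ∀ t, g t ≤ A / s ^ (2 * n) := fun t =>
    div_le_div_of_nonneg_right ((le_abs_self _).trans (hA _)) (by positivity)
  let φ : ContDiffBump (0 : E n) := ⟨s + 1 / 2 * s, 2 * s, by positivity, by linarith⟩
  set G : Fin N → E n → ℂ := fun i z => φ z • F i z with hGd
  have hG : ∀ i, ContDiff ℝ 1 (G i) := fun i => contDiff_iff_contDiffAt.2 fun z => by
    by_cases hz : z ∈ closedBall (0 : E n) (2 * s)
    · exact φ.contDiffAt.smul (cd_le (hF i z hz) 1)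
    · refine (contDiffAt_const (c := 0)).congr_of_eventuallyEq ?_
      filter_upwards [isClosed_closedBall.isOpen_compl.mem_nhds hz] with y hy
      rw [hGd]
      beta_reduce
      rw [φ.zero_of_le_dist (not_le.1 fun h => hy (mem_closedBall.2 h)).le, zero_smul]
  have hc : ∀ i, HasCompactSupport (G i) := fun i => φ.hasCompactSupport.smul_right
  have hG0 : ∀ i, Continuous (G i) := fun i => (hG i).continuous
  have hev : ∀ i, ∀ y ∈ ball (0 : E n) (s + 1 / 2 * s), G i =ᶠ[𝓝 y] F i := fun i y hy => by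
    filter_upwards [φ.eventuallyEq_one_of_mem_ball hy] with z hz
    rw [hGd]
    beta_reduce
    rw [hz, Pi.one_apply, one_smul]
  have s1 : ball (0 : E n) (s + 1 / 2 * s) ⊆ ball 0 (2 * s) := ball_subset_ball (by linarith)
  have s2 : ball (0 : E n) s ⊆ ball 0 (s + 1 / 2 * s) := ball_subset_ball (by linarith)
  have bes : ∀ x ∈ ball (0 : E n) s, ∑ i, normSq (∫ t, g t • G i (x - t)) ≤
      A / s ^ (2 * n) * Λ := fun x hx => by
    set c : Fin N → ℂ := fun i => ∫ t, g t • G i (x - t) with hcd
    have e1 : ∫ t, g t • ∑ i, star (c i) * G i (x - t) = ((∑ i, normSq (c i) : ℝ) : ℂ) := by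
      simp only [Finset.smul_sum, ← mul_smul_comm]
      rw [integral_finsetSum _ fun i _ => (hg.int_smul (by fun_prop)).const_mul _, ofReal_sum]
      refine Finset.sum_congr rfl fun i _ => ?_
      rw [integral_const_mul, normSq_eq_conj_mul_self]
      rfl
    have h1 := jen hg hgA (G := fun y => ∑ i, star (c i) * G i y) (by fun_prop) hx
    have h2 : ∫⁻ y in ball (0 : E n) (s + 1 / 2 * s),
        ENNReal.ofReal (normSq (∑ i, star (c i) * G i y)) ≤
        ENNReal.ofReal (Λ * ∑ i, normSq (c i)) := by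
      have h3 := hb fun i => star (c i)
      have e2 : ∀ i, normSq (star (c i)) = normSq (c i) := fun i => normSq_conj _
      simp only [e2] at h3
      refine le_trans ?_ (ENNReal.ofReal_le_ofReal h3)
      rw [← lint (f := fun z => normSq (∑ i, star (c i) * F i z)) ball_subset_closedBall
        (fun z hz => continuous_normSq.continuousAt.comp (tendsto_finsetSum _ fun i _ => (hF i z hz).continuousAt.const_mul _))
        fun _ => normSq_nonneg _]
      refine le_trans (le_of_eq (setLIntegral_congr_fun measurableSet_ball fun y hy => ?_))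
        (lintegral_mono_set s1)
      simp only [fun i => (hev i y hy).self_of_nhds]
    have h0 : 0 ≤ ∑ i, normSq (c i) := Finset.sum_nonneg fun _ _ => normSq_nonneg _
    have h4 := h1.trans (mul_le_mul_right h2 _)
    rw [e1, ← ofReal_norm, ← ENNReal.ofReal_pow (norm_nonneg _),
      ← ENNReal.ofReal_mul (by positivity), ENNReal.ofReal_le_ofReal_iff (by positivity),
      norm_real, Real.norm_of_nonneg h0] at h4
    rcases h0.eq_or_lt with h | h
    · rw [← h]
      positivity
    · rw [sq, ← mul_assoc] at h4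
      exact le_of_mul_le_mul_right h4 h
  have hq : ∀ i, Continuous fun y => (dbn (G i) y * (1 / 2 * s)) ^ 2 := fun i =>
    ((dbn_cont (hG i)).mul continuous_const).pow 2
  have pt : ∀ x ∈ B, ∑ i, ENNReal.ofReal (normSq (G i x)) ≤
      (∑ i, 2 * av g (fun y => (dbn (G i) y * (1 / 2 * s)) ^ 2) x) +
        ENNReal.ofReal (2 * (A / s ^ (2 * n) * Λ)) := fun x hx => by
    have h1 := mul_le_mul_of_nonneg_left (bes x (hBs hx)) zero_le_two
    refine le_trans ?_ (add_le_add_right (ENNReal.ofReal_le_ofReal h1) _)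
    rw [Finset.mul_sum, ENNReal.ofReal_sum_of_nonneg fun i _ =>
      mul_nonneg zero_le_two (normSq_nonneg _), ← Finset.sum_add_distrib]
    refine Finset.sum_le_sum fun i _ =>
      le_trans ?_ (add_le_add_left (mul_le_mul_right (pt2 hg (hG i) (hc i) x) 2) _)
    rw [← ofReal_norm, ← ENNReal.ofReal_pow (norm_nonneg _), ← ENNReal.ofReal_ofNat 2,
      ← ENNReal.ofReal_mul zero_le_two, ← ENNReal.ofReal_add (by positivity)
        (mul_nonneg zero_le_two (normSq_nonneg _)), normSq_eq_norm_sq, normSq_eq_norm_sq]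
    refine ENNReal.ofReal_le_ofReal ?_
    set c := ∫ t, g t • G i (x - t)
    have h2 : ‖G i x‖ ≤ ‖G i x - c‖ + ‖c‖ := norm_le_norm_sub_add _ _
    nlinarith [sq_nonneg (‖G i x - c‖ - ‖c‖), norm_nonneg (G i x)]
  set D : Fin N → ℝ := fun i => ∫ z in ball (0 : E n) (2 * s), ∑ l, normSq (dzb l (F i) z)
  have hD : ∀ i, 0 ≤ D i := fun i =>
    integral_nonneg fun z => Finset.sum_nonneg fun _ _ => normSq_nonneg _
  have gr : ∀ i, ∫⁻ x in B, 2 * av g (fun y => (dbn (G i) y * (1 / 2 * s)) ^ 2) x ≤
      ENNReal.ofReal (2 * n * (s ^ 2 * D i)) := fun i => by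
    rw [lintegral_const_mul _ (av_meas hg (hq i)), mul_assoc, ENNReal.ofReal_mul zero_le_two,
      ENNReal.ofReal_ofNat, ← mul_assoc, ENNReal.ofReal_mul (by positivity),
      ← lint (f := fun z => ∑ l, normSq (dzb l (F i) z)) ball_subset_closedBall
        (fun z hz => tendsto_finsetSum _ fun l _ => continuous_normSq.continuousAt.comp (cd_dzb (hF i z hz) l).continuousAt)
        (fun _ => Finset.sum_nonneg fun _ _ => normSq_nonneg _),
      ← lintegral_const_mul' _ _ ENNReal.ofReal_ne_top]
    refine mul_le_mul_right ((lintegral_mono_set hBs).trans ((fub hg (hq i) s).trans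
      (le_trans (setLIntegral_mono' measurableSet_ball fun y hy => ?_) (lintegral_mono_set s1)))) _
    rw [← ENNReal.ofReal_mul (by positivity)]
    refine ENNReal.ofReal_le_ofReal ?_
    have h1 := mul_le_mul_of_nonneg_left (dbn_le (G i) y) (sq_nonneg s)
    simp only [dzb_congr (hev i y hy)] at h1
    linarith
  have hv : volume B ≠ ⊤ := ((measure_mono hBs).trans_lt measure_ball_lt_top).ne
  have hS : 0 ≤ ∑ i, D i := Finset.sum_nonneg fun i _ => hD i
  have key : ENNReal.ofReal (∑ i, ∫ z in B, normSq (F i z)) ≤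
      ENNReal.ofReal (2 * n * (s ^ 2 * ∑ i, D i) + 2 * (A / s ^ (2 * n) * Λ) * volume.real B) := by
    rw [ENNReal.ofReal_sum_of_nonneg fun i _ => integral_nonneg fun _ => normSq_nonneg _]
    calc _ = ∑ i, ∫⁻ z in B, ENNReal.ofReal (normSq (G i z)) := by
          refine Finset.sum_congr rfl fun i _ => ?_
          rw [← lint (f := fun x => normSq (F i x))
            ((hBs.trans (s2.trans s1)).trans ball_subset_closedBall) (fun z hz =>
            continuous_normSq.continuousAt.comp (hF i z hz).continuousAt) fun _ => normSq_nonneg _]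
          exact setLIntegral_congr_fun hB fun y hy => by
            simp only [(hev i y (s2 (hBs hy))).self_of_nhds]
      _ = ∫⁻ z in B, ∑ i, ENNReal.ofReal (normSq (G i z)) :=
          (lintegral_finsetSum _ fun i _ =>
            (continuous_normSq.comp (hG0 i)).measurable.ennreal_ofReal).symm
      _ ≤ _ := setLIntegral_mono' hB pt
      _ ≤ _ := by
          rw [lintegral_add_right _ measurable_const, lintegral_finsetSum _ fun i _ =>
            (av_meas hg (hq i)).const_mul 2, setLIntegral_const,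
            ENNReal.ofReal_add (by positivity) (by positivity),
            ENNReal.ofReal_mul (p := 2 * (A / s ^ (2 * n) * Λ)) (by positivity),
            ofReal_measureReal hv, Finset.mul_sum, Finset.mul_sum,
            ENNReal.ofReal_sum_of_nonneg fun i _ => by have := hD i; positivity]
          exact add_le_add_left (Finset.sum_le_sum fun i _ => gr i) _
  rw [ENNReal.ofReal_le_ofReal_iff (by positivity)] at key
  refine key.trans (add_le_add ?_ ?_)
  · exact mul_le_mul_of_nonneg_right (by linarith) (by positivity)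
  · rw [show 2 * (A / s ^ (2 * n) * Λ) * volume.real B =
      2 * A * (Λ * volume.real B / s ^ (2 * n)) by ring]
    exact mul_le_mul_of_nonneg_right (by linarith [(n.cast_nonneg : (0 : ℝ) ≤ n)]) (by positivity)

end Pool.Agent.Lib.HW27
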