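import Pool.Agent.Lib.HW27.Blue
import Pool.Agent.Lib.HS32.EKit

/-! Uniform Taylor expansion of order two, up to a pluriharmonic function. -/

open scoped Classical Topology ContDiff ComplexOrder Matrix
open Set MeasureTheory Complex Metric Filter

noncomputable section

namespace Pool.Agent.Lib.HW27

open Pool.Agent.Lib.SV (E)
open Pool.Agent.Lib.HS32

namespace T47

variable {n : ℕ}

theorem taylor_two {f : E n → ℂ} {y z : E n} {δ η : ℝ}
    (hf : ∀ x ∈ closedBall y δ, ContDiffAt ℝ ∞ f x)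
    (hη : ∀ x ∈ closedBall y δ, ‖fderiv ℝ (fderiv ℝ f) x - fderiv ℝ (fderiv ℝ f) y‖ ≤ η)
    (hz : z ∈ closedBall y δ) :
    ‖f z - f y - fderiv ℝ f y (z - y) - fderiv ℝ (fderiv ℝ f) y (z - y) (z - y) / 2‖ ≤
      η * ‖z - y‖ ^ 2 := by
  have hy : y ∈ closedBall y δ := mem_closedBall_self (dist_nonneg.trans hz)
  have h0 : 0 ≤ η := (ContinuousLinearMap.opNorm_nonneg _).trans (hη y hy)
  obtain ⟨B, hB⟩ : ∃ B, B = fderiv ℝ (fderiv ℝ f) y := ⟨_, rfl⟩
  rw [← hB] at hη ⊢
  have h1 : ∀ x ∈ closedBall y δ, ‖fderiv ℝ f x - fderiv ℝ f y - B (x - y)‖ ≤ η * ‖x - y‖ := by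
    intro x hx
    have := (convex_closedBall y δ).norm_image_sub_le_of_norm_hasFDerivWithin_le
      (f := fun x => fderiv ℝ f x - B x) (f' := fun x => fderiv ℝ (fderiv ℝ f) x - B)
      (fun w hw => ((cd_diff ((hf w hw).fderiv_right (m := ∞) (by simp))).hasFDerivAt.sub
        B.hasFDerivAt).hasFDerivWithinAt) hη hy hx
    rwa [show fderiv ℝ f x - B x - (fderiv ℝ f y - B y) =
      fderiv ℝ f x - fderiv ℝ f y - B (x - y) by rw [map_sub]; abel] at this
  obtain ⟨v, hv⟩ : ∃ v, v = z - y := ⟨_, rfl⟩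
  have hz' : z = y + v := by rw [hv]; abel
  have hm : ∀ t ∈ Icc (0 : ℝ) 1, y + t • v ∈ closedBall y δ := fun t ht =>
    (convex_closedBall y δ).add_smul_mem hy (hz' ▸ hz) ht
  have h2 : ∀ t ∈ Icc (0 : ℝ) 1, HasDerivAt
      (fun t : ℝ => f (y + t • v) - t • fderiv ℝ f y v - (t * t / 2) • B v v)
      ((fderiv ℝ f (y + t • v) - fderiv ℝ f y - B (y + t • v - y)) v) t := by
    intro t ht
    have a : HasDerivAt (fun t : ℝ => y + t • v) v t := by
      simpa using ((hasDerivAt_id t).smul_const v).const_add y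
    have b := (cd_diff (hf _ (hm t ht))).hasFDerivAt.comp_hasDerivAt t a
    have c := (hasDerivAt_id t).smul_const (fderiv ℝ f y v)
    have d := (((hasDerivAt_id t).mul (hasDerivAt_id t)).div_const 2).smul_const (B v v)
    refine ((b.sub c).sub d).congr_deriv ?_
    simp
  have h3 := norm_image_sub_le_of_norm_deriv_le_segment_01' (C := η * ‖v‖ ^ 2)
    (fun t ht => (h2 t ht).hasDerivWithinAt) fun t ht => by
      have a := h1 _ (hm t (Ico_subset_Icc_self ht))
      have b : ‖y + t • v - y‖ ≤ ‖v‖ := by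
        rw [add_sub_cancel_left, norm_smul, Real.norm_of_nonneg ht.1]
        exact mul_le_of_le_one_left (norm_nonneg _) ht.2.le
      calc _ ≤ η * ‖y + t • v - y‖ * ‖v‖ := ContinuousLinearMap.le_of_opNorm_le _ a _
        _ ≤ η * ‖v‖ * ‖v‖ := by gcongr
        _ = _ := by ring
  rw [← hv, hz']
  refine le_trans (le_of_eq (congrArg _ ?_)) h3
  simp
  ring

theorem second_eq {f : E n → ℂ} {y : E n} (hf : ContDiffAt ℝ ∞ f y) (v : E n) :
    fderiv ℝ (fderiv ℝ f) y v v =
      ∑ k, ∑ j, dz k (dz j f) y * v j * v k +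
        ∑ k, ∑ j, dzb k (dzb j f) y * star (v j) * star (v k) +
        2 * (star v ⬝ᵥ hess f y *ᵥ v) := by
  have hd : DifferentiableAt ℝ (fderiv ℝ f) y := cd_diff (hf.fderiv_right (m := ∞) (by simp))
  have e1 : fderiv ℝ (fderiv ℝ f) y v v = fderiv ℝ (fun x => fderiv ℝ f x v) y v := by
    rw [fderiv_clm_apply hd (differentiableAt_const v)]
    simp
  have e2 : (fun x => fderiv ℝ f x v) =
      fun x => ∑ j, (v j * dz j f x + star (v j) * dzb j f x) := by
    funext x
    rw [fderiv_eq_sum]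
    exact Finset.sum_congr rfl fun j _ => by ring
  have d1 : ∀ j, DifferentiableAt ℝ (dz j f) y := fun j => cd_diff (cd_dz hf j)
  have d2 : ∀ j, DifferentiableAt ℝ (dzb j f) y := fun j => cd_diff (cd_dzb hf j)
  have d3 : ∀ j ∈ (Finset.univ : Finset (Fin n)), DifferentiableAt ℝ
      (fun x => v j * dz j f x + star (v j) * dzb j f x) y := fun j _ =>
    ((d1 j).const_mul _).add ((d2 j).const_mul _)
  have e3 : star v ⬝ᵥ hess f y *ᵥ v = ∑ k, ∑ j, dzb k (dz j f) y * v j * star (v k) := by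
    simp only [dotProduct, Matrix.mulVec, hess, Matrix.of_apply, Finset.mul_sum, Pi.star_apply]
    exact Finset.sum_congr rfl fun k _ => Finset.sum_congr rfl fun j _ => by ring
  have e4 : star v ⬝ᵥ hess f y *ᵥ v = ∑ k, ∑ j, dz k (dzb j f) y * star (v j) * v k := by
    rw [e3, Finset.sum_comm]
    exact Finset.sum_congr rfl fun k _ => Finset.sum_congr rfl fun j _ => by
      rw [dz_dzb hf]; ring
  rw [e1, e2, fderiv_eq_sum, two_mul]
  nth_rewrite 1 [e3]
  rw [e4]
  simp only [← Finset.sum_add_distrib]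
  refine Finset.sum_congr rfl fun k _ => ?_
  rw [dz_sum d3, dzb_sum d3, Finset.sum_mul, Finset.sum_mul, ← Finset.sum_add_distrib]
  refine Finset.sum_congr rfl fun j _ => ?_
  rw [dz_add ((d1 j).const_mul _) ((d2 j).const_mul _),
    dzb_add ((d1 j).const_mul _) ((d2 j).const_mul _), dz_const_mul _ (d1 j),
    dz_const_mul _ (d2 j), dzb_const_mul _ (d1 j), dzb_const_mul _ (d2 j)]
  ring

end T47

open T47

theorem st_WGA : St_WGA := by
  intro n Φ U K hU hK hKU hΦ η hη
  obtain ⟨f, hf⟩ : ∃ f : E n → ℂ, f = fun w => (Φ w : ℂ) := ⟨_, rfl⟩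
  have hs : ∀ z ∈ U, ContDiffAt ℝ ∞ f z := fun z hz => hf ▸ cd_ofReal (hΦ z hz)
  obtain ⟨δ0, h0, h1⟩ := hK.exists_cthickening_subset_open hU hKU
  have hc : ContinuousOn (fderiv ℝ (fderiv ℝ f)) (cthickening δ0 K) := fun z hz =>
    (((hs z (h1 hz)).fderiv_right (m := ∞) (by simp)).fderiv_right (m := ∞)
      (by simp)).continuousAt.continuousWithinAt
  have hu : UniformContinuousOn (fderiv ℝ (fderiv ℝ f)) (cthickening δ0 K) :=
    hK.cthickening.uniformContinuousOn_of_continuous hc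
  obtain ⟨δ1, h2, h3⟩ := (Metric.uniformContinuousOn_iff_le
    (β := E n →L[ℝ] E n →L[ℝ] ℂ)).1 hu η hη
  refine ⟨min δ0 δ1, lt_min h0 h2, fun y hy => ?_⟩
  have h4 : closedBall y (min δ0 δ1) ⊆ cthickening δ0 K :=
    (closedBall_subset_closedBall (min_le_left _ _)).trans (closedBall_subset_cthickening hy δ0)
  have hy' : y ∈ closedBall y (min δ0 δ1) := mem_closedBall_self (lt_min h0 h2).le
  have hfy := hs y (hKU hy)
  refine ⟨h4.trans h1, fun z => f y / 2 + ∑ j, dz j f y * (z j - y j) +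
    (∑ k, ∑ j, dz k (dz j f) y * (z j - y j) * (z k - y k)) / 2, by fun_prop, fun z hz => ?_⟩
  have h5 := taylor_two (fun x hx => hs x (h1 (h4 hx))) (fun x hx =>
    (dist_eq_norm (fderiv ℝ (fderiv ℝ f) x) (fderiv ℝ (fderiv ℝ f) y)).symm.le.trans
      (h3 x (h4 hx) y (h4 hy') ((mem_closedBall.1 hx).trans (min_le_right _ _)))) hz
  refine le_trans (le_of_eq ?_) ((abs_re_le_norm _).trans h5)
  have s1 : ∀ j, dz j f =ᶠ[𝓝 y] fun w => star (dzb j f w) := fun j =>
    (cd_ev_diff hfy).mono fun w hw => by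
      subst hf
      exact (star_dzb_ofReal hw).symm
  have s2 : ∀ j, dzb j f y = star (dz j f y) := fun j => by
    rw [(s1 j).eq_of_nhds, star_star]
  have s3 : ∀ k j, dzb k (dzb j f) y = star (dz k (dz j f) y) := fun k j => by
    rw [dz_congr (s1 j), dz_star (cd_diff (cd_dzb hfy j)), star_star]
  have s4 : ∑ j, (dz j f y * (z - y) j + dzb j f y * star ((z - y) j)) =
      ∑ j, dz j f y * (z j - y j) + star (∑ j, dz j f y * (z j - y j)) := by
    simp only [s2, star_sum, star_mul', Finset.sum_add_distrib, Pi.sub_apply]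
  have s5 : ∑ k, ∑ j, dzb k (dzb j f) y * star ((z - y) j) * star ((z - y) k) =
      star (∑ k, ∑ j, dz k (dz j f) y * (z j - y j) * (z k - y k)) := by
    simp only [s3, star_sum, star_mul', Pi.sub_apply]
  rw [second_eq hfy, fderiv_eq_sum, s4, s5, ← hf, nq]
  have s6 : ∀ w, (f w).re = Φ w := fun w => by rw [hf, ofReal_re]
  simp only [Pi.sub_apply]
  generalize (∑ j, dz j f y * (z j - y j)) = a
  generalize (∑ k, ∑ j, dz k (dz j f) y * (z j - y j) * (z k - y k)) = b
  generalize (star (z - y) ⬝ᵥ hess f y *ᵥ (z - y)) = c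
  congr 1
  simp [s6]
  ring

end Pool.Agent.Lib.HW27
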