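import Pool.Agent.Lib.HW27.Blue
import Pool.Agent.Lib.HS32.MAll

/-! Project hw, part B: the resolvent and its holomorphic limit. -/

open scoped Classical Topology ContDiff ComplexOrder Matrix
open Set MeasureTheory Complex Metric Filter

noncomputable section

namespace Pool.Agent.Lib.HW27

open Pool.Agent.Lib.SV (E)
open Pool.Agent.Lib.HS32 Pool.Agent.Lib.HS32.Mf Pool.Agent.Lib.HS21 Pool.Agent.Lib.HS

namespace BWL1

theorem re_le_half {a : ℂ} {b q : ℝ} (hb : 0 ≤ b) (hq : 0 ≤ q) (h : normSq a = b * q) :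
    a.re ≤ (b + q) / 2 := by
  refine (le_abs_self _).trans (abs_le_of_sq_le_sq ?_ (by positivity))
  have h1 : a.re ^ 2 ≤ normSq a := by rw [normSq_apply]; nlinarith [mul_self_nonneg a.im]
  nlinarith [sq_nonneg (b - q)]

/-- The energy estimate for the resolvent. -/
theorem energy (hSC : St_SC5) (hG : St_GRN2) {n : ℕ} {M : Mf n} [M.Cpt] {T : M.Fam (HS32.Mat n)}
    {W : M.X → ℝ} {k : ℕ} {σ s : M.Fam ℂ} {τ : ℝ} (hK : M.Kae T) (hW : M.Sm W) (hσ : M.Sec k σ)
    (hs : M.Sec k s) (hτ : 0 < τ)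
    (heq : M.All fun e z => τ * s e z - (boxOp M T k W).ap s e z = τ * σ e z) :
    ∫ x, M.nr T k s x * Real.exp (-W x) ∂M.mu T ≤ ∫ x, M.nr T k σ x * Real.exp (-W x) ∂M.mu T ∧
      ∫ x, (dp M T k s s x).re * Real.exp (-W x) ∂M.mu T ≤
        τ * ∫ x, M.nr T k σ x * Real.exp (-W x) ∂M.mu T := by
  obtain ⟨-, -, -, -, hint, -⟩ := mMU n M T hK.toMet
  have hρ : Continuous fun x => Real.exp (-W x) := hW.neg.exp.continuous
  have hρ0 : ∀ x, 0 < Real.exp (-W x) := fun x => Real.exp_pos _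
  obtain ⟨-, -, -, cN, -, -, -, cD, pN, -⟩ := hSC n M T k s s hK.toMet hs hs
  obtain ⟨-, -, -, cS, -, cA, -, -, pA, -⟩ := hSC n M T k σ s hK.toMet hσ hs
  have hL : ∀ x, M.ev ((boxOp M T k W).ap s) x = τ * M.ev s x - τ * M.ev σ x := fun x => by
    have h1 : τ * M.ev s x - M.ev ((boxOp M T k W).ap s) x = τ * M.ev σ x := AllOn.ch heq x
    linear_combination -h1
  have iN : Integrable (fun x => M.nr T k s x * Real.exp (-W x)) (M.mu T) :=
    hint ℝ _ (cN.mul hρ)
  have iS : Integrable (fun x => M.nr T k σ x * Real.exp (-W x)) (M.mu T) :=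
    hint ℝ _ (cS.mul hρ)
  have iA : Integrable (fun x => (sp M T k σ s x).re * Real.exp (-W x)) (M.mu T) :=
    hint ℝ _ ((continuous_re.comp cA).mul hρ)
  have h3 := congrArg Complex.re (hG n M T k W s s hK hW hs hs)
  have h4 : ∀ x, sp M T k ((boxOp M T k W).ap s) s x * (Real.exp (-W x) : ℝ) =
      (τ * M.nr T k s x - τ * sp M T k σ s x) * (Real.exp (-W x) : ℝ) := fun x => by
    have h5 := (pN x).2.1
    rw [← h5, sp, sp, sp, hL]
    ring
  have i4 : Integrable (fun x => ((τ : ℂ) * M.nr T k s x - τ * sp M T k σ s x) *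
      (Real.exp (-W x) : ℝ)) (M.mu T) :=
    hint ℂ _ (((continuous_const.mul (continuous_ofReal.comp cN)).sub
      (continuous_const.mul cA)).mul (continuous_ofReal.comp hρ))
  have i5 : Integrable (fun x => dp M T k s s x * (Real.exp (-W x) : ℝ)) (M.mu T) :=
    hint ℂ _ (cD.mul (continuous_ofReal.comp hρ))
  have h5 : (∫ x, ((τ : ℂ) * M.nr T k s x - τ * sp M T k σ s x) * (Real.exp (-W x) : ℝ)
      ∂M.mu T).re = τ * ∫ x, M.nr T k s x * Real.exp (-W x) ∂M.mu T -
        τ * ∫ x, (sp M T k σ s x).re * Real.exp (-W x) ∂M.mu T := by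
    rw [← integral_const_mul, ← integral_const_mul,
      ← integral_sub (iN.const_mul _) (iA.const_mul _)]
    refine (integral_re i4).symm.trans (integral_congr_ae (Eventually.of_forall fun x => ?_))
    simp only [RCLike.re_to_complex, re_mul_ofReal, sub_re, re_ofReal_mul, ofReal_re]
    ring
  have h6 : (∫ x, dp M T k s s x * (Real.exp (-W x) : ℝ) ∂M.mu T).re =
      ∫ x, (dp M T k s s x).re * Real.exp (-W x) ∂M.mu T := by
    refine (integral_re i5).symm.trans (integral_congr_ae (Eventually.of_forall fun x => ?_))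
    simp only [RCLike.re_to_complex, re_mul_ofReal]
  simp only [h4] at h3
  rw [h5, neg_re, h6] at h3
  have h7 : ∫ x, (sp M T k σ s x).re * Real.exp (-W x) ∂M.mu T ≤
      (∫ x, M.nr T k σ x * Real.exp (-W x) ∂M.mu T +
        ∫ x, M.nr T k s x * Real.exp (-W x) ∂M.mu T) / 2 := by
    rw [← integral_add iS iN, ← integral_div]
    refine integral_mono iA ((iS.add iN).div_const _) fun x => ?_
    have := mul_le_mul_of_nonneg_right
      (re_le_half (pA x).1 (pN x).1 (pA x).2.2.2.2.1) (hρ0 x).le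
    refine this.trans_eq ?_
    ring
  have h8 : 0 ≤ ∫ x, (dp M T k s s x).re * Real.exp (-W x) ∂M.mu T :=
    integral_nonneg fun x => mul_nonneg (pN x).2.2.1 (hρ0 x).le
  have h9 : 0 ≤ ∫ x, M.nr T k s x * Real.exp (-W x) ∂M.mu T :=
    integral_nonneg fun x => mul_nonneg (pN x).1 (hρ0 x).le
  have h10 := mul_le_mul_of_nonneg_left h7 hτ.le
  constructor
  · refine le_of_mul_le_mul_left ?_ (half_pos hτ)
    linarith
  · nlinarith [mul_nonneg hτ.le h9, mul_nonneg hτ.le (h9.trans (le_of_mul_le_mul_left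
      (show τ / 2 * _ ≤ τ / 2 * ∫ x, M.nr T k σ x * Real.exp (-W x) ∂M.mu T by linarith)
      (half_pos hτ)))]

end BWL1

open BWL1 in
theorem st_WL1 (hSC : St_SC5) (hG : St_GRN2) (hB : St_BOX) (hS : St_SLIM) : St_WL1 := by
  intro n M _ T w m σ l hK hw hσ hl
  have hM := hK.toMet
  have hW : M.Sm fun x => (m : ℝ) * w x := hw.const_mul _
  have hi := (mMU n M T hM).2.2.2.2.1
  have hex : ∀ τ : ℝ, ∃ s, M.Sec (m + 1) s ∧ (τ ≤ 0 → s = σ) ∧ (0 < τ →
      M.All fun e z => τ * s e z - M.wbox T w m s e z = τ * σ e z) := fun τ => by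
    rcases le_or_gt τ 0 with h | h
    · exact ⟨σ, hσ, fun _ => rfl, fun h' => absurd h' (not_lt.2 h)⟩
    · obtain ⟨s, a, b⟩ := hB n M T (m + 1) _ ((τ : ℂ) • σ) τ hK hW
        ((hSC n M T _ σ σ hM hσ hσ).2.1 _) h
      exact ⟨s, a, fun h' => absurd h (not_lt.2 h'), fun _ => b⟩
  choose s hs hs0 hs1 using hex
  have h0 := fun τ (h : 0 < τ) => energy hSC hG hK hW hσ (hs τ) h (hs1 τ h)
  set J := ∫ x, M.nr T (m + 1) σ x * Real.exp (-(m * w x)) ∂M.mu T
  obtain ⟨B, -, hB'⟩ := hW.exists_bound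
  have cw : Continuous fun x => Real.exp (-(m * w x)) := hW.neg.exp.continuous
  have w1 : ∀ x, Real.exp (-(m * w x)) ≤ Real.exp B := fun x =>
    Real.exp_le_exp.2 ((neg_le_abs _).trans (hB' x))
  have w2 : ∀ x, 1 ≤ Real.exp B * Real.exp (-(m * w x)) := fun x => by
    rw [← Real.exp_add]
    exact Real.one_le_exp (by linarith [(le_abs_self _).trans (hB' x)])
  have wt : ∀ f : M.X → ℝ, Continuous f → (∀ x, 0 ≤ f x) →
      ∫ x, f x ∂M.mu T ≤ Real.exp B * ∫ x, f x * Real.exp (-(m * w x)) ∂M.mu T := fun f cf f0 => by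
    rw [← integral_const_mul]
    exact integral_mono (hi ℝ _ cf) (hi ℝ _ (by fun_prop)) fun x => by
      nlinarith [mul_le_mul_of_nonneg_left (w2 x) (f0 x)]
  have cn : ∀ t, M.Sec (m + 1) t → Continuous (M.nr T (m + 1) t) := fun t ht =>
    (hSC n M T _ t t hM ht ht).2.2.2.1
  have n0 : ∀ t, M.Sec (m + 1) t → ∀ x, 0 ≤ M.nr T (m + 1) t x := fun t ht x =>
    ((hSC n M T _ t t hM ht ht).2.2.2.2.2.2.2.2.1 x).1
  have lp : ∀ᶠ τ in (l : Filter ℝ), 0 < τ := hl self_mem_nhdsWithin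
  have lt : Tendsto (fun τ : ℝ => τ) l (𝓝 0) := hl.trans nhdsWithin_le_nhds
  obtain ⟨s₀, h1, h2⟩ := hS n M T (m + 1) ℝ l s (Real.exp B * J) hM hs (fun a => by
      refine (wt _ (cn _ (hs a)) (n0 _ (hs a))).trans ?_
      gcongr
      rcases le_or_gt a 0 with h | h
      · rw [hs0 a h]
      · exact (h0 a h).1) (by
      have d0 := fun a x => ((hSC n M T _ _ _ hM (hs a) (hs a)).2.2.2.2.2.2.2.2.1 x).2.2.1
      refine squeeze_zero' (g := fun a : ℝ => Real.exp B * (a * J))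
        (Eventually.of_forall fun a => integral_nonneg (d0 a)) (lp.mono fun a ha => (wt _
          (continuous_re.comp (hSC n M T _ _ _ hM (hs a) (hs a)).2.2.2.2.2.2.2.1) (d0 a)).trans ?_)
        ?_
      · gcongr
        exact (h0 a ha).2
      · simpa using (lt.mul_const J).const_mul (Real.exp B))
  refine ⟨s, s₀, fun τ h => ⟨hs τ, hs1 τ h⟩, h1, fun σ' hσ' => ?_⟩
  obtain ⟨K, hK'⟩ := isCompact_univ.exists_bound_of_continuousOn (cn _ hσ').sqrt.continuousOn
  have cρ : Continuous fun x => ((Real.exp (-(m * w x)) : ℝ) : ℂ) := continuous_ofReal.comp cw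
  have key : ∀ a, ‖M.wip T w m (s a) σ' - M.wip T w m s₀ σ'‖ ≤
      K * Real.exp B * ∫ x, √(M.nr T (m + 1) (s a - s₀) x) ∂M.mu T := fun a => by
    have hd := (hSC n M T _ _ _ hM (hs a) h1.toSec).1
    obtain ⟨-, -, -, -, -, c1, -⟩ := hSC n M T _ _ _ hM (hs a) hσ'
    obtain ⟨-, -, -, -, -, c2, -⟩ := hSC n M T _ _ _ hM h1.toSec hσ'
    obtain ⟨-, -, -, c3, -, -, -, -, p3, -⟩ := hSC n M T _ _ _ hM hd hσ'
    have i1 : Integrable (fun x => sp M T (m + 1) (s a) σ' x * (Real.exp (-(m * w x)) : ℝ))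
      (M.mu T) := hi ℂ _ (c1.mul cρ)
    have i2 : Integrable (fun x => sp M T (m + 1) s₀ σ' x * (Real.exp (-(m * w x)) : ℝ))
      (M.mu T) := hi ℂ _ (c2.mul cρ)
    rw [wip, wip, ← integral_sub i1 i2, ← integral_const_mul]
    refine norm_integral_le_of_norm_le ((hi ℝ _ c3.sqrt).const_mul _)
      (Eventually.of_forall fun x => ?_)
    have e1 : sp M T (m + 1) (s a) σ' x - sp M T (m + 1) s₀ σ' x =
        sp M T (m + 1) (s a - s₀) σ' x := by
      have : M.ev (s a - s₀) x = M.ev (s a) x - M.ev s₀ x := rfl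
      rw [sp, sp, sp, this]
      ring
    have e2 : ‖sp M T (m + 1) (s a - s₀) σ' x‖ =
        √(M.nr T (m + 1) (s a - s₀) x) * √(M.nr T (m + 1) σ' x) := by
      rw [← Real.sqrt_mul (p3 x).1, ← (p3 x).2.2.2.2.1, normSq_eq_norm_sq,
        Real.sqrt_sq (norm_nonneg _)]
    have k : √(M.nr T (m + 1) σ' x) ≤ K := (le_abs_self _).trans (hK' x trivial)
    have k0 : 0 ≤ K := (Real.sqrt_nonneg _).trans k
    have := w1 x
    rw [← sub_mul, e1, norm_mul, e2, norm_real, Real.norm_of_nonneg (Real.exp_pos _).le]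
    calc _ ≤ √(M.nr T (m + 1) (s a - s₀) x) * K * Real.exp B := by gcongr
      _ = _ := by ring
  rw [tendsto_iff_norm_sub_tendsto_zero]
  exact squeeze_zero (fun a => norm_nonneg _) key (by simpa using h2.const_mul (K * Real.exp B))

end Pool.Agent.Lib.HW27
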