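import Pool.Agent.Lib.HW27.Blue
import Pool.Agent.Lib.HS32.MAll

/-! Project hw, part B: the energy of the resolvent. -/

open scoped Classical Topology ContDiff ComplexOrder Matrix
open Set MeasureTheory Complex Metric Filter

noncomputable section

namespace Pool.Agent.Lib.HW27

open Pool.Agent.Lib.SV (E)
open Pool.Agent.Lib.HS32 Pool.Agent.Lib.HS32.Mf Pool.Agent.Lib.HS

namespace W92

theorem cs_psd {n : ℕ} {A : HS32.Mat n} (hA : A.PosSemidef) (u v : Fin n → ℂ) {η : ℝ} (hη : 0 < η) :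
    (star v ⬝ᵥ A *ᵥ u).re ≤
      η / 2 * (star v ⬝ᵥ A *ᵥ v).re + (2 * η)⁻¹ * (star u ⬝ᵥ A *ᵥ u).re := by
  have h0 : 0 ≤ (star ((η : ℂ) • v - u) ⬝ᵥ A *ᵥ ((η : ℂ) • v - u)).re :=
    hA.re_dotProduct_nonneg _
  have h1 : star u ⬝ᵥ A *ᵥ v = star (star v ⬝ᵥ A *ᵥ u) := by
    rw [Matrix.star_dotProduct, Matrix.star_mulVec, hA.isHermitian.eq,
      Matrix.dotProduct_mulVec]
  have h2 : star ((η : ℂ) • v - u) ⬝ᵥ A *ᵥ ((η : ℂ) • v - u) =
      (η : ℂ) * ((η : ℂ) * (star v ⬝ᵥ A *ᵥ v)) - (η : ℂ) * (star v ⬝ᵥ A *ᵥ u) -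
        (η : ℂ) * (star u ⬝ᵥ A *ᵥ v) + star u ⬝ᵥ A *ᵥ u := by
    rw [star_sub, star_smul, Matrix.mulVec_sub, Matrix.mulVec_smul, sub_dotProduct,
      dotProduct_sub, dotProduct_sub, smul_dotProduct, smul_dotProduct, dotProduct_smul,
      dotProduct_smul, Complex.star_def, conj_ofReal]
    simp only [smul_eq_mul]
    ring
  rw [h2, h1] at h0
  simp only [add_re, sub_re, re_ofReal_mul, Complex.star_def, conj_re] at h0
  refine le_of_mul_le_mul_left ?_ (mul_pos two_pos hη)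
  have h3 : ∀ a b : ℝ, 2 * η * (η / 2 * a + (2 * η)⁻¹ * b) = η * (η * a) + b := fun a b => by
    field_simp
  rw [h3]
  linarith

variable {n : ℕ} {M : Mf n} {T : M.Fam (HS32.Mat n)} {m : ℕ} {σ s : M.Fam ℂ}

theorem dp_re (hT : M.Met T) (s σ : M.Fam ℂ) (x : M.X) : (dp M T m s σ x).re =
    (star (M.ev (db M σ) x) ⬝ᵥ (M.ev T x)⁻¹ *ᵥ M.ev (db M s) x).re / (M.ev T x).det.re ^ m := by
  rw [dp, ← herm_det (hT.ev_pos x).isHermitian, ← ofReal_pow, div_ofReal_re, ofReal_re]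

theorem dp_cs (hT : M.Met T) (x : M.X) {η : ℝ} (hη : 0 < η) : (dp M T m s σ x).re ≤
    η / 2 * (dp M T m σ σ x).re + (2 * η)⁻¹ * (dp M T m s s x).re := by
  have h0 : 0 < (M.ev T x).det.re ^ m := pow_pos (pd_det_re (hT.ev_pos x)) m
  rw [dp_re hT, dp_re hT, dp_re hT, ← mul_div_assoc, ← mul_div_assoc, ← add_div]
  exact div_le_div_of_nonneg_right (cs_psd (hT.ev_pos x).inv.posSemidef _ _ hη) h0.le

theorem nr_low (hT : M.Met T) (x : M.X) : M.nr T m σ x - (sp M T m s σ x).re ≤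
    M.nr T m (σ - s) x + 4⁻¹ * M.nr T m σ x := by
  have h0 : 0 < (M.ev T x).det.re ^ m := pow_pos (pd_det_re (hT.ev_pos x)) m
  have h2 : M.ev (σ - s) x = M.ev σ x - M.ev s x := rfl
  have h3 : (sp M T m s σ x).re = (M.ev s x * star (M.ev σ x)).re / (M.ev T x).det.re ^ m := by
    rw [sp, ← herm_det (hT.ev_pos x).isHermitian, ← ofReal_pow, div_ofReal_re, ofReal_re]
  rw [h3, nr, nr, h2, ← mul_div_assoc, ← add_div, ← sub_div]
  refine div_le_div_of_nonneg_right ?_ h0.le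
  simp only [normSq_apply, sub_re, sub_im, mul_re, Complex.star_def, conj_re, conj_im]
  nlinarith [sq_nonneg ((M.ev σ x).re / 2 - (M.ev s x).re),
    sq_nonneg ((M.ev σ x).im / 2 - (M.ev s x).im)]

end W92

open W92 in
theorem st_WL2 (hSC : St_SC5) (hG : St_GRN2) : St_WL2 := by
  intro n M _ T w m σ s τ δ hK hw0 hσ hs hτ hδ heq hN hb hip
  have hint := fun F [NormedAddCommGroup F] (f : M.X → F) (hf : Continuous f) =>
    (mMU n M T hK.toMet).2.2.2.2.1 F f hf
  have hw : M.Sm fun x => (m : ℝ) * w x := hw0.const_mul (m : ℝ)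
  have hρ : Continuous fun x => Real.exp (-((m : ℝ) * w x)) := hw.neg.exp.continuous
  have hρ0 : ∀ x, 0 < Real.exp (-((m : ℝ) * w x)) := fun x => Real.exp_pos _
  have hd := (hSC n M T (m + 1) σ s hK.toMet hσ hs).1
  obtain ⟨-, -, -, cN, -, -, -, -, pN, -⟩ := hSC n M T (m + 1) _ _ hK.toMet hd hd
  obtain ⟨-, -, -, -, -, -, -, cD, -⟩ := hSC n M T (m + 1) s s hK.toMet hs hs
  obtain ⟨-, -, -, cS, -, -, -, cB, -⟩ := hSC n M T (m + 1) σ σ hK.toMet hσ hσ
  obtain ⟨-, -, -, -, -, cP, -, cA, pA, -⟩ := hSC n M T (m + 1) s σ hK.toMet hs hσ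
  have hL : ∀ x, M.ev (M.wbox T w m s) x = -(τ * M.ev (σ - s) x) := fun x => by
    have h1 : τ * M.ev s x - M.ev (M.wbox T w m s) x = τ * M.ev σ x := AllOn.ch heq x
    have h2 : M.ev (σ - s) x = M.ev σ x - M.ev s x := rfl
    rw [h2]
    linear_combination -h1
  have hI : ∀ f : M.X → ℝ, Continuous f →
      Integrable (fun x => f x * Real.exp (-((m : ℝ) * w x))) (M.mu T) :=
    fun f hf => hint ℝ _ (hf.mul hρ)
  have hJ : ∀ f : M.X → ℂ, Continuous f →
      Integrable (fun x => (f x).re * Real.exp (-((m : ℝ) * w x))) (M.mu T) :=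
    fun f hf => hint ℝ _ ((continuous_re.comp hf).mul hρ)
  have iD := hJ _ cD
  have iA := hJ _ cA
  have iB := hJ _ cB
  have iN := hI _ cN
  have iS := hI _ cS
  have iP := hJ _ cP
  have h1 : M.wn0 T w m (M.wbox T w m s) = τ ^ 2 * M.wn0 T w m (σ - s) := by
    rw [wn0, wn0, ← integral_const_mul]
    refine integral_congr_ae (Eventually.of_forall fun x => ?_)
    beta_reduce
    rw [nr, nr, hL, normSq_neg, map_mul, normSq_ofReal]
    ring
  have h2 : (M.wip T w m s σ).re =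
      ∫ x, (sp M T (m + 1) s σ x).re * Real.exp (-((m : ℝ) * w x)) ∂M.mu T := by
    have h6 := hint ℂ _ (cP.mul (continuous_ofReal.comp hρ))
    refine (integral_re h6).symm.trans (integral_congr_ae (Eventually.of_forall fun x => ?_))
    simp only [Pi.mul_apply, Function.comp_apply, RCLike.re_to_complex, re_mul_ofReal]
  have h3 := congrArg Complex.re (hG n M T (m + 1) _ s (σ - s) hK hw hs hd)
  have h4 : ∀ x, sp M T (m + 1) ((boxOp M T (m + 1) fun x => (m : ℝ) * w x).ap s) (σ - s) x *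
      (Real.exp (-((m : ℝ) * w x)) : ℝ) =
      ((-τ * (M.nr T (m + 1) (σ - s) x * Real.exp (-((m : ℝ) * w x))) : ℝ) : ℂ) := fun x => by
    have h5 := (pN x).2.1
    have h6 : M.ev ((boxOp M T (m + 1) fun x => (m : ℝ) * w x).ap s) x =
        -(τ * M.ev (σ - s) x) := hL x
    rw [sp] at h5
    rw [sp, h6, ofReal_mul, ofReal_mul, ← h5, ofReal_neg]
    ring
  have h5 : (∫ x, dp M T (m + 1) s (σ - s) x * (Real.exp (-((m : ℝ) * w x)) : ℝ) ∂M.mu T).re =
      ∫ x, (dp M T (m + 1) s σ x).re * Real.exp (-((m : ℝ) * w x)) ∂M.mu T - M.wn1 T w m s := by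
    have h6 : Integrable (fun x => dp M T (m + 1) s (σ - s) x *
        (Real.exp (-((m : ℝ) * w x)) : ℝ)) (M.mu T) := by
      refine (hint ℂ _ ((cA.sub cD).mul (continuous_ofReal.comp hρ))).congr
        (Eventually.of_forall fun x => ?_)
      beta_reduce
      rw [(pA x).2.2.2.2.2]
      rfl
    refine (integral_re h6).symm.trans ((integral_congr_ae (Eventually.of_forall fun x => ?_)).trans
      (integral_sub iA iD))
    simp only [(pA x).2.2.2.2.2, RCLike.re_to_complex, re_mul_ofReal, sub_re, sub_mul]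
  simp only [h4, integral_complex_ofReal, ofReal_re, integral_const_mul, neg_re, h5] at h3
  have h6 : ∀ η : ℝ, 0 < η →
      ∫ x, (dp M T (m + 1) s σ x).re * Real.exp (-((m : ℝ) * w x)) ∂M.mu T ≤
        η / 2 * M.wn1 T w m σ + (2 * η)⁻¹ * M.wn1 T w m s := fun η hη => by
    rw [wn1, wn1, ← integral_const_mul, ← integral_const_mul,
      ← integral_add (iB.const_mul _) (iD.const_mul _)]
    refine integral_mono iA ((iB.const_mul _).add (iD.const_mul _)) fun x => ?_
    have h7 := mul_le_mul_of_nonneg_right (dp_cs (m := m + 1) (s := s) (σ := σ) hK.toMet x hη)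
      (hρ0 x).le
    refine h7.trans_eq ?_
    ring
  have h7 : M.wn0 T w m σ - (M.wip T w m s σ).re ≤ M.wn0 T w m (σ - s) + 4⁻¹ * M.wn0 T w m σ := by
    rw [h2, wn0, wn0, ← integral_const_mul, ← integral_sub iS iP,
      ← integral_add iN (iS.const_mul _)]
    refine integral_mono (iS.sub iP) (iN.add (iS.const_mul _)) fun x => ?_
    have h8 := mul_le_mul_of_nonneg_right (nr_low (m := m + 1) (s := s) (σ := σ) hK.toMet x)
      (hρ0 x).le
    beta_reduce
    linarith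
  have h8 : 0 ≤ M.wn1 T w m s :=
    integral_nonneg fun x => mul_nonneg (pA x).2.2.1 (hρ0 x).le
  have h9 : τ * M.wn0 T w m (σ - s) + M.wn1 T w m s =
      ∫ x, (dp M T (m + 1) s σ x).re * Real.exp (-((m : ℝ) * w x)) ∂M.mu T := by
    have h10 : M.wn0 T w m (σ - s) =
        ∫ x, M.nr T (m + 1) (σ - s) x * Real.exp (-((m : ℝ) * w x)) ∂M.mu T := rfl
    rw [h10]
    linarith
  rw [h1]
  generalize M.wn0 T w m (σ - s) = D at *
  generalize M.wn1 T w m s = a at *
  have hD : M.wn0 T w m σ ≤ 4 * D := by linarith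
  have hD0 : 0 < D := by linarith
  have hb' : M.wn1 T w m σ ≤ δ * (4 * D) := hb.trans (mul_le_mul_of_nonneg_left hD hδ)
  rcases hδ.eq_or_lt with rfl | hδ'
  · exfalso
    have h10 := h6 1 one_pos
    have h11 := mul_pos hτ hD0
    rw [← h9] at h10
    norm_num at h10 hb'
    linarith
  · have hη : 0 < τ / (4 * δ) := by positivity
    have h10 := h6 _ hη
    rw [← h9] at h10
    have h11 : τ / (4 * δ) / 2 * M.wn1 T w m σ ≤ τ * D / 2 := by
      refine (mul_le_mul_of_nonneg_left hb' (half_pos hη).le).trans_eq ?_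
      field_simp
    have h12 : (2 * (τ / (4 * δ)))⁻¹ * a = 2 * δ * a / τ := by
      field_simp
      ring
    have h13 : τ * D / 2 ≤ 2 * δ * a / τ := by linarith
    rw [le_div_iff₀ hτ] at h13
    have h14 : τ ^ 2 * D ≤ 4 * δ * a := by nlinarith
    refine ⟨?_, h14⟩
    have h15 : 0 < 4 * δ * a := lt_of_lt_of_le (by positivity) h14
    exact (mul_pos_iff_of_pos_left (by positivity)).1 h15

end Pool.Agent.Lib.HW27
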