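import Pool.Agent.Lib.HW27.Blue
import Pool.Agent.Lib.HS32.MAll
import Pool.Agent.Lib.HS.B_SC5

/-! Project hw, part B: the mass of a Bessel family on a set, in a good chart. -/

open scoped Classical Topology ContDiff ComplexOrder Matrix Pointwise
open Set MeasureTheory Complex Metric Filter

noncomputable section

namespace Pool.Agent.Lib.HW27

open Pool.Agent.Lib.SV (E)
open Pool.Agent.Lib.HS32

namespace W28

variable {n : ℕ}

theorem dot_self (v : E n) : (star v ⬝ᵥ v).re = ∑ k, normSq (v k) := by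
  rw [dotProduct, re_sum]
  refine Finset.sum_congr rfl fun i _ => ?_
  rw [Pi.star_apply, star_def, ← normSq_eq_conj_mul_self, ofReal_re]

theorem nq_sub (A B : Mat n) (v : E n) : nq (A - B) v = nq A v - nq B v := by
  simp only [nq, Matrix.sub_mulVec, dotProduct_sub, sub_re]

theorem nq_neg (A : Mat n) (v : E n) : nq (-A) v = -nq A v := by
  simp only [nq, Matrix.neg_mulVec, dotProduct_neg, neg_re]

theorem nq_id (c : ℝ) (v : E n) : nq ((c : ℂ) • (1 : Mat n)) v = c * ∑ k, normSq (v k) := by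
  rw [nq, Matrix.smul_mulVec, Matrix.one_mulVec, dotProduct_smul, smul_eq_mul, re_ofReal_mul,
    dot_self]

theorem nq_nonneg {A : Mat n} (h : A.PosSemidef) (v : E n) : 0 ≤ nq A v :=
  h.re_dotProduct_nonneg v

theorem nq_bd {T : Mat n} (h : HS78.Bd 2 T) (v : E n) :
    ∑ k, normSq (v k) ≤ 2 * nq T v ∧ nq T v ≤ 2 * ∑ k, normSq (v k) := by
  have a := nq_nonneg h.1 v
  have b := nq_nonneg h.2 v
  rw [nq_sub, nq_id] at a b
  constructor <;> linarith

theorem det_lo {T : Mat n} (h : HS78.Bd 2 T) : 1 ≤ (n.factorial * 2 ^ n : ℝ) * T.det.re := by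
  have hp := h.posDef two_pos
  have a := Matrix.det_le (A := T⁻¹) (abv := IsAbsoluteValue.toAbsoluteValue (norm : ℂ → ℝ))
    (x := 2) ((h.inv two_pos).eb two_pos)
  rw [Fintype.card_fin, nsmul_eq_mul, Matrix.det_nonsing_inv, Ring.inverse_eq_inv',
    ← Mf.herm_det hp.1] at a
  have d := Mf.pd_det_re hp
  have e : ‖((T.det.re : ℝ) : ℂ)⁻¹‖ = (T.det.re)⁻¹ := by
    rw [norm_inv, norm_real, Real.norm_of_nonneg d.le]
  have a' : (T.det.re)⁻¹ ≤ n.factorial * 2 ^ n := e ▸ a
  rwa [inv_le_iff_one_le_mul₀ d] at a'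

theorem dual {T : Mat n} (hT : T.PosDef) (u : E n) :
    (star u ⬝ᵥ T⁻¹ *ᵥ u).re = nq T (T⁻¹ *ᵥ u) := by
  rw [nq, Matrix.mulVec_mulVec, Matrix.mul_nonsing_inv _ (Mf.pd_det_ne hT).isUnit,
    Matrix.one_mulVec, Matrix.star_dotProduct (T⁻¹ *ᵥ u), star_def, conj_re]

theorem wt {d w r c : ℝ} {m : ℕ} (hd : 0 < d) :
    d * (c / d ^ (m + 1) * Real.exp (-(m * w))) =
      c * Real.exp (-(2 * r)) * Real.exp (-(m * (Real.log d + w) - 2 * r)) := by
  have : Real.exp (-(2 * r)) * Real.exp (-(m * (Real.log d + w) - 2 * r)) =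
      Real.exp (-(m * w)) / d ^ m := by
    rw [eq_div_iff (by positivity), ← Real.exp_log (pow_pos hd m), ← Real.exp_add, ← Real.exp_add,
      Real.log_pow]
    congr 1
    ring
  rw [mul_assoc c, this, pow_succ]
  field_simp

theorem cmp {c Φ K : ℝ} (hc : 0 ≤ c) (h : |Φ| ≤ K) :
    c * Real.exp (-Φ) ≤ Real.exp K * c ∧ c ≤ Real.exp K * (c * Real.exp (-Φ)) := by
  constructor
  · rw [mul_comm]
    exact mul_le_mul_of_nonneg_right (Real.exp_le_exp.2 (by linarith [(abs_le.1 h).1])) hc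
  · rw [mul_left_comm, ← Real.exp_add]
    exact le_mul_of_one_le_right hc (Real.one_le_exp (by linarith [(abs_le.1 h).2]))

variable {M : Mf n} {m N : ℕ} {t : Fin N → M.Fam ℂ}

theorem sum_fun (a : Fin N → ℂ) (e : M.Ch) :
    (∑ i, a i • t i) e = fun z => ∑ i, a i * t i e z := by
  funext z
  simp only [Finset.sum_apply, Pi.smul_apply, smul_eq_mul]

theorem sec_sum (h : ∀ i, M.Sec m (t i)) (a : Fin N → ℂ) : M.Sec m (∑ i, a i • t i) where
  sm := fun e he z hz => by
    beta_reduce
    rw [sum_fun]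
    exact ContDiffAt.sum fun i _ => contDiffAt_const.mul ((h i).sm e he z hz)
  cmp := fun e he e' he' x hx hx' => by
    simp only [sum_fun, Finset.sum_mul]
    exact Finset.sum_congr rfl fun i _ => by rw [(h i).cmp e he e' he' x hx hx', mul_assoc]

theorem wdu_sum (T : M.Fam (Mat n)) (h : ∀ i, M.Sec m (t i)) (a : Fin N → ℂ) :
    M.All fun e z => ∀ k, M.wdu T (∑ i, a i • t i) e z k = ∑ i, a i * M.wdu T (t i) e z k := by
  intro e he z hz k
  have : HS.db M (∑ i, a i • t i) e z = ∑ i, a i • HS.db M (t i) e z := by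
    funext l
    rw [HS.db, sum_fun, dzb_sum fun i _ => (cd_diff ((h i).sm e he z hz)).const_mul _,
      Finset.sum_apply]
    exact Finset.sum_congr rfl fun i _ => dzb_const_mul _ (cd_diff ((h i).sm e he z hz))
  simp only [Mf.wdu, this, Matrix.mulVec_sum, Matrix.mulVec_smul, Finset.sum_apply, Pi.smul_apply,
    smul_eq_mul]

end W28

open W28 Mf in
theorem st_WLC (hEU : St_WEU) : St_WLC := by
  intro n
  obtain ⟨C, hC, hE⟩ := hEU n
  set K : ℝ := Real.exp (8 * n + 1) with hK
  have K0 : 0 < K := Real.exp_pos _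
  set D : ℝ := n.factorial * 2 ^ n with hD
  have D0 : 0 < D := by positivity
  refine ⟨2 * K * C * K * (1 + 2 * n * D), by positivity, ?_⟩
  intro M _ T w Ω m N s e t b B h hs hms ⟨he, hsub, hbd, p, hp, hq⟩ ht hB hb mB
  have hT := h.kae.toMet
  have cw : Continuous fun x => Real.exp (-(m * w x)) := (h.sm.continuous.const_mul _).neg.rexp
  have b1 : ball (0 : E n) (2 * s) ⊆ closedBall 0 (2 * s) := ball_subset_closedBall
  have b2 : ball (0 : E n) s ⊆ ball 0 (2 * s) := ball_subset_ball (by linarith)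
  have dp : ∀ z ∈ closedBall (0 : E n) (2 * s), 0 < (T e z).det.re := fun z hz =>
    pd_det_re (hT.pos e he z (hsub hz))
  have hp' : ∀ z, HolN (fun y => exp (-p y)) z := fun z =>
    Eventually.of_forall fun y => (hp y).neg.cexp
  have sp : ∀ z, ContDiffAt ℝ ∞ (fun y => exp (-p y)) z := fun z => ((mHOL n _ z).2.2 (hp' z)).1
  have ne : ∀ z, normSq (exp (-p z)) = Real.exp (-(2 * (p z).re)) := fun z => by
    rw [normSq_eq_norm_sq, norm_exp, ← Real.exp_nat_mul, Nat.cast_ofNat, neg_re, mul_neg]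
  have hΦ : ∀ z ∈ closedBall (0 : E n) (2 * s),
      |m * (Real.log (T e z).det.re + w (e.symm z)) - 2 * (p z).re| ≤ 8 * n + 1 := by
    intro z hz
    have z0 : (0 : E n) ∈ closedBall (0 : E n) (2 * s) := mem_closedBall_self (by positivity)
    have a1 := nq_nonneg (h.lo e he 0 (hsub z0)) z
    have a2 := nq_nonneg (h.hi e he 0 (hsub z0)) z
    simp only [Pi.neg_apply, nq_sub, nq_neg] at a1 a2
    have a3 := (nq_bd (hbd 0 z0) z).2
    have a4 : ∑ k, normSq (z k) ≤ n * (2 * s) ^ 2 := by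
      refine (Finset.sum_le_card_nsmul _ _ ((2 * s) ^ 2) fun i _ => ?_).trans_eq (by simp)
      rw [normSq_eq_norm_sq]
      exact pow_le_pow_left₀ (norm_nonneg _)
        ((norm_le_pi_norm z i).trans (mem_closedBall_zero_iff.1 hz)) 2
    have a5 : m * nq (T e 0) z ≤ 8 * n := by
      have := mul_le_mul_of_nonneg_left (a3.trans (mul_le_mul_of_nonneg_left a4 two_pos.le))
        (m.cast_nonneg (α := ℝ))
      nlinarith [mul_le_mul_of_nonneg_left hms (n.cast_nonneg (α := ℝ))]
    have a6 := mul_nonneg (m.cast_nonneg (α := ℝ)) a1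
    have a7 := mul_nonneg (m.cast_nonneg (α := ℝ)) a2
    have a8 := abs_le.1 (hq z hz)
    rw [abs_le]
    constructor <;> nlinarith [a8.1, a8.2]
  have ci : ∀ f : M.X → ℝ, Continuous f → IntegrableOn
      (fun z => (T e z).det.re * f (e.symm z)) (closedBall 0 (2 * s)) := fun f hf =>
    ContinuousOn.integrableOn_compact (isCompact_closedBall _ _) fun z hz =>
      ((cd_re (hT.sm e he z (hsub hz)).det).continuousAt.mul
        (hf.continuousAt.comp (e.continuousAt_symm (hsub hz)))).continuousWithinAt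
  have cF : ∀ {σ}, M.Sec (m + 1) σ → ∀ k, ∀ z ∈ closedBall (0 : E n) (2 * s),
      ContDiffAt ℝ ∞ (fun y => M.wdu T σ e y k * exp (-p y)) z := fun hσ k z hz =>
    (contDiffAt_pi.1 (HS.sc5_cw hT hσ e he z (hsub hz)) k).mul (sp z)
  have iF : ∀ f : E n → ℂ, (∀ z ∈ closedBall (0 : E n) (2 * s), ContDiffAt ℝ ∞ f z) →
      IntegrableOn (fun z => normSq (f z)) (closedBall 0 (2 * s)) := fun f hf =>
    ContinuousOn.integrableOn_compact (isCompact_closedBall _ _) fun z hz =>
      (continuous_normSq.continuousAt.comp (hf z hz).continuousAt).continuousWithinAt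
  have key : ∀ {σ}, M.Sec (m + 1) σ →
      Continuous (fun x => (HS.dp M T (m + 1) σ σ x).re * Real.exp (-(m * w x))) ∧
      (∀ x, 0 ≤ (HS.dp M T (m + 1) σ σ x).re * Real.exp (-(m * w x))) ∧
      ∀ z ∈ closedBall (0 : E n) (2 * s),
        (T e z).det.re * ((HS.dp M T (m + 1) σ σ (e.symm z)).re *
          Real.exp (-(m * w (e.symm z)))) ≤
            2 * K * ∑ k, normSq (M.wdu T σ e z k * exp (-p z)) ∧
        ∑ k, normSq (M.wdu T σ e z k * exp (-p z)) ≤ 2 * K * ((T e z).det.re *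
          ((HS.dp M T (m + 1) σ σ (e.symm z)).re * Real.exp (-(m * w (e.symm z))))) := by
    intro σ hσ
    obtain ⟨-, -, -, -, -, -, r1, c1, n1, -⟩ := HS.st_SC5 mTR mCHN mHOL n M T (m + 1) σ σ hT hσ hσ
    refine ⟨(continuous_re.comp c1).mul cw, fun x => mul_nonneg (n1 x).2.2.1 (Real.exp_pos _).le,
      fun z hz => ?_⟩
    have e1 : (HS.dp M T (m + 1) σ σ (e.symm z)).re =
        nq (T e z) (M.wdu T σ e z) / (T e z).det.re ^ (m + 1) := by
      refine (congrArg re (r1 e he z (hsub hz))).trans ?_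
      simp only
      rw [(HS.sc5_re (hT.pos e he z (hsub hz)) _).1, dual (hT.pos e he z (hsub hz))]
      rfl
    have q := nq_bd (hbd z hz) (M.wdu T σ e z)
    have q0 := nq_nonneg (hT.pos e he z (hsub hz)).posSemidef (M.wdu T σ e z)
    have x0 := Real.exp_pos (-(2 * (p z).re))
    have c := cmp (mul_nonneg q0 x0.le) (hΦ z hz)
    simp only [normSq_mul, ne, ← Finset.sum_mul]
    rw [e1, wt (r := (p z).re) (dp z hz)]
    rw [← hK] at c
    constructor
    · refine c.1.trans ?_
      nlinarith [mul_le_mul_of_nonneg_left (mul_le_mul_of_nonneg_right q.2 x0.le) K0.le]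
    · nlinarith [mul_le_mul_of_nonneg_right q.1 x0.le, c.2]
  have mB' : MeasurableSet (ball (0 : E n) s ∩ e.symm ⁻¹' B) := by
    have := MeasurableSet.subtype_image (measurableSet_ball (x := (0 : E n)) (ε := s))
      ((e.continuousOn_symm.mono ((b2.trans b1).trans hsub)).domRestrict.measurable mB)
    rwa [show (ball (0 : E n) s).domRestrict e.symm ⁻¹' B = (↑) ⁻¹' (e.symm ⁻¹' B) from rfl,
      Subtype.image_preimage_coe] at this
  have b3 : ball (0 : E n) s ∩ e.symm ⁻¹' B ⊆ closedBall 0 (2 * s) :=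
    inter_subset_left.trans (b2.trans b1)
  obtain ⟨-, -, -, -, iM, hM, -⟩ := mMU n M T hT
  obtain ⟨-, -, i1, -⟩ := hM e he _ mB' (b3.trans hsub)
  obtain ⟨-, -, i2, -⟩ := hM e he _ measurableSet_ball (b1.trans hsub)
  rw [inter_comm B, ← image_inter_preimage]
  have hW := fun k => hE s (2 * K) N (fun i z => M.wdu T (t i) e z k * exp (-p z)) _ hs
    (by positivity) (fun i => cF (ht i) k) (fun a => by
      obtain ⟨k1, k2, k3⟩ := key (sec_sum ht a)
      refine le_trans ?_ (mul_le_mul_of_nonneg_left (hB a) (by positivity))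
      refine le_trans ?_ (mul_le_mul_of_nonneg_left (setIntegral_le_integral
        (s := e.symm '' ball 0 (2 * s)) (iM ℝ _ k1) (ae_of_all _ k2)) (by positivity))
      rw [i2, ← integral_const_mul]
      refine integral_mono_of_nonneg (ae_of_all _ fun z => normSq_nonneg _)
        (((ci _ k1).mono_set b1).const_mul _)
        ((ae_restrict_iff' measurableSet_ball).2 (ae_of_all _ fun z hz => ?_))
      refine le_trans ?_ (k3 z (b1 hz)).2
      refine le_of_eq_of_le ?_ (Finset.single_le_sum (f := fun k =>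
        normSq (M.wdu T (∑ i, a i • t i) e z k * exp (-p z))) (fun _ _ => normSq_nonneg _)
        (Finset.mem_univ k))
      simp only [wdu_sum T ht a e he z (hsub (b1 hz)) k, Finset.sum_mul, mul_assoc])
    mB' inter_subset_left
  have u1 : ∀ i, ∫ x in e.symm '' (ball 0 s ∩ e.symm ⁻¹' B),
      (HS.dp M T (m + 1) (t i) (t i) x).re * Real.exp (-(m * w x)) ∂M.mu T ≤
      2 * K * ∑ k, ∫ z in ball (0 : E n) s ∩ e.symm ⁻¹' B,
        normSq (M.wdu T (t i) e z k * exp (-p z)) := fun i => by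
    obtain ⟨k1, -, k3⟩ := key (ht i)
    have j := fun k => (iF _ (cF (ht i) k)).mono_set b3
    rw [i1, ← integral_finsetSum _ fun k _ => j k, ← integral_const_mul]
    exact setIntegral_mono_on ((ci _ k1).mono_set b3)
      ((integrable_finsetSum _ fun k _ => j k).const_mul _) mB' fun z hz => (k3 z (b3 hz)).1
  have u2 : ∀ i, ∑ k, ∫ z in ball (0 : E n) (2 * s),
      ∑ l, normSq (dzb l (fun y => M.wdu T (t i) e y k * exp (-p y)) z) ≤
      K * ∫ x in e.symm '' ball 0 (2 * s), b i x * Real.exp (-(m * w x)) ∂M.mu T := fun i => by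
    have j := fun k => integrable_finsetSum Finset.univ fun l _ =>
      (iF _ fun z hz => cd_dzb (cF (ht i) k z hz) l).mono_set b1
    rw [i2, ← integral_finsetSum _ fun k _ => j k, ← integral_const_mul]
    refine setIntegral_mono_on (integrable_finsetSum _ fun k _ => j k)
      (((ci _ ((hb i).1.mul cw)).mono_set b1).const_mul _) measurableSet_ball fun z hz => ?_
    have e1 : ∀ k l, dzb l (fun y => M.wdu T (t i) e y k * exp (-p y)) z =
        dzb l (fun y => M.wdu T (t i) e y k) z * exp (-p z) := fun k l => by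
      rw [dzb_mul (f := fun y => M.wdu T (t i) e y k)
        (cd_diff (contDiffAt_pi.1 (HS.sc5_cw hT (ht i) e he z (hsub (b1 hz))) k))
        (cd_diff (sp z)), ((mHOL n _ z).1 (cd_diff (sp z))).1 (hp z).neg.cexp l, mul_zero,
        add_zero]
    simp only [e1, normSq_mul, ne, ← Finset.sum_mul]
    have c := (cmp (c := (∑ k, ∑ l, normSq (dzb l (fun y => M.wdu T (t i) e y k) z)) *
      Real.exp (-(2 * (p z).re))) (mul_nonneg (Finset.sum_nonneg fun _ _ =>
        Finset.sum_nonneg fun _ _ => normSq_nonneg _) (Real.exp_pos _).le) (hΦ z (b1 hz))).2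
    rw [← wt (dp z (b1 hz))] at c
    exact c.trans (mul_le_mul_of_nonneg_left (mul_le_mul_of_nonneg_left
      (mul_le_mul_of_nonneg_right ((hb i).2 z hz) (Real.exp_pos _).le) (dp z (b1 hz)).le) K0.le)
  have u3 : volume.real (ball (0 : E n) s ∩ e.symm ⁻¹' B) ≤
      D * (M.mu T).real (e.symm '' (ball 0 s ∩ e.symm ⁻¹' B)) := by
    have a := i1 fun _ => 1
    rw [setIntegral_one_eq_measureReal] at a
    rw [a, ← integral_const_mul, ← setIntegral_one_eq_measureReal]
    refine integral_mono_of_nonneg (ae_of_all _ fun _ => zero_le_one)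
      (((ci _ continuous_const).mono_set b3).const_mul _)
      ((ae_restrict_iff' mB').2 (ae_of_all _ fun z hz => ?_))
    simpa only [mul_one] using det_lo (hbd z (b3 hz))
  set V := (M.mu T).real (e.symm '' (ball 0 s ∩ e.symm ⁻¹' B)) with hV
  have V0 : 0 ≤ V / s ^ (2 * n) := div_nonneg measureReal_nonneg (by positivity)
  have u4 := Finset.sum_le_sum fun i (_ : i ∈ Finset.univ) => u2 i
  rw [← Finset.mul_sum, Finset.sum_comm] at u4
  set Y := ∑ i, ∫ x in e.symm '' ball 0 (2 * s), b i x * Real.exp (-(m * w x)) ∂M.mu T with hY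
  have Y0 : 0 ≤ Y := nonneg_of_mul_nonneg_right (le_trans (Finset.sum_nonneg fun _ _ =>
    Finset.sum_nonneg fun _ _ => integral_nonneg fun _ =>
      Finset.sum_nonneg fun _ _ => normSq_nonneg _) u4) K0
  have u5 := Finset.sum_le_sum fun k (_ : k ∈ Finset.univ) => hW k
  rw [Finset.sum_add_distrib, ← Finset.mul_sum, ← Finset.mul_sum, Finset.sum_const,
    Finset.card_univ, Fintype.card_fin, nsmul_eq_mul] at u5
  have u6 : 2 * K * volume.real (ball (0 : E n) s ∩ e.symm ⁻¹' B) / s ^ (2 * n) ≤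
      2 * K * D * (V / s ^ (2 * n)) := by
    rw [← mul_div_assoc, mul_assoc _ D]
    exact div_le_div_of_nonneg_right (mul_le_mul_of_nonneg_left u3 (by positivity))
      (by positivity)
  refine (Finset.sum_le_sum fun i _ => u1 i).trans ?_
  rw [← Finset.mul_sum, Finset.sum_comm]
  refine (mul_le_mul_of_nonneg_left (u5.trans (add_le_add
    (mul_le_mul_of_nonneg_left (mul_le_mul_of_nonneg_left u4 (sq_nonneg s)) hC.le)
    (mul_le_mul_of_nonneg_left (mul_le_mul_of_nonneg_left u6 hC.le) n.cast_nonneg)))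
    (by positivity)).trans ?_
  have f1 : 0 ≤ 2 * K * C * K * (2 * n * D) * (s ^ 2 * Y) := by positivity
  have f2 : 0 ≤ 2 * K * C * K * (V / s ^ (2 * n)) := by positivity
  nlinarith

end Pool.Agent.Lib.HW27
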