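import Pool.Agent.Lib.HW27.Kit
import Pool.Agent.Lib.HS76.Diag

/-! Project hw, part B: the rank of the projection on holomorphic sections. -/

open scoped Classical Topology ContDiff ComplexOrder Matrix
open Set MeasureTheory Complex Metric Filter

noncomputable section

namespace Pool.Agent.Lib.HW27

open Pool.Agent.Lib.SV (E)
open Pool.Agent.Lib.HS32 Pool.Agent.Lib.HS32.Mf
open Pool.Agent.Lib.HS (db sp dp)

namespace L27

theorem form_eq {J : Type} [Fintype J] (g : J → J → ℂ) (c : J → ℂ) :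
    star c ⬝ᵥ (Matrix.of fun k l => g l k) *ᵥ c = ∑ i, ∑ j, c i * star (c j) * g i j := by
  simp only [dotProduct, Matrix.mulVec, Matrix.of_apply, Finset.mul_sum, Pi.star_apply]
  exact Finset.sum_comm.trans (Finset.sum_congr rfl fun i _ => Finset.sum_congr rfl
    fun j _ => by ring)

/-- Orthonormalisation. -/
theorem ortho {N : ℕ} (g : Fin N → Fin N → ℂ) (h1 : ∀ i j, star (g i j) = g j i)
    (h2 : ∀ c : Fin N → ℂ, c ≠ 0 → 0 < (∑ i, ∑ j, c i * star (c j) * g i j).re) :
    ∃ W : Matrix (Fin N) (Fin N) ℂ, ∀ a : Fin N → ℂ,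
      ∑ i, ∑ j, (W *ᵥ a) i * star ((W *ᵥ a) j) * g i j = (∑ i, normSq (a i) : ℝ) := by
  have hh : (Matrix.of fun k l => g l k).IsHermitian := by
    ext i j
    exact h1 i j
  have hp : (Matrix.of fun k l => g l k).PosDef := by
    refine Matrix.PosDef.of_dotProduct_mulVec_pos hh fun c hc => ?_
    refine Complex.pos_iff.2 ⟨?_, (hh.im_star_dotProduct_mulVec_self c).symm⟩
    rw [form_eq]
    exact h2 c hc
  obtain ⟨W, -, hW, -⟩ := HS76.simul_diag hp Matrix.isHermitian_zero
  refine ⟨W, fun a => ?_⟩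
  rw [← form_eq, Matrix.star_mulVec, ← Matrix.dotProduct_mulVec, Matrix.mulVec_mulVec,
    Matrix.mulVec_mulVec, hW, Matrix.one_mulVec, ofReal_sum]
  exact Finset.sum_congr rfl fun i _ => by rw [normSq_eq_conj_mul_self]; rfl

theorem small {J : Type} [Fintype J] (d : J → J → ℂ) {η : ℝ} (h : ∀ i j, ‖d i j‖ ≤ η)
    (a : J → ℂ) : (∑ i, ∑ j, a i * star (a j) * d i j).re ≤
      Fintype.card J * η * ∑ i, normSq (a i) := by
  have h1 : ∀ i j, ‖a i * star (a j) * d i j‖ ≤ η / 2 * normSq (a i) + η / 2 * normSq (a j) :=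
    fun i j => by
      have h0 : 0 ≤ η := (norm_nonneg _).trans (h i j)
      rw [norm_mul, norm_mul, norm_star, normSq_eq_norm_sq, normSq_eq_norm_sq]
      have h2 := mul_le_mul_of_nonneg_left (h i j)
        (mul_nonneg (norm_nonneg (a i)) (norm_nonneg (a j)))
      nlinarith [mul_nonneg h0 (sq_nonneg (‖a i‖ - ‖a j‖))]
  refine (re_le_norm _).trans ((norm_sum_le _ _).trans ((Finset.sum_le_sum fun i _ =>
    (norm_sum_le _ _).trans (Finset.sum_le_sum fun j _ => h1 i j)).trans_eq ?_))
  simp only [Finset.sum_add_distrib, Finset.sum_const, Finset.card_univ, nsmul_eq_mul,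
    ← Finset.mul_sum]
  ring

theorem comb {J K V : Type} [Fintype J] [Fintype K] [AddCommGroup V] [Module ℂ V] (c : K → ℂ)
    (v : K → J → ℂ) (s : J → V) :
    ∑ k, c k • ∑ i, v k i • s i = ∑ i, (∑ k, c k • v k) i • s i := by
  simp only [Finset.smul_sum, Finset.sum_apply, Finset.sum_smul, Pi.smul_apply, smul_smul,
    smul_eq_mul]
  exact Finset.sum_comm

end L27

open L27 in
theorem st_WLI (hL1 : St_WL1) (hL2 : St_WL2) : St_WLI := by
  intro n M _ T w m β J _ σ hT hw hσ hn hβ
  have hm := hT.toMet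
  let l : Ultrafilter ℝ := Ultrafilter.of (𝓝[>] 0)
  have hl : (l : Filter ℝ) ≤ 𝓝[>] 0 := Ultrafilter.of_le _
  choose s s₀ h1 h2 h3 using fun i => hL1 n M T w m (σ i) l hT hw (hσ i) hl
  let P : (J → ℂ) →ₗ[ℂ] M.X → ℂ := Fintype.linearCombination ℂ fun i => M.ev (s₀ i)
  have hP : ∀ a, P a = M.ev (∑ i, a i • s₀ i) := fun a => by
    funext x
    simp only [P, Fintype.linearCombination_apply, ev_sum, Finset.sum_apply, Pi.smul_apply,
      smul_eq_mul]
  have rk := P.finrank_range_add_finrank_ker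
  rw [Module.finrank_fintype_fun_eq_card] at rk
  have hc : (0 : ℝ) < Fintype.card J + 1 := by positivity
  obtain ⟨τ, hτ, hd⟩ : ∃ τ : ℝ, 0 < τ ∧ ∀ i j,
      ‖M.wip T w m (s i τ) (σ j) - M.wip T w m (s₀ i) (σ j)‖ ≤ 1 / 2 / (Fintype.card J + 1) := by
    refine Eventually.exists (f := (l : Filter ℝ)) (Eventually.and (hl self_mem_nhdsWithin)
      (eventually_all.2 fun i => eventually_all.2 fun j => ?_))
    have := (h3 i (σ j) (hσ j)).eventually (closedBall_mem_nhds _
      (show (0 : ℝ) < 1 / 2 / (Fintype.card J + 1) by positivity))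
    exact this.mono fun τ h => by rwa [dist_eq_norm] at h
  have hs : ∀ i, M.Sec (m + 1) (s i τ) := fun i => (h1 i τ hτ).1
  have key : ∀ a : J → ℂ, P a = 0 → a ≠ 0 → 0 < M.wn1 T w m (∑ i, a i • s i τ) ∧
      M.wn0 T w m (M.wbox T w m (∑ i, a i • s i τ)) ≤
        4 * (m / 64) * M.wn1 T w m (∑ i, a i • s i τ) := fun a ha h0 => by
    obtain ⟨a1, a2⟩ := hn a
    have a3 : 0 < ∑ i, normSq (a i) := by
      obtain ⟨i, hi⟩ := Function.ne_iff.1 h0
      exact Finset.sum_pos' (fun _ _ => normSq_nonneg _) ⟨i, Finset.mem_univ _, normSq_pos.2 hi⟩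
    refine hL2 n M T w m _ _ τ _ hT hw (sec_sum hσ a) (sec_sum hs a) hτ (by positivity)
      (fun e he z hz => ?_) (a1 ▸ a3) (a1 ▸ a2) ?_
    · beta_reduce
      rw [wbox_sum hs a he hz, sum_fun, sum_fun, Finset.mul_sum, Finset.mul_sum,
        ← Finset.sum_sub_distrib]
      refine Finset.sum_congr rfl fun i _ => ?_
      linear_combination a i * (h1 i τ hτ).2 e he z hz
    · have b1 : M.wip T w m (∑ i, a i • s₀ i) (∑ i, a i • σ i) = 0 := by
        rw [hP] at ha
        simp only [Mf.wip, sp, ha, Pi.zero_apply, zero_mul, zero_div, integral_zero]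
      have b2 := small _ hd a
      rw [wip_sum hm hw (fun i => (h2 i).toSec) hσ] at b1
      simp only [mul_sub, Finset.sum_sub_distrib, b1, sub_zero] at b2
      rw [wip_sum hm hw hs hσ, a1]
      refine b2.trans ?_
      have b3 : (Fintype.card J : ℝ) * (1 / 2 / (Fintype.card J + 1)) ≤ 1 / 2 := by
        rw [← mul_div_assoc, div_le_iff₀ hc]
        linarith
      nlinarith
  let v := Module.finBasis ℂ (LinearMap.ker P)
  let u : Fin _ → M.Fam ℂ := fun k => ∑ i, (v k : J → ℂ) i • s i τ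
  have hu : ∀ k, M.Sec (m + 1) (u k) := fun k => sec_sum hs _
  have key2 : ∀ c : Fin _ → ℂ, c ≠ 0 → 0 < M.wn1 T w m (∑ k, c k • u k) ∧
      M.wn0 T w m (M.wbox T w m (∑ k, c k • u k)) ≤
        4 * (m / 64) * M.wn1 T w m (∑ k, c k • u k) := fun c h0 => by
    have e : ∑ k, c k • (v k : J → ℂ) = (∑ k, c k • v k : LinearMap.ker P) := by simp
    rw [comb, e]
    refine key _ (Subtype.prop (p := fun a => a ∈ LinearMap.ker P) _) fun h => h0 ?_
    exact funext (Fintype.linearIndependent_iff.1 v.linearIndependent c (Subtype.ext h))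
  have wd : ∀ c : Fin _ → ℂ, ∑ i, ∑ j, c i * star (c j) * wdp M T w m (u i) (u j) =
      M.wn1 T w m (∑ k, c k • u k) := fun c => by
    rw [← wdp_sum hm hw hu hu, wdp_self hm (sec_sum hu c)]
  obtain ⟨W, hW⟩ := ortho (fun i j => wdp M T w m (u i) (u j)) (fun i j => wdp_star hm _ _)
    fun c h0 => by rw [wd, ofReal_re]; exact (key2 c h0).1
  have on : ∀ a, M.wn1 T w m (∑ k, (W *ᵥ a) k • u k) = ∑ i, normSq (a i) := fun a =>
    ofReal_injective ((wd _).symm.trans (hW a))
  have one : ∀ k, M.wn1 T w m (∑ l, W l k • u l) = 1 := fun k => by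
    have := on (Pi.single k 1)
    rw [Matrix.mulVec_single_one] at this
    refine this.trans ((Finset.sum_eq_single k (fun b _ hb => by simp [hb]) (by simp)).trans ?_)
    simp
  have hb := hβ _ (fun k => ∑ l, W l k • u l) (fun k => sec_sum hu _) (fun a => by
    rw [comb, ← on a]
    congr 3
    funext k
    congr 1
    simp only [Finset.sum_apply, Pi.smul_apply, smul_eq_mul, Matrix.mulVec, dotProduct, mul_comm])
    fun k => by
      have h0 : (fun l => W l k) ≠ 0 := fun h => by
        have := one k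
        simp only [fun l => congrFun h l, Pi.zero_apply, zero_smul, Finset.sum_const_zero] at this
        have z := on 0
        simp only [Matrix.mulVec_zero, Pi.zero_apply, zero_smul, Finset.sum_const_zero,
          map_zero] at z
        linarith
      have := (key2 _ h0).2
      rw [one] at this
      linarith
  let b := Module.finBasis ℂ (LinearMap.range P)
  choose a ha using fun k => (b k).2
  refine ⟨_, ?_, fun k => ∑ i, a k i • s₀ i, fun k => hsec_sum h2 _, ?_⟩
  · rw [← rk]
    push_cast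
    linarith
  · simp only [← hP, ha]
    exact b.linearIndependent.map' (LinearMap.range P).subtype (Submodule.ker_subtype _)

end Pool.Agent.Lib.HW27
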