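import Pool.Agent.Lib.HW27.Blue
import Pool.Agent.Lib.HS.B_SC5
import Pool.Agent.Lib.HS32.MAll

/-! Project hw: the dimension of a space of forms of low energy. -/

open scoped Classical Topology ComplexOrder Matrix
open Set MeasureTheory Complex Metric Filter

noncomputable section

namespace Pool.Agent.Lib.HW27

open Pool.Agent.Lib.SV (E)
open Pool.Agent.Lib.HS32 Pool.Agent.Lib.HS32.Mf

namespace W86

variable {X J : Type} [MeasurableSpace X] {μ : Measure X} [Fintype J] {S : J → Set X} {f : X → ℝ}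

lemma sum_int (hf : Integrable f μ) (hS : ∀ j, MeasurableSet (S j)) :
    Integrable (fun x => ((Finset.univ.filter fun j => x ∈ S j).card : ℝ) * f x) μ ∧
    ∑ j, ∫ x in S j, f x ∂μ =
      ∫ x, ((Finset.univ.filter fun j => x ∈ S j).card : ℝ) * f x ∂μ := by
  have e : ∀ x, ((Finset.univ.filter fun j => x ∈ S j).card : ℝ) * f x =
      ∑ j, (S j).indicator f x := fun x => by
    simp only [indicator_apply, ← Finset.sum_filter, Finset.sum_const, nsmul_eq_mul]
  simp only [e]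
  refine ⟨integrable_finsetSum _ fun j _ => hf.indicator (hS j), ?_⟩
  rw [integral_finsetSum _ fun j _ => hf.indicator (hS j)]
  simp only [integral_indicator (hS _)]

lemma sum_le (hf : Integrable f μ) (h0 : ∀ x, 0 ≤ f x) (hS : ∀ j, MeasurableSet (S j)) {D : ℕ}
    (hD : ∀ x, (Finset.univ.filter fun j => x ∈ S j).card ≤ D) :
    ∑ j, ∫ x in S j, f x ∂μ ≤ D * ∫ x, f x ∂μ := by
  rw [(sum_int hf hS).2, ← integral_const_mul]
  exact integral_mono (sum_int hf hS).1 (hf.const_mul _) fun x =>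
    mul_le_mul_of_nonneg_right (Nat.cast_le.2 (hD x)) (h0 x)

lemma le_sum (hf : Integrable f μ) (h0 : ∀ x, 0 ≤ f x) (hS : ∀ j, MeasurableSet (S j))
    (hD : ∀ x, ∃ j, x ∈ S j) : ∫ x, f x ∂μ ≤ ∑ j, ∫ x in S j, f x ∂μ := by
  rw [(sum_int hf hS).2]
  exact integral_mono hf (sum_int hf hS).1 fun x => le_mul_of_one_le_left (h0 x)
    (Nat.one_le_cast.2 (Finset.card_pos.2 ((hD x).imp fun j h => by simpa using h)))

variable {n : ℕ}

lemma nq_le {A B : Mat n} (c : ℝ) (h : (B - c • A).PosSemidef) (v : E n) : c * nq A v ≤ nq B v := by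
  have := h.re_dotProduct_nonneg v
  rw [Matrix.sub_mulVec, dotProduct_sub, Matrix.smul_mulVec, dotProduct_smul] at this
  simpa [nq] using this

variable {M : Mf n} {T θ : M.Fam (Mat n)} {m : ℕ} {s : M.Fam ℂ} {x : M.X}

lemma wq_ge (hT : M.Met T) (c : ℝ) {a : ℝ} (ha : 0 ≤ a) (h : (M.ev θ x - c • M.ev T x).PosSemidef) :
    a * c * (HS.dp M T m s s x).re ≤ HS.wq M T m (a • θ) s x := by
  have p := hT.ev_pos x
  have e : nq (M.ev T x) ((M.ev T x)⁻¹ *ᵥ M.ev (HS.db M s) x) =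
      (star (M.ev (HS.db M s) x) ⬝ᵥ (M.ev T x)⁻¹ *ᵥ M.ev (HS.db M s) x).re := by
    rw [nq, Matrix.mulVec_mulVec, Matrix.mul_nonsing_inv _ (hT.ev_det x).isUnit, Matrix.one_mulVec,
      Matrix.star_mulVec, p.inv.1.eq, Matrix.dotProduct_mulVec]
  have d : (M.ev T x).det = ((M.ev T x).det.re : ℂ) :=
    Complex.ext rfl (Complex.pos_iff.1 p.det_pos).2.symm
  have k := nq_le c h ((M.ev T x)⁻¹ *ᵥ M.ev (HS.db M s) x)
  have k2 := nq_le (A := M.ev θ x) (B := M.ev (a • θ) x) a (by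
    rw [show M.ev (a • θ) x = a • M.ev θ x from rfl, sub_self]
    exact Matrix.PosSemidef.zero) ((M.ev T x)⁻¹ *ᵥ M.ev (HS.db M s) x)
  rw [HS.dp, HS.wq, d, ← ofReal_pow, div_ofReal_re, ← e, ofReal_re, ← mul_div_assoc, mul_assoc]
  exact div_le_div_of_nonneg_right ((mul_le_mul_of_nonneg_left k ha).trans k2)
    (pow_pos (pd_det_re p) m).le

end W86

open W86 in
theorem st_WLO (hN2 : St_WN2) (hSI : St_WSI) (hLC : St_WLC) : St_WLO := by
  intro n M _
  obtain ⟨D, hD⟩ := hN2 n M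
  obtain ⟨C₁, c1, h1⟩ := hSI n
  obtain ⟨C₂, c2, h2⟩ := hLC n
  obtain ⟨R, R0, R1, R2⟩ : ∃ R : ℝ, 0 < R ∧ R ≤ 1 ∧ R * (16 * (C₂ * C₁ * D) + 1) ≤ 1 :=
    ⟨(16 * (C₂ * C₁ * D) + 1)⁻¹, by positivity, inv_le_one_of_one_le₀ (le_add_of_nonneg_left
      (by positivity)), (inv_mul_cancel₀ (by positivity)).le⟩
  refine ⟨6 * (C₂ * (D + 1) / R ^ (2 * n)), by positivity, fun T w Ω h => ?_⟩
  have hT := h.kae.toMet
  obtain ⟨-, hf, -, -, hi, hc, -⟩ := mMU n M T hT
  filter_upwards [hD T w R hT h.sm R0, eventually_ge_atTop 1] with m ⟨J, _, e, a1, a2, a3⟩ m1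
    N t ht hw hb
  have m0 : (0 : ℝ) < m := by exact_mod_cast m1
  obtain ⟨s, hs⟩ : ∃ s, s = R / √m := ⟨_, rfl⟩
  rw [← hs] at a1 a2 a3
  have s0 : 0 < s := by rw [hs]; positivity
  have s2 : m * s ^ 2 = R ^ 2 := by rw [hs, div_pow, Real.sq_sqrt m0.le]; field_simp
  choose b b1 b2 b3 b4 using fun i => h1 M T w m (t i) h.kae h.sm (ht i)
  have sc := fun i => HS.st_SC5 mTR mCHN mHOL n M T (m + 1) _ _ hT (ht i) (ht i)
  have ce : Continuous fun x => Real.exp (-(m * w x)) := (h.sm.const_mul _).neg.exp.continuous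
  obtain ⟨p, hp⟩ : ∃ p : Fin N → M.X → ℝ, p = fun i x =>
    (HS.dp M T (m + 1) (t i) (t i) x).re * Real.exp (-(m * w x)) := ⟨_, rfl⟩
  obtain ⟨q, hq⟩ : ∃ q : Fin N → M.X → ℝ, q = fun i x => b i x * Real.exp (-(m * w x)) := ⟨_, rfl⟩
  have ip : ∀ i, Integrable (p i) (M.mu T) := fun i =>
    hp ▸ hi ℝ _ ((continuous_re.comp (sc i).2.2.2.2.2.2.2.1).mul ce)
  have iq : ∀ i, Integrable (q i) (M.mu T) := fun i => hq ▸ hi ℝ _ ((b1 i).mul ce)
  have p0 : ∀ i x, 0 ≤ p i x := fun i x =>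
    hp ▸ mul_nonneg ((sc i).2.2.2.2.2.2.2.2.1 x).2.2.1 (Real.exp_pos _).le
  have q0 : ∀ i x, 0 ≤ q i x := fun i x => hq ▸ mul_nonneg (b2 i x) (Real.exp_pos _).le
  have mB := h.cl.measurableSet.compl
  have p1 : ∀ i, ∫ x, p i x ∂M.mu T = 1 := fun i => by
    have := hw (Pi.single i 1)
    simp only [Pi.single_apply, ite_smul, one_smul, zero_smul, Finset.sum_ite_eq', Finset.mem_univ,
      if_true, apply_ite normSq, map_one, map_zero] at this
    rw [hp]
    exact this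
  have key : ∀ i, 7 / 24 ≤ ∫ x in Ωᶜ, p i x ∂M.mu T ∧ ∫ x, q i x ∂M.mu T ≤ 2 * m := fun i => by
    have k := integral_mono (μ := M.mu T) (((((ip i).const_mul (m / 2)).sub
      (((ip i).indicator mB).const_mul (3 / 2 * m)))).add (iq i)) (hi ℝ _
      ((((sc i).2.2.2.2.2.2.2.2.2 _ ((((mHES n M).1 _ h.sm).sub ((mHES n M).2.2.2.2.2.2.2.2.1 T
        hT)).smul m).toTen).2.add (b1 i)).mul ce)) fun x => by
        simp only [Pi.add_apply, Pi.sub_apply, Pi.mul_apply, hp, hq, add_mul]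
        refine add_le_add ?_ le_rfl
        by_cases k : x ∈ Ω
        · have := wq_ge (m := m + 1) (s := t i) hT (1 / 2) m0.le
            (AllOn.ch h.pos x (by rwa [ch_symm]))
          rw [indicator_of_notMem (not_not.2 k)]
          linarith [mul_le_mul_of_nonneg_right this (Real.exp_pos (-(m * w x))).le]
        · have := wq_ge (m := m + 1) (s := t i) hT (-1) m0.le (θ := M.hs w - M.ric T) (x := x)
            (by rw [neg_one_smul]; exact AllOn.ch h.lo x)
          rw [indicator_of_mem k]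
          linarith [mul_le_mul_of_nonneg_right this (Real.exp_pos (-(m * w x))).le]
    rw [integral_add' (((ip i).const_mul _).sub (((ip i).indicator mB).const_mul _)) (iq i),
      integral_sub' ((ip i).const_mul _) (((ip i).indicator mB).const_mul _), integral_const_mul,
      integral_const_mul, integral_indicator mB, p1] at k
    have k1 := k.trans ((b3 i).trans (hb i))
    have k2 : 0 ≤ ∫ x, q i x ∂M.mu T := integral_nonneg (q0 i)
    have k3 : ∫ x in Ωᶜ, p i x ∂M.mu T ≤ 1 :=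
      p1 i ▸ setIntegral_le_integral (ip i) (Eventually.of_forall (p0 i))
    exact ⟨le_of_mul_le_mul_left (by linarith) m0, by nlinarith⟩
  have bs : ball (0 : E n) s ⊆ ball 0 (2 * s) := ball_subset_ball (by linarith)
  have bt := fun j => ball_subset_closedBall.trans (a1 j).sub
  have m1 := fun j => (hc _ (a1 j).mem _ measurableSet_ball (bs.trans (bt j))).1
  have m2 := fun j => (hc _ (a1 j).mem _ measurableSet_ball (bt j)).1
  have l1 := Finset.sum_le_sum fun j (_ : j ∈ Finset.univ) => h2 M T w Ω m N s (e j) t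
    (fun i x => C₁ * b i x) Ωᶜ h s0 (by nlinarith) (a1 j) ht (fun a => (hw a).le)
    (fun i => ⟨(b1 i).const_mul _, fun z hz => b4 i _ (a1 j).mem z (bt j hz)
      ((a1 j).bd z (ball_subset_closedBall hz))⟩) mB
  have l2 : ∀ i, 7 / 24 ≤ ∑ j, ∫ x in Ωᶜ ∩ (e j).symm '' ball 0 s, p i x ∂M.mu T := fun i => by
    have := le_sum (μ := (M.mu T).restrict Ωᶜ) (ip i).integrableOn (p0 i) m1 a2
    simp only [Measure.restrict_restrict (m1 _), inter_comm _ Ωᶜ] at this
    exact (key i).1.trans this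
  have l3 : ∀ i, ∑ j, ∫ x in (e j).symm '' ball 0 (2 * s), q i x ∂M.mu T ≤ D * (2 * m) := fun i =>
    (sum_le (iq i) (q0 i) m2 a3).trans (mul_le_mul_of_nonneg_left (key i).2 D.cast_nonneg)
  have l4 : ∑ j, (M.mu T).real (Ωᶜ ∩ (e j).symm '' ball 0 s) ≤ D * (M.mu T).real Ωᶜ := by
    have := sum_le (μ := (M.mu T).restrict Ωᶜ) (integrable_const (1 : ℝ)) (fun _ => zero_le_one) m1
      fun x => le_trans (Finset.card_le_card fun j hj => by
        simp only [Finset.mem_filter] at hj ⊢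
        exact ⟨hj.1, image_mono bs hj.2⟩) (a3 x)
    simpa only [Measure.restrict_restrict (m1 _), inter_comm _ Ωᶜ, integral_const, smul_eq_mul,
      mul_one, measureReal_restrict_apply_univ] using this
  have l5 := Finset.sum_le_sum fun i (_ : i ∈ Finset.univ) => l2 i
  have l6 := Finset.sum_le_sum fun i (_ : i ∈ Finset.univ) => l3 i
  simp only [Finset.sum_const, Finset.card_univ, Fintype.card_fin, nsmul_eq_mul] at l5 l6
  simp only [mul_assoc C₁, integral_const_mul, Finset.sum_add_distrib, ← Finset.mul_sum,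
    ← Finset.sum_div] at l1
  rw [Finset.sum_comm, hp] at l5
  rw [Finset.sum_comm, hq] at l6
  have l7 := l5.trans l1
  have l8 : C₂ * ((∑ j, (M.mu T).real (Ωᶜ ∩ (e j).symm '' ball 0 s)) / s ^ (2 * n)) ≤
      C₂ * (D + 1) / R ^ (2 * n) * (M.mu T).real Ωᶜ * (m : ℝ) ^ n := by
    rw [pow_mul R, ← s2, mul_pow, ← pow_mul, show C₂ * (D + 1) / ((m : ℝ) ^ n * s ^ (2 * n)) *
      (M.mu T).real Ωᶜ * (m : ℝ) ^ n = C₂ * ((D + 1) * (M.mu T).real Ωᶜ / s ^ (2 * n)) by
        field_simp]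
    have : 0 ≤ (M.mu T).real Ωᶜ := measureReal_nonneg
    gcongr
    linarith
  have l9 := mul_le_mul_of_nonneg_left l6 (show 0 ≤ C₂ * (s ^ 2 * C₁) by positivity)
  have l10 : C₂ * (s ^ 2 * C₁) * (N * (D * (2 * m))) ≤ N / 8 := by
    rw [show C₂ * (s ^ 2 * C₁) * (N * (D * (2 * m))) = N * (2 * (C₂ * C₁ * D) * (m * s ^ 2)) by
      ring, s2, div_eq_mul_inv]
    refine mul_le_mul_of_nonneg_left ?_ N.cast_nonneg
    have : 0 ≤ C₂ * C₁ * D * R := by positivity
    nlinarith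
  beta_reduce at l9
  nlinarith

end Pool.Agent.Lib.HW27
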