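import Pool.Agent.Lib.HW27.Blue
import Pool.Agent.Lib.HS32.MAll

/-! Project hw, block WN1: packing of good charts. -/

open scoped Classical Topology ContDiff ComplexOrder Matrix
open Set MeasureTheory Complex Metric Filter

noncomputable section

namespace Pool.Agent.Lib.HW27

open Pool.Agent.Lib.SV (E)
open Pool.Agent.Lib.HS32

namespace W49

/-- The determinant of a bounded matrix. -/
theorem det_le {n : ℕ} {G : Mat n} (h : HS78.Bd 2 G) : ‖G.det.re‖ ≤ n.factorial * 2 ^ n := by
  have a := Matrix.det_le (A := G) (abv := NormedField.toAbsoluteValue ℂ) (x := 2)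
    (h.eb two_pos)
  rw [Fintype.card_fin, nsmul_eq_mul] at a
  exact (Complex.abs_re_le_norm _).trans a

/-- The volume of a ball in a good chart. -/
theorem ball_le {n : ℕ} {M : Mf n} [M.Cpt] {T : M.Fam (Mat n)} {w : M.X → ℝ} {m : ℕ} {L : ℝ}
    {e : M.Ch} (hT : M.Met T) (hL : 0 ≤ L) (h : M.WNice T w m L e) :
    (M.mu T).real (e.symm '' closedBall 0 L) ≤
      n.factorial * 2 ^ n * volume.real (closedBall (0 : E n) 1) * L ^ (2 * n) := by
  have a := ((mMU n M T hT).2.2.2.2.2.1 e h.mem _ measurableSet_closedBall h.sub).2.2.1 fun _ => 1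
  have b : volume.real (closedBall (0 : E n) L) =
      L ^ (2 * n) * volume.real (closedBall (0 : E n) 1) := by
    rw [measureReal_def, Measure.addHaar_closedBall' _ _ hL, ENNReal.toReal_mul,
      ENNReal.toReal_ofReal (by positivity), measureReal_def]
    simp [Module.finrank_pi_fintype, mul_comm]
  have c := norm_setIntegral_le_of_norm_le_const (μ := volume) (s := closedBall (0 : E n) L)
    (f := fun z => (T e z).det.re * 1) (C := n.factorial * 2 ^ n)
    (isCompact_closedBall _ _).measure_lt_top fun z hz => by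
      rw [mul_one]
      exact det_le (h.bd z hz)
  rw [← a, b] at c
  simp only [integral_const, measureReal_restrict_apply_univ, smul_eq_mul, mul_one] at c
  have d := (le_abs_self _).trans c
  linarith

/-- The scale tends to zero. -/
theorem scale {R : ℝ} (hR : 0 < R) : Tendsto (fun m : ℕ => R / √m) atTop (𝓝[>] 0) := by
  refine tendsto_nhdsWithin_iff.2 ⟨tendsto_const_nhds.div_atTop
    (Real.tendsto_sqrt_atTop.comp tendsto_natCast_atTop_atTop), ?_⟩
  filter_upwards [eventually_gt_atTop 0] with m hm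
  have : (0 : ℝ) < m := by exact_mod_cast hm
  exact mem_Ioi.2 (by positivity)

/-- One chart carries a fixed part of the measure. -/
theorem pick {n : ℕ} {M : Mf n} [M.Cpt] (V : M.Cov) (μ : Measure M.X) [IsFiniteMeasure μ]
    (K : Set M.X) : ∃ a, μ.real K ≤
      V.r * μ.real ((V.e a).symm '' (closedBall (V.c a) (V.ρ a) ∩ (V.e a).symm ⁻¹' K)) := by
  obtain ⟨a₀, -⟩ := V.cov (Classical.arbitrary _)
  obtain ⟨a, -, ha⟩ := Finset.exists_max_image Finset.univ
    (fun a => μ.real ((V.e a).symm '' (closedBall (V.c a) (V.ρ a) ∩ (V.e a).symm ⁻¹' K)))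
    ⟨a₀, Finset.mem_univ _⟩
  refine ⟨a, ?_⟩
  have b : K ⊆ ⋃ a, (V.e a).symm '' (closedBall (V.c a) (V.ρ a) ∩ (V.e a).symm ⁻¹' K) := by
    intro x hx
    obtain ⟨b, b1, b2, -⟩ := V.cov x
    have b3 := (V.e b).left_inv b1
    exact mem_iUnion.2 ⟨b, V.e b x, ⟨ball_subset_closedBall b2, by rwa [mem_preimage, b3]⟩, b3⟩
  refine (measureReal_mono b).trans ((measureReal_iUnion_fintype_le _).trans ?_)
  refine (Finset.sum_le_sum ha).trans ?_
  simp

end W49

theorem st_WN1 (hNT : St_WNT) (hNC : St_WNC) : St_WN1 := by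
  intro n M _
  obtain ⟨A, D, hA, hnet⟩ := hNT n
  obtain ⟨V, -⟩ := (mCOV n M).2.2.1
  obtain ⟨B, hB⟩ : ∃ B : ℝ, B = n.factorial * 2 ^ n * volume.real (closedBall (0 : E n) 1) :=
    ⟨_, rfl⟩
  have B0 : 0 ≤ B := by rw [hB]; positivity
  have A0 : 0 < A := by linarith
  refine ⟨1 / ((V.r + 1) * (B + 1) * A ^ (2 * n)), by positivity, fun T w R K hT hw hR hK => ?_⟩
  have := (mMU n M T hT).2.1
  obtain ⟨a, ha⟩ := W49.pick V (M.mu T) K
  have he := V.mem a
  have s1 : closedBall (V.c a) (V.ρ a) ⊆ (V.e a).target :=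
    (closedBall_subset_closedBall (by linarith [V.pos a])).trans (V.sub a)
  generalize V.e a = e at ha he s1
  generalize V.c a = c at ha s1
  generalize V.ρ a = ρ at ha s1
  have k1 : IsCompact (closedBall c ρ ∩ e.symm ⁻¹' K) :=
    (isCompact_closedBall c ρ).of_isClosed_subset
      ((e.continuousOn_symm.mono s1).preimage_isClosed_of_isClosed isClosed_closedBall hK)
      inter_subset_left
  have k2 : closedBall c ρ ∩ e.symm ⁻¹' K ⊆ e.target := inter_subset_left.trans s1
  have k3 : ContinuousOn (T e) e.target := fun z hz =>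
    (continuousAt_pi.2 fun i => continuousAt_pi.2 fun j =>
      (hT.sm e he z hz i j).continuousAt).continuousWithinAt
  filter_upwards [(W49.scale hR).eventually
      (hnet (T e) e.target _ e.open_target k1 k2 k3 fun z hz => hT.pos e he z hz),
    hNC n M T w (A * R) hT hw (by positivity) e he _ k1 k2, eventually_gt_atTop 0]
    with m ⟨S, P, h1, h2, h3, _⟩ h4 hm
  have m0 : (0 : ℝ) < m := by exact_mod_cast hm
  have q0 : 0 < √(m : ℝ) := by positivity
  choose e' g1 g2 g3 using fun y : S => h4 y (h1 y y.2).1 (P y) (h1 y y.2).2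
  have l1 : R / √(m : ℝ) ≤ A * R / √(m : ℝ) := by
    gcongr
    nlinarith
  refine ⟨S, inferInstance, e', fun j => ⟨(g1 j).mono l1, ?_⟩, fun i j hij => ?_, ?_⟩
  · have t := k2 (h1 j j.2).1
    have u : e' j (e.symm j) = 0 := by rw [g3, e.right_inv t, sub_self, Matrix.mulVec_zero]
    rw [← u, (e' j).left_inv (by rw [g2]; exact e.map_target t)]
    exact (h1 j j.2).1.2
  · refine disjoint_left.2 ?_
    rintro x ⟨z, z1, z2⟩ ⟨z', z3, z4⟩
    have u : P i *ᵥ (e x - i) = z := by
      rw [← g3, ← z2, (e' i).right_inv (((g1 i).mono l1).sub z1)]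
    have v : P j *ᵥ (e x - j) = z' := by
      rw [← g3, ← z4, (e' j).right_inv (((g1 j).mono l1).sub z3)]
    have t := h2 i i.2 j j.2 (fun h => hij (Subtype.ext h)) (e x)
      (by rw [u]; exact mem_closedBall_zero_iff.1 z1)
    rw [v] at t
    exact absurd (mem_closedBall_zero_iff.1 z3) (not_le.2 t)
  · have c1 : e.symm '' (closedBall c ρ ∩ e.symm ⁻¹' K) ⊆
        ⋃ j : S, (e' j).symm '' closedBall 0 (A * R / √(m : ℝ)) := by
      rintro _ ⟨z, hz, rfl⟩
      obtain ⟨y, hy, u⟩ := h3 z hz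
      have t := k2 hz
      refine mem_iUnion.2 ⟨⟨y, hy⟩, e' ⟨y, hy⟩ (e.symm z), mem_closedBall_zero_iff.2 ?_,
        (e' _).left_inv (by rw [g2]; exact e.map_target t)⟩
      rw [g3, e.right_inv t, mul_div_assoc]
      exact u.le
    have c2 := (measureReal_mono (μ := M.mu T) c1).trans ((measureReal_iUnion_fintype_le _).trans
      (Finset.sum_le_sum fun j _ => W49.ball_le hT (by positivity) (g1 j)))
    rw [← hB, Finset.sum_const, Finset.card_univ, nsmul_eq_mul] at c2
    have c3 : (A * R / √(m : ℝ)) ^ (2 * n) * (m : ℝ) ^ n = A ^ (2 * n) * R ^ (2 * n) := by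
      rw [div_pow, pow_mul √(m : ℝ), Real.sq_sqrt m0.le, mul_pow]
      field_simp
    have c4 : (M.mu T).real K * (m : ℝ) ^ n ≤
        V.r * (Fintype.card S * (B * (A ^ (2 * n) * R ^ (2 * n)))) := by
      rw [← c3]
      have := ha.trans (mul_le_mul_of_nonneg_left c2 (Nat.cast_nonneg _))
      calc _ ≤ V.r * (Fintype.card S * (B * (A * R / √(m : ℝ)) ^ (2 * n))) * (m : ℝ) ^ n := by
            gcongr
        _ = _ := by ring
    rw [mul_assoc, one_div, inv_mul_le_iff₀ (by positivity)]
    calc _ ≤ _ := c4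
      _ ≤ (V.r + 1) * (Fintype.card S * ((B + 1) * (A ^ (2 * n) * R ^ (2 * n)))) := by
        gcongr <;> linarith
      _ = _ := by ring

end Pool.Agent.Lib.HW27
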