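import Pool.Agent.Lib.HW27.Blue
import Pool.Agent.Lib.HS32.MAll

/-! Project hw, part B: coverings by good charts. -/

open scoped Classical Topology ContDiff ComplexOrder Matrix
open Set MeasureTheory Complex Metric Filter

noncomputable section

namespace Pool.Agent.Lib.HW27

open Pool.Agent.Lib.SV (E)
open Pool.Agent.Lib.HS32

theorem WN2.scale {R A : ℝ} (hR : 0 < R) (hA : 0 < A) :
    Tendsto (fun m : ℕ => R / √m / A) atTop (𝓝[>] 0) := by
  refine tendsto_nhdsWithin_iff.2 ⟨?_, ?_⟩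
  · have h : Tendsto (fun m : ℕ => √(m : ℝ)) atTop atTop :=
      Real.tendsto_sqrt_atTop.comp tendsto_natCast_atTop_atTop
    simpa using (h.const_div_atTop R).div_const A
  · filter_upwards [eventually_gt_atTop 0] with m hm
    have : (0 : ℝ) < m := by exact_mod_cast hm
    exact mem_Ioi.2 (by positivity)

theorem st_WN2 (hNT : St_WNT) (hNC : St_WNC) : St_WN2 := by
  intro n M _
  obtain ⟨A, D, hA, hN⟩ := hNT n
  obtain ⟨V, -⟩ := (mCOV n M).2.2.1
  have hA0 : 0 < A := by linarith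
  refine ⟨V.r * D, fun T w R hT hw hR => ?_⟩
  have hsub : ∀ a, closedBall (V.c a) (V.ρ a) ⊆ (V.e a).target := fun a =>
    (closedBall_subset_closedBall (by linarith [V.pos a])).trans (V.sub a)
  have h1 := fun a => (WN2.scale hR hA0).eventually (hN (T (V.e a)) (V.e a).target _
    (V.e a).open_target (isCompact_closedBall _ _) (hsub a)
    (fun z hz => (hT.sm _ (V.mem a) z hz).continuousAt.continuousWithinAt)
    fun z hz => hT.pos _ (V.mem a) z hz)
  have h2 := fun a => hNC n M T w (2 * R) hT hw (by positivity) _ (V.mem a) _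
    (isCompact_closedBall _ _) (hsub a)
  filter_upwards [eventually_all.2 h1, eventually_all.2 h2] with m h1 h2
  have hs : A * (R / √m / A) = R / √m := mul_div_cancel₀ _ hA0.ne'
  simp only [hs, mul_div_assoc] at h1 h2
  choose S P hP _ hcov hcard using h1
  choose e he1 he2 he3 using fun j : Σ a, S a =>
    h2 j.1 j.2 (hP _ _ j.2.2).1 (P j.1 j.2) (hP _ _ j.2.2).2
  refine ⟨Σ a, S a, inferInstance, e, he1, fun x => ?_, fun x => ?_⟩
  · obtain ⟨a, hx, hb, -⟩ := V.cov x
    obtain ⟨y, hy, hl⟩ := hcov a _ (ball_subset_closedBall hb)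
    refine ⟨⟨a, y, hy⟩, e ⟨a, y, hy⟩ x, ?_, (e _).left_inv (by rw [he2]; exact hx)⟩
    rw [mem_ball_zero_iff, he3]
    exact hl
  · refine le_trans (Finset.card_le_card_of_injOn (fun j => (⟨j.1, j.2.1⟩ : Σ _ : Fin V.r, E n))
      (t := Finset.univ.sigma fun a => (S a).filter fun y =>
        ‖P a y *ᵥ (V.e a x - y)‖ ≤ 2 * (R / √m)) (fun j hj => ?_) ?_) ?_
    · obtain ⟨z, hz, rfl⟩ := (Finset.mem_filter.1 (Finset.mem_coe.1 hj)).2
      refine Finset.mem_coe.2 (Finset.mem_sigma.2 ⟨Finset.mem_univ _,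
        Finset.mem_filter.2 ⟨j.2.2, ?_⟩⟩)
      have h := (e j).right_inv ((he1 j).sub (ball_subset_closedBall hz))
      rw [he3] at h
      exact (congrArg norm h).le.trans (mem_ball_zero_iff.1 hz).le
    · rintro ⟨a, y, hy⟩ - ⟨b, y', hy'⟩ - h
      obtain ⟨rfl, h'⟩ := Sigma.mk.inj_iff.1 h
      obtain rfl := eq_of_heq h'
      rfl
    · rw [Finset.card_sigma]
      refine (Finset.sum_le_card_nsmul _ _ D fun a _ => hcard a _).trans ?_
      simp

end Pool.Agent.Lib.HW27
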