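import Pool.Agent.Lib.HW27.Blue

/-! Project hw, row `WNT`: nets for a continuous metric in coordinates. -/

open scoped Classical Topology ComplexOrder Matrix
open Set Metric Filter

noncomputable section

namespace Pool.Agent.Lib.HW27

open Pool.Agent.Lib.SV (E)
open Pool.Agent.Lib.HS32

namespace T4

variable {n : ℕ}

/-- Separated families in a compact set have bounded cardinality. -/
theorem sep {X : Type*} [PseudoMetricSpace X] {C : Set X} (hC : IsCompact C) {ε : ℝ} (hε : 0 < ε) :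
    ∃ N : ℕ, ∀ (ι : Type) (S : Finset ι) (f : ι → X), (∀ y ∈ S, f y ∈ C) →
      (∀ y ∈ S, ∀ y' ∈ S, y ≠ y' → ε ≤ dist (f y) (f y')) → S.card ≤ N := by
  obtain ⟨t, -, ht, hc⟩ := finite_cover_balls_of_compact hC (half_pos hε)
  refine ⟨ht.toFinset.card, fun ι S f h1 h2 => ?_⟩
  have h3 : ∀ y : ι, ∃ c, y ∈ S → c ∈ t ∧ f y ∈ ball c (ε / 2) := by
    intro y
    by_cases hy : y ∈ S
    · obtain ⟨c, hc1, hc2⟩ := mem_iUnion₂.1 (hc (h1 y hy))
      exact ⟨c, fun _ => ⟨hc1, hc2⟩⟩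
    · exact ⟨f y, fun h => absurd h hy⟩
  choose g hg using h3
  refine Finset.card_le_card_of_injOn g (fun y hy => ?_) fun y hy y' hy' e => ?_
  · exact ht.mem_toFinset.2 (hg y hy).1
  · by_contra hne
    have a := mem_ball.1 (hg y hy).2
    have b := mem_ball.1 (hg y' hy').2
    have c := h2 y hy y' hy' hne
    have d := dist_triangle_right (f y) (f y') (g y')
    rw [e] at a
    linarith

theorem nq_eq (P : Mat n) (v : E n) : nq (Pᴴ * P) v = ∑ k, ‖(P *ᵥ v) k‖ ^ 2 := by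
  unfold nq
  rw [← Matrix.mulVec_mulVec, Matrix.dotProduct_mulVec, Matrix.vecMul_conjTranspose, star_star,
    dotProduct, Complex.re_sum]
  refine Finset.sum_congr rfl fun k _ => ?_
  rw [Pi.star_apply, Complex.star_def, Complex.conj_mul', ← Complex.ofReal_pow, Complex.ofReal_re]

theorem le_nq (P : Mat n) (v : E n) : ‖P *ᵥ v‖ ^ 2 ≤ nq (Pᴴ * P) v := by
  rw [nq_eq]
  have h0 : 0 ≤ ∑ k, ‖(P *ᵥ v) k‖ ^ 2 := by positivity
  rw [← Real.le_sqrt (norm_nonneg _) h0, pi_norm_le_iff_of_nonneg (Real.sqrt_nonneg _)]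
  intro k
  rw [Real.le_sqrt (norm_nonneg _) h0]
  exact Finset.single_le_sum (f := fun k => ‖(P *ᵥ v) k‖ ^ 2) (fun _ _ => by positivity)
    (Finset.mem_univ k)

theorem nq_le (P : Mat n) (v : E n) : nq (Pᴴ * P) v ≤ n * ‖P *ᵥ v‖ ^ 2 := by
  rw [nq_eq]
  calc _ ≤ ∑ _k : Fin n, ‖P *ᵥ v‖ ^ 2 := Finset.sum_le_sum fun k _ => by
        gcongr
        exact norm_le_pi_norm _ k
    _ = _ := by simp

theorem nq_sm (A : Mat n) (r : ℝ) (v : E n) : nq A (r • v) = r ^ 2 * nq A v := by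
  unfold nq
  rw [Matrix.mulVec_smul, star_smul, smul_dotProduct, dotProduct_smul, smul_smul]
  simp [sq]

/-- Every vector is a multiple of a unit vector, or zero. -/
theorem unit (v : E n) (hv : v ≠ 0) : ∃ u : E n, u ∈ sphere (0 : E n) 1 ∧ v = ‖v‖ • u := by
  have h : ‖v‖ ≠ 0 := norm_ne_zero_iff.2 hv
  refine ⟨‖v‖⁻¹ • v, ?_, ?_⟩
  · rw [mem_sphere_zero_iff_norm, norm_smul, norm_inv, norm_norm, inv_mul_cancel₀ h]
  · rw [smul_smul, mul_inv_cancel₀ h, one_smul]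

/-- Uniform bounds for the quadratic forms. -/
theorem unif {T : E n → Mat n} {K : Set (E n)} (hK : IsCompact K) (hT : ContinuousOn T K)
    (hp : ∀ z ∈ K, (T z).PosDef) : ∃ a b δ : ℝ, 0 < a ∧ 0 < b ∧ 0 < δ ∧
      (∀ y ∈ K, ∀ v, a * ‖v‖ ^ 2 ≤ nq (T y) v ∧ nq (T y) v ≤ b * ‖v‖ ^ 2) ∧
      ∀ y ∈ K, ∀ y' ∈ K, dist y y' < δ → ∀ v, nq (T y) v ≤ 2 * nq (T y') v := by
  have hc : IsCompact (K ×ˢ sphere (0 : E n) 1) := hK.prod (isCompact_sphere 0 1)
  have hf : ContinuousOn (fun p : E n × E n => nq (T p.1) p.2) (K ×ˢ sphere (0 : E n) 1) := by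
    have h1 : ContinuousOn (fun p : E n × E n => T p.1) (K ×ˢ sphere (0 : E n) 1) :=
      hT.comp continuousOn_fst fun p hp => hp.1
    have h2 : Continuous fun p : Mat n × E n => nq p.1 p.2 := by
      unfold nq
      exact Complex.continuous_re.comp
        (continuous_snd.star.dotProduct (continuous_fst.matrix_mulVec continuous_snd))
    exact h2.comp_continuousOn (h1.prodMk continuousOn_snd)
  obtain ⟨a, ha, h1⟩ := hc.exists_forall_le' hf (a := 0) fun p hp' => by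
    have h0 : p.2 ≠ 0 := by
      intro h
      have := mem_sphere_zero_iff_norm.1 hp'.2
      rw [h, norm_zero] at this
      exact zero_ne_one this
    exact (hp p.1 hp'.1).re_dotProduct_pos h0
  obtain ⟨b, h2⟩ := hc.exists_bound_of_continuousOn hf
  obtain ⟨δ, hδ, h3⟩ := Metric.uniformContinuousOn_iff.1
    (hc.uniformContinuousOn_of_continuous hf) a ha
  have z0 : ∀ A : Mat n, nq A 0 = 0 := fun A => by simp [nq]
  refine ⟨a, |b| + 1, δ, ha, by positivity, hδ, fun y hy v => ?_, fun y hy y' hy' hd v => ?_⟩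
  · by_cases hv : v = 0
    · simp [hv, z0]
    obtain ⟨u, hu, e⟩ := unit v hv
    have a1 := h1 (y, u) ⟨hy, hu⟩
    have a2 := (le_abs_self _).trans ((Real.norm_eq_abs _ ▸ h2 (y, u) ⟨hy, hu⟩).trans
      (le_abs_self b))
    have e2 : nq (T y) v = ‖v‖ ^ 2 * nq (T y) u := by rw [← nq_sm, ← e]
    have p : 0 ≤ ‖v‖ ^ 2 := by positivity
    rw [e2]
    exact ⟨by nlinarith, by nlinarith⟩
  · by_cases hv : v = 0
    · simp [hv, z0]
    obtain ⟨u, hu, e⟩ := unit v hv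
    have a1 := h1 (y', u) ⟨hy', hu⟩
    have a2 := h3 (y, u) ⟨hy, hu⟩ (y', u) ⟨hy', hu⟩ (by simpa [Prod.dist_eq, hδ] using hd)
    rw [Real.dist_eq] at a2
    have a3 := (abs_lt.1 a2).2
    have e2 : nq (T y) v = ‖v‖ ^ 2 * nq (T y) u := by rw [← nq_sm, ← e]
    have e3 : nq (T y') v = ‖v‖ ^ 2 * nq (T y') u := by rw [← nq_sm, ← e]
    have p : 0 ≤ ‖v‖ ^ 2 := by positivity
    rw [e2, e3]
    nlinarith

/-- Uniform bounds for the square roots. -/
theorem unif' {T P : E n → Mat n} {K : Set (E n)} (hK : IsCompact K) (hT : ContinuousOn T K)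
    (hp : ∀ z ∈ K, (T z).PosDef) (hP : ∀ z ∈ K, (P z)ᴴ * P z = T z) :
    ∃ L δ : ℝ, 0 < L ∧ 0 < δ ∧
      (∀ y ∈ K, ∀ v, ‖v‖ ≤ L * ‖P y *ᵥ v‖ ∧ ‖P y *ᵥ v‖ ≤ L * ‖v‖) ∧
      ∀ y ∈ K, ∀ y' ∈ K, dist y y' < δ → ∀ v, ‖P y *ᵥ v‖ ≤ (n + 1) * ‖P y' *ᵥ v‖ := by
  obtain ⟨a, b, δ, ha, hb, hδ, h1, h2⟩ := unif hK hT hp
  have hn : (0 : ℝ) ≤ n := Nat.cast_nonneg n
  have hq : 0 ≤ n / a := by positivity
  refine ⟨n / a + b + 1, δ, by positivity, hδ, fun y hy v => ⟨?_, ?_⟩, fun y hy y' hy' hd v => ?_⟩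
  · refine le_of_sq_le_sq ?_ (by positivity)
    have a1 := (h1 y hy v).1
    have a2 := nq_le (P y) v
    rw [hP y hy] at a2
    have a3 : ‖v‖ ^ 2 ≤ n / a * ‖P y *ᵥ v‖ ^ 2 := by
      rw [div_mul_eq_mul_div, le_div_iff₀ ha]
      linarith
    have a4 : n / a ≤ (n / a + b + 1) ^ 2 := by nlinarith
    rw [mul_pow]
    exact a3.trans (mul_le_mul_of_nonneg_right a4 (by positivity))
  · refine le_of_sq_le_sq ?_ (by positivity)
    have a1 := (h1 y hy v).2
    have a2 := le_nq (P y) v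
    rw [hP y hy] at a2
    have a4 : b ≤ (n / a + b + 1) ^ 2 := by nlinarith
    rw [mul_pow]
    exact (a2.trans a1).trans (mul_le_mul_of_nonneg_right a4 (by positivity))
  · refine le_of_sq_le_sq ?_ (by positivity)
    have a1 := h2 y hy y' hy' hd v
    have a2 := le_nq (P y) v
    have a3 := nq_le (P y') v
    rw [hP y hy] at a2
    rw [hP y' hy'] at a3
    have a4 : 2 * (n : ℝ) ≤ (n + 1) ^ 2 := by nlinarith
    have a5 := mul_le_mul_of_nonneg_right a4 (sq_nonneg ‖P y' *ᵥ v‖)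
    rw [mul_pow]
    linarith

/-- A family of points with pairwise disjoint cells. -/
def Good (P : E n → Mat n) (K : Set (E n)) (s : ℝ) (S : Finset (E n)) : Prop :=
  (∀ y ∈ S, y ∈ K) ∧
    ∀ y ∈ S, ∀ y' ∈ S, y ≠ y' → ∀ z, ‖P y *ᵥ (z - y)‖ ≤ s → s < ‖P y' *ᵥ (z - y')‖

theorem Good.far {P : E n → Mat n} {K : Set (E n)} {s : ℝ} {S : Finset (E n)} (h : Good P K s S)
    (hs : 0 ≤ s) {y y' : E n} (hy : y ∈ S) (hy' : y' ∈ S) (hne : y ≠ y') :
    s < ‖P y' *ᵥ (y - y')‖ :=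
  h.2 y hy y' hy' hne y (by simpa using hs)

/-- A maximal family. -/
theorem exists_max {P : E n → Mat n} {K : Set (E n)} (hK : IsCompact K) {L s : ℝ} (hL : 0 < L)
    (hs : 0 < s) (h : ∀ y ∈ K, ∀ v, ‖P y *ᵥ v‖ ≤ L * ‖v‖) :
    ∃ S, Good P K s S ∧ ∀ z ∈ K, z ∉ S → ¬ Good P K s (insert z S) := by
  obtain ⟨N, hN⟩ := sep hK (div_pos hs hL)
  have hb : ∀ S, Good P K s S → S.card ≤ N := fun S hS =>
    hN _ S id hS.1 fun y hy y' hy' hne => by
      have a := (hS.far hs.le hy hy' hne).le.trans (h y' (hS.1 y' hy') _)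
      rw [div_le_iff₀ hL, id, id, dist_eq_norm]
      linarith
  have hne : {k : ℕ | ∃ S, Good P K s S ∧ S.card = k}.Nonempty :=
    ⟨0, ∅, ⟨by simp, by simp⟩, rfl⟩
  have hbd : BddAbove {k : ℕ | ∃ S, Good P K s S ∧ S.card = k} :=
    ⟨N, by rintro k ⟨S, hS, rfl⟩; exact hb S hS⟩
  obtain ⟨S, hS, e⟩ := Nat.sSup_mem hne hbd
  refine ⟨S, hS, fun z _ hz hg => ?_⟩
  have := le_csSup hbd ⟨_, hg, rfl⟩
  rw [← e, Finset.card_insert_of_notMem hz] at this
  omega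

end T4

open T4

theorem st_WNT : St_WNT := by
  intro n
  have hn : (0 : ℝ) ≤ n := Nat.cast_nonneg n
  obtain ⟨D, hD⟩ := sep (isCompact_closedBall (0 : E n) ((n + 1) * (2 * (n + 3))))
    (ε := 1 / (n + 1)) (by positivity)
  refine ⟨n + 3, D, by linarith, fun T U K _ hK hKU hT hp => ?_⟩
  have hex : ∀ z : E n, ∃ Q : Mat n, z ∈ K → Qᴴ * Q = T z := by
    intro z
    by_cases hz : z ∈ K
    · obtain ⟨W, hW⟩ := Pool.Agent.Lib.HS76.psd_eq_mul (hp z (hKU hz)).posSemidef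
      exact ⟨Wᴴ, fun _ => by rw [Matrix.conjTranspose_conjTranspose, hW]⟩
    · exact ⟨1, fun h => absurd h hz⟩
  choose P hP using hex
  obtain ⟨L, δ, hL, hδ, h1, h2⟩ := unif' hK (hT.mono hKU) (fun z hz => hp z (hKU hz)) hP
  have hr : 0 < δ / (L * (4 * (n + 3))) := by positivity
  filter_upwards [Ioo_mem_nhdsGT hr] with s ⟨hs, hs'⟩
  have hsm : L * (4 * ((n + 3) * s)) < δ := by
    rw [lt_div_iff₀ (by positivity)] at hs'
    linarith
  have hLs : 0 < L * s := mul_pos hL hs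
  -- two centres close to one point are close
  have near : ∀ y ∈ K, ∀ y' ∈ K, ∀ z, ‖P y *ᵥ (z - y)‖ ≤ 2 * ((n + 3) * s) →
      ‖P y' *ᵥ (z - y')‖ ≤ 2 * ((n + 3) * s) → dist y y' < δ := by
    intro y hy y' hy' z a b
    have a' := ((h1 y hy (z - y)).1).trans (mul_le_mul_of_nonneg_left a hL.le)
    have b' := ((h1 y' hy' (z - y')).1).trans (mul_le_mul_of_nonneg_left b hL.le)
    have c := dist_triangle_left y y' z
    rw [dist_eq_norm z y, dist_eq_norm z y'] at c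
    linarith
  have hs2 : s ≤ 2 * ((n + 3) * s) := by nlinarith
  obtain ⟨S, hS, hmax⟩ := exists_max hK hL hs fun y hy v => (h1 y hy v).2
  refine ⟨S, P, fun y hy => ⟨hS.1 y hy, hP y (hS.1 y hy)⟩, hS.2, fun z hz => ?_, fun z => ?_⟩
  · by_cases hzS : z ∈ S
    · exact ⟨z, hzS, by simpa using mul_pos (by positivity) hs⟩
    have key : ∃ y ∈ S, ∃ x, ‖P y *ᵥ (x - y)‖ ≤ s ∧ ‖P z *ᵥ (x - z)‖ ≤ s := by
      by_contra hc
      push Not at hc
      refine hmax z hz hzS ⟨fun y hy => ?_, fun y hy y' hy' hne x hx => ?_⟩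
      · rcases Finset.mem_insert.1 hy with rfl | hy
        exacts [hz, hS.1 y hy]
      · rcases Finset.mem_insert.1 hy with e | g <;> rcases Finset.mem_insert.1 hy' with e' | g'
        · exact absurd (e.trans e'.symm) hne
        · rw [e] at hx
          by_contra hh
          exact absurd (hc y' g' x (not_lt.1 hh)) (not_lt.2 hx)
        · rw [e']
          exact hc y g x hx
        · exact hS.2 y g y' g' hne x hx
    obtain ⟨y, hy, x, a, b⟩ := key
    refine ⟨y, hy, ?_⟩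
    have c := h2 y (hS.1 y hy) z hz (near y (hS.1 y hy) z hz x (a.trans hs2) (b.trans hs2)) (x - z)
    have e : P y *ᵥ (z - y) = P y *ᵥ (x - y) - P y *ᵥ (x - z) := by
      rw [← Matrix.mulVec_sub]
      congr 1
      abel
    have d := norm_sub_le (P y *ᵥ (x - y)) (P y *ᵥ (x - z))
    have f := mul_le_mul_of_nonneg_left b (by positivity : (0 : ℝ) ≤ n + 1)
    rw [e]
    nlinarith
  · rcases (S.filter fun y => ‖P y *ᵥ (z - y)‖ ≤ 2 * ((n + 3) * s)).eq_empty_or_nonempty with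
      h0 | ⟨y₀, hy₀⟩
    · rw [h0]
      exact Nat.zero_le D
    obtain ⟨b1, b2⟩ := Finset.mem_filter.1 hy₀
    refine hD _ _ (fun y => s⁻¹ • (P y₀ *ᵥ (z - y))) (fun y hy => ?_) fun y hy y' hy' hne => ?_
    · obtain ⟨c1, c2⟩ := Finset.mem_filter.1 hy
      have c := h2 y₀ (hS.1 _ b1) y (hS.1 _ c1) (near _ (hS.1 _ b1) _ (hS.1 _ c1) z b2 c2) (z - y)
      have f := mul_le_mul_of_nonneg_left c2 (by positivity : (0 : ℝ) ≤ n + 1)
      rw [mem_closedBall_zero_iff, norm_smul, norm_inv, Real.norm_of_nonneg hs.le,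
        inv_mul_le_iff₀ hs]
      nlinarith
    · obtain ⟨c1, c2⟩ := Finset.mem_filter.1 hy
      obtain ⟨d1, -⟩ := Finset.mem_filter.1 hy'
      have c := h2 y (hS.1 _ c1) y₀ (hS.1 _ b1) (near _ (hS.1 _ c1) _ (hS.1 _ b1) z c2 b2) (y' - y)
      have f := hS.far hs.le d1 c1 hne.symm
      have e : z - y - (z - y') = y' - y := by abel
      rw [dist_eq_norm, ← smul_sub, ← Matrix.mulVec_sub, e, norm_smul, norm_inv,
        Real.norm_of_nonneg hs.le, le_inv_mul_iff₀ hs, mul_one_div, div_le_iff₀ (by positivity)]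
      linarith

end Pool.Agent.Lib.HW27
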