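import Pool.Agent.Lib.HW27.Blue
import Pool.Agent.Lib.HS32.MAll
import Pool.Agent.Lib.HS.B_SC5

/-! Project hw, part B: one peak section. -/

open scoped Classical Topology ContDiff ComplexOrder Matrix Pointwise
open Set MeasureTheory Complex Metric Filter

noncomputable section

namespace Pool.Agent.Lib.HW27

open Pool.Agent.Lib.SV (E)
open Pool.Agent.Lib.HS32

namespace W10

variable {n : ℕ}

theorem nq_cont (A : Mat n) : Continuous (nq A) := by
  unfold nq
  exact continuous_re.comp (continuous_star.dotProduct (continuous_const.matrix_mulVec continuous_id))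

theorem nq_two (A : Mat n) (v : E n) : nq A ((2 : ℝ) • v) = 4 * nq A v := by
  simp only [nq, star_smul, star_trivial, Matrix.mulVec_smul, dotProduct_smul, smul_dotProduct,
    smul_re, smul_eq_mul]
  ring

theorem gauss {A : Mat n} (hA : A.PosSemidef) {m s : ℝ} (hm : 0 ≤ m) (hs : 0 < s) :
    ∫ z in closedBall (0 : E n) s, Real.exp (-(m * nq A z)) ≤
      2 ^ Module.finrank ℝ (E n) * ∫ z in closedBall (0 : E n) (s / 2), Real.exp (-(m * nq A z)) := by
  have hc : Continuous fun z : E n => Real.exp (-(m * nq A z)) :=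
    ((nq_cont A).const_mul m).neg.rexp
  have h1 := Measure.setIntegral_comp_smul_of_pos volume (fun z : E n => Real.exp (-(m * nq A z)))
    (closedBall 0 (s / 2)) (R := 2) two_pos
  rw [_root_.smul_closedBall _ _ (by positivity), smul_zero, Real.norm_two, mul_div_cancel₀ _ two_ne_zero,
    smul_eq_mul] at h1
  rw [← inv_mul_le_iff₀ (by positivity), ← h1]
  refine setIntegral_mono_on ((hc.comp (continuous_const_smul _)).continuousOn.integrableOn_compact
    (isCompact_closedBall _ _)) (hc.continuousOn.integrableOn_compact (isCompact_closedBall _ _))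
    measurableSet_closedBall fun z _ => Real.exp_le_exp.2 ?_
  have : 0 ≤ m * nq A z := mul_nonneg hm (hA.re_dotProduct_nonneg z)
  rw [nq_two]
  linarith

theorem inv_le {T : Mat n} (h : HS78.Bd 2 T) (v : E n) {b : ℝ} (hv : ∀ i, ‖v i‖ ≤ b) :
    (star v ⬝ᵥ T⁻¹ *ᵥ v).re ≤ 2 * (n * b ^ 2) := by
  have a := (h.inv two_pos).2.re_dotProduct_nonneg v
  rw [Matrix.sub_mulVec, dotProduct_sub, Matrix.smul_mulVec, Matrix.one_mulVec, dotProduct_smul,
    smul_eq_mul, RCLike.re_to_complex, sub_re, re_ofReal_mul] at a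
  have c : (star v ⬝ᵥ v).re ≤ n * b ^ 2 := by
    rw [dotProduct, re_sum]
    refine (Finset.sum_le_card_nsmul _ _ (b ^ 2) fun i _ => ?_).trans_eq (by simp)
    rw [Pi.star_apply, star_def, ← normSq_eq_conj_mul_self, ofReal_re, normSq_eq_norm_sq]
    exact pow_le_pow_left₀ (norm_nonneg _) (hv i) 2
  linarith

theorem bump (n : ℕ) : ∃ D : ℝ, 0 < D ∧ ∀ s : ℝ, 0 < s → ∃ χ : E n → ℝ, ContDiff ℝ ∞ χ ∧
    (∀ z ∈ closedBall (0 : E n) (s / 2), χ z = 1) ∧ (∀ z ∉ closedBall (0 : E n) s, χ z = 0) ∧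
    ∀ z i, ‖dzb i (fun y => (χ y : ℂ)) z‖ ≤ D / s := by
  let b : ContDiffBump (0 : E n) := ⟨1 / 2, 1, by norm_num, by norm_num⟩
  have hb : ContDiff ℝ ∞ b := b.contDiff
  obtain ⟨D, hD⟩ := (b.hasCompactSupport.fderiv ℝ).exists_bound_of_continuous
    (hb.continuous_fderiv (by simp))
  have D0 : 0 ≤ D := (norm_nonneg _).trans (hD 0)
  refine ⟨D + 1, by positivity, fun s hs => ?_⟩
  have hn : ∀ z : E n, ‖s⁻¹ • z‖ = ‖z‖ / s := fun z => by
    rw [norm_smul, Real.norm_of_nonneg (by positivity), inv_mul_eq_div]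
  have hc : ContDiff ℝ ∞ fun z : E n => b (s⁻¹ • z) := hb.comp (contDiff_const_smul _)
  refine ⟨_, hc, fun z hz => b.one_of_mem_closedBall ?_, fun z hz => b.zero_of_le_dist ?_,
    fun z i => ?_⟩
  · rw [mem_closedBall_zero_iff] at hz ⊢
    rw [hn, div_le_iff₀ hs]
    show _ ≤ 1 / 2 * s
    linarith
  · rw [mem_closedBall_zero_iff, not_le] at hz
    rw [dist_zero_right, hn, le_div_iff₀ hs]
    show 1 * s ≤ _
    linarith
  · have h1 : ∀ v : E n, ‖v‖ ≤ 1 → ‖fderiv ℝ (fun y : E n => (b (s⁻¹ • y) : ℂ)) z v‖ ≤ D / s :=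
      fun v hv => by
        rw [fderiv_ofReal (hc.differentiable (by simp) z), norm_real]
        have := ((hb.differentiable (by simp) (s⁻¹ • z)).hasFDerivAt.comp z
          ((hasFDerivAt_id z).const_smul s⁻¹)).fderiv
        rw [show (fun y : E n => b (s⁻¹ • y)) = b ∘ HSMul.hSMul s⁻¹ from rfl, this]
        refine ((fderiv ℝ b (s⁻¹ • z)).le_opNorm (s⁻¹ • v)).trans ?_
        rw [hn, ← mul_div_assoc]
        exact div_le_div_of_nonneg_right
          ((mul_le_mul (hD _) hv (norm_nonneg _) D0).trans_eq (mul_one D)) hs.le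
    have h2 := h1 (Pi.single i 1) (by rw [Pi.norm_single, norm_one])
    have h3 := h1 (Pi.single i I) (by rw [Pi.norm_single, norm_I])
    rw [dzb, norm_div, RCLike.norm_two, div_le_iff₀ two_pos]
    refine (norm_add_le _ _).trans ?_
    rw [norm_mul, norm_I, one_mul]
    have : D / s ≤ (D + 1) / s := div_le_div_of_nonneg_right (by linarith) hs.le
    linarith

theorem wt {d w r c : ℝ} {m : ℕ} (hd : 0 < d) :
    d * (c * Real.exp (2 * r) / d ^ (m + 1) * Real.exp (-(m * w))) =
      c * Real.exp (-(m * (Real.log d + w) - 2 * r)) := by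
  have : Real.exp (-(m * (Real.log d + w) - 2 * r)) =
      Real.exp (2 * r) * Real.exp (-(m * w)) / d ^ m := by
    rw [eq_div_iff (by positivity), ← Real.exp_log (pow_pos hd m), ← Real.exp_add, ← Real.exp_add,
      Real.log_pow]
    congr 1
    ring
  rw [this, pow_succ]
  field_simp

end W10

open W10 Mf in
theorem st_WPK : St_WPK := by
  intro n
  obtain ⟨D, hD, hχ⟩ := bump n
  refine ⟨2 * ((n + 1) * D ^ 2) * Real.exp 1 * 2 ^ Module.finrank ℝ (E n) * Real.exp 1,
    by positivity, fun M _ T w m s e hT hw hs ⟨he, hsub, hbd, p, hp, hq⟩ hθ => ?_⟩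
  obtain ⟨χ, c1, c2, c3, c4⟩ := hχ s hs
  have hp' : ∀ z, HolN (fun y => exp (p y)) z := fun z =>
    Eventually.of_forall fun y => (hp y).cexp
  have sp : ∀ z, ContDiffAt ℝ ∞ (fun y => exp (p y)) z := fun z => ((mHOL n _ z).2.2 (hp' z)).1
  have sc : ∀ z, ContDiffAt ℝ ∞ (fun y => (χ y : ℂ)) z := fun z => cd_ofReal c1.contDiffAt
  obtain ⟨σ, s1, s2, s3⟩ := (mCOV n M).2.2.2.2.1 e he (m + 1) _ (fun y => χ y * exp (p y))
    (isCompact_closedBall 0 s) hsub (fun z _ => (sc z).mul (sp z)) fun z _ hz => by simp [c3 z hz]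
  obtain ⟨-, -, r0, k0, -, -, r1, -, n1, -⟩ := HS.st_SC5 mTR mCHN mHOL n M T (m + 1) σ σ hT s1 s1
  obtain ⟨-, -, -, -, i0, -⟩ := (mMU n M T hT).2.2.2.2.2.1 e he _ measurableSet_closedBall hsub
  have hK : IsClosed (e.symm '' closedBall 0 s) :=
    ((isCompact_closedBall 0 s).image_of_continuousOn (e.continuousOn_symm.mono hsub)).isClosed
  have dp : ∀ z ∈ closedBall (0 : E n) s, 0 < (T e z).det.re := fun z hz =>
    pd_det_re (hT.pos e he z (hsub hz))
  have ne : ∀ z, normSq (exp (p z)) = Real.exp (2 * (p z).re) := fun z => by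
    rw [normSq_eq_norm_sq, norm_exp, ← Real.exp_nat_mul, Nat.cast_ofNat]
  have hc : Continuous fun z : E n => Real.exp (-(m * nq (M.theta T w e 0) z)) :=
    ((nq_cont _).const_mul _).neg.rexp
  have ic : ∀ r, IntegrableOn (fun z : E n => Real.exp (-(m * nq (M.theta T w e 0) z)))
      (closedBall 0 r) := fun r => hc.continuousOn.integrableOn_compact (isCompact_closedBall _ _)
  have hh : closedBall (0 : E n) (s / 2) ⊆ closedBall 0 s :=
    closedBall_subset_closedBall (half_le_self hs.le)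
  have a0 : ∫ z in closedBall (0 : E n) (s / 2), Real.exp (-(m * nq (M.theta T w e 0) z)) ≤
      Real.exp 1 * M.wn0 T w m σ := by
    have ci : IntegrableOn (fun z => (T e z).det.re *
        (M.nr T (m + 1) σ (e.symm z) * Real.exp (-(m * w (e.symm z))))) (closedBall 0 s) :=
      ContinuousOn.integrableOn_compact (isCompact_closedBall _ _) fun z hz =>
        ((cd_re (hT.sm e he z (hsub hz)).det).continuousAt.mul
          ((k0.mul (hw.continuous.const_mul _).neg.rexp).continuousAt.comp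
            (e.continuousAt_symm (hsub hz)))).continuousWithinAt
    rw [wn0, i0 _ fun x hx => by
      rw [nr, ev, s3 _ (ch_mem x) _ (ch_tgt x) (by rwa [ch_symm]), normSq_zero, zero_div, zero_mul],
      ← integral_const_mul]
    refine le_trans (setIntegral_mono_on (ic _) ((ci.mono_set hh).const_mul _)
      measurableSet_closedBall fun z hz => ?_) (setIntegral_mono_set (ci.const_mul _)
        ((ae_restrict_iff' measurableSet_closedBall).2 (ae_of_all _ fun z hz =>
          mul_nonneg (Real.exp_pos _).le (mul_nonneg (dp z hz).le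
            (mul_nonneg (n1 _).1 (Real.exp_pos _).le)))) hh.eventuallyLE)
    have e0 : M.nr T (m + 1) σ (e.symm z) =
        1 * Real.exp (2 * (p z).re) / (T e z).det.re ^ (m + 1) := by
      refine (r0 e he z (hsub (hh hz))).trans ?_
      simp only [s2 z (hsub (hh hz)), c2 z hz, ofReal_one, one_mul, ne]
    rw [e0, wt (dp z (hh hz)), one_mul, ← Real.exp_add]
    exact Real.exp_le_exp.2 (by linarith [(abs_le.1 (hq z (hh hz))).2])
  have a1 : s ^ 2 * M.wn1 T w m σ ≤ 2 * ((n + 1) * D ^ 2) * Real.exp 1 *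
      ∫ z in closedBall (0 : E n) s, Real.exp (-(m * nq (M.theta T w e 0) z)) := by
    rw [wn1, i0 _ fun x hx => by
      have z0 : HS.db M σ (M.ch x) (M.ch x x) = 0 := funext fun i => by
        have h1 : ∀ᶠ y in 𝓝 (M.ch x x), (M.ch x).symm y ∉ e.symm '' closedBall 0 s :=
          ((M.ch x).continuousAt_symm (ch_tgt x)).eventually
            (hK.isOpen_compl.mem_nhds (by rwa [ch_symm]))
        have h2 : σ (M.ch x) =ᶠ[𝓝 (M.ch x x)] fun _ => 0 :=
          (h1.and (AllOn.ev s3 (ch_mem x) (ch_tgt x))).mono fun y hy => hy.2 hy.1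
        exact (dzb_congr h2).trans (dzb_const 0)
      rw [HS.dp, ev, z0]
      simp, ← integral_const_mul, ← integral_const_mul]
    refine integral_mono_of_nonneg ((ae_restrict_iff' measurableSet_closedBall).2 (ae_of_all _
      fun z hz => mul_nonneg (sq_nonneg s) (mul_nonneg (dp z hz).le
        (mul_nonneg (n1 _).2.2.1 (Real.exp_pos _).le)))) ((ic s).const_mul _)
      ((ae_restrict_iff' measurableSet_closedBall).2 (ae_of_all _ fun z hz => ?_))
    have hz' := hsub hz
    have b1 : ∀ i, ‖HS.db M σ e z i‖ ≤ D / s * ‖exp (p z)‖ := fun i => by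
      have h2 : σ e =ᶠ[𝓝 z] fun y => χ y * exp (p y) :=
        (e.open_target.eventually_mem hz').mono s2
      rw [HS.db, dzb_congr h2, dzb_mul (cd_diff (sc z)) (cd_diff (sp z)),
        ((mHOL n _ z).1 (cd_diff (sp z))).1 (hp z).cexp i, mul_zero]
      simp only [add_zero, norm_mul]
      exact mul_le_mul_of_nonneg_right (c4 z i) (norm_nonneg _)
    have b2 := inv_le (hbd z hz) _ b1
    rw [mul_pow, ← normSq_eq_norm_sq, ne] at b2
    have e1 : (HS.dp M T (m + 1) σ σ (e.symm z)).re =
        (star (HS.db M σ e z) ⬝ᵥ (T e z)⁻¹ *ᵥ HS.db M σ e z).re / (T e z).det.re ^ (m + 1) := by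
      refine (congrArg re (r1 e he z hz')).trans ?_
      simp only
      rw [← herm_det (hT.herm e he z hz'), ← ofReal_pow, div_ofReal_re, ofReal_re]
    have b3 : (HS.dp M T (m + 1) σ σ (e.symm z)).re ≤
        2 * (n * (D / s) ^ 2) * Real.exp (2 * (p z).re) / (T e z).det.re ^ (m + 1) := by
      rw [e1]
      exact div_le_div_of_nonneg_right (b2.trans_eq (by ring)) (pow_pos (dp z hz) _).le
    have b4 := mul_le_mul_of_nonneg_left (mul_le_mul_of_nonneg_right b3
      (Real.exp_pos (-(m * w (e.symm z)))).le) (dp z hz).le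
    rw [wt (dp z hz)] at b4
    refine (mul_le_mul_of_nonneg_left b4 (sq_nonneg s)).trans ?_
    simp only
    rw [← mul_assoc, mul_assoc _ (Real.exp 1), ← Real.exp_add]
    refine mul_le_mul ?_ (Real.exp_le_exp.2 (by linarith [(abs_le.1 (hq z hz)).1]))
      (Real.exp_pos _).le (by positivity)
    rw [show s ^ 2 * (2 * (n * (D / s) ^ 2)) = 2 * (n * D ^ 2) by field_simp]
    nlinarith [sq_nonneg D]
  refine ⟨σ, s1, s3, ?_, ?_⟩
  · refine pos_of_mul_pos_right (lt_of_lt_of_le ?_ a0) (Real.exp_pos 1).le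
    refine (setIntegral_pos_iff_support_of_nonneg_ae (ae_of_all _ fun z => (Real.exp_pos _).le)
      (ic _)).2 ?_
    rw [Function.support_eq_univ fun z => (Real.exp_pos _).ne', univ_inter]
    exact measure_closedBall_pos _ _ (half_pos hs)
  · refine a1.trans ?_
    rw [mul_assoc _ (Real.exp 1) (M.wn0 T w m σ), mul_assoc _ (2 ^ _ : ℝ)]
    exact mul_le_mul_of_nonneg_left ((gauss hθ m.cast_nonneg hs).trans
      (mul_le_mul_of_nonneg_left a0 (by positivity))) (by positivity)

end Pool.Agent.Lib.HW27
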