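import Pool.Agent.Lib.HW27.Blue
import Pool.Agent.Lib.HS.B_SC5
import Pool.Agent.Lib.HS32.MAll

/-! Row WPS: the space spanned by peak sections with disjoint supports. -/

open scoped Classical Topology ContDiff ComplexOrder Matrix
open Set MeasureTheory Complex Metric Filter

noncomputable section

namespace Pool.Agent.Lib.HW27

open Pool.Agent.Lib.SV (E)
open Pool.Agent.Lib.HS32

namespace W8

theorem q_sum {V J : Type} [AddCommGroup V] [Module ℂ V] [Fintype J] (q : V → ℝ)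
    (hq : ∀ (c : ℂ) v, q (c • v) = normSq c * q v) (v : J → V)
    (h : Pairwise fun i j => v i = 0 ∨ v j = 0) (b : J → ℂ) :
    q (∑ i, b i • v i) = ∑ i, normSq (b i) * q (v i) := by
  have q0 : q 0 = 0 := by simpa using hq 0 0
  by_cases hex : ∃ j, v j ≠ 0
  · obtain ⟨j, hj⟩ := hex
    have h0 : ∀ i, i ≠ j → v i = 0 := fun i hi => (h hi).resolve_right hj
    rw [Finset.sum_eq_single j (fun i _ hi => by rw [h0 i hi, smul_zero]) (by simp),
      Finset.sum_eq_single j (fun i _ hi => by rw [h0 i hi, q0, mul_zero]) (by simp), hq]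
  · have h0 : ∀ i, v i = 0 := fun i => not_not.mp fun hi => hex ⟨i, hi⟩
    simp [h0, q0]

variable {n : ℕ} {M : Mf n}

theorem db_sum {J : Type} [Fintype J] {k : ℕ} (σ : J → M.Fam ℂ) (hσ : ∀ i, M.Sec k (σ i))
    (b : J → ℂ) (x : M.X) :
    M.ev (HS.db M (∑ i, b i • σ i)) x = ∑ i, b i • M.ev (HS.db M (σ i)) x := by
  have e1 : (∑ i, b i • σ i) (M.ch x) = fun z => ∑ i, b i • σ i (M.ch x) z := by
    funext z
    simp only [Finset.sum_apply, Pi.smul_apply]
  have e2 : HasFDerivAt (fun z => ∑ i, b i • σ i (M.ch x) z)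
      (∑ i, b i • fderiv ℝ (σ i (M.ch x)) (M.ch x x)) (M.ch x x) :=
    HasFDerivAt.fun_sum fun i _ =>
      ((((hσ i).sm.ch x).differentiableAt (by simp)).hasFDerivAt).const_smul (b i)
  funext l
  simp only [Mf.ev, HS.db, dzb, e1]
  rw [e2.fderiv]
  simp only [Mf.ev, HS.db, dzb, Finset.sum_apply, Pi.smul_apply, smul_eq_mul,
    ContinuousLinearMap.sum_apply, ContinuousLinearMap.smul_apply, Finset.mul_sum,
    ← Finset.sum_add_distrib, Finset.sum_div]
  exact Finset.sum_congr rfl fun i _ => by ring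

theorem vanish {σ : M.Fam ℂ} {K : Set M.X} (hK : IsClosed K)
    (h : M.All fun e' z => e'.symm z ∉ K → σ e' z = 0) {x : M.X} (hx : x ∉ K) :
    M.ev σ x = 0 ∧ M.ev (HS.db M σ) x = 0 := by
  have h1 : σ (M.ch x) =ᶠ[𝓝 (M.ch x x)] fun _ => 0 := by
    have c1 : ContinuousAt (M.ch x).symm (M.ch x x) := (M.ch x).continuousAt_symm (Mf.ch_tgt x)
    have c2 : Kᶜ ∈ 𝓝 ((M.ch x).symm (M.ch x x)) := by
      rw [Mf.ch_symm]
      exact hK.isOpen_compl.mem_nhds hx
    filter_upwards [c1.preimage_mem_nhds c2, (M.ch x).open_target.mem_nhds (Mf.ch_tgt x)]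
      with z hz hz'
    exact h _ (Mf.ch_mem x) z hz' hz
  refine ⟨h1.eq_of_nhds, funext fun l => ?_⟩
  simp [Mf.ev, HS.db, dzb, h1.fderiv_eq]

theorem wn_sum [M.Cpt] {T : M.Fam (Mat n)} {w : M.X → ℝ} (hT : M.Met T) (hw : Continuous w)
    (m : ℕ) {J : Type} [Fintype J] (σ : J → M.Fam ℂ) (hσ : ∀ i, M.Sec (m + 1) (σ i))
    (K : J → Set M.X) (hK : ∀ i, IsClosed (K i)) (hd : Pairwise fun i j => Disjoint (K i) (K j))
    (h : ∀ i, M.All fun e' z => e'.symm z ∉ K i → σ i e' z = 0) (b : J → ℂ) :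
    M.wn0 T w m (∑ i, b i • σ i) = ∑ i, normSq (b i) * M.wn0 T w m (σ i) ∧
    M.wn1 T w m (∑ i, b i • σ i) = ∑ i, normSq (b i) * M.wn1 T w m (σ i) := by
  have hi := (mMU n M T hT).2.2.2.2.1 ℝ
  have hSC := fun i => HS.st_SC5 mTR mCHN mHOL n M T (m + 1) (σ i) (σ i) hT (hσ i) (hσ i)
  have hv : ∀ x, Pairwise fun i j => x ∉ K i ∨ x ∉ K j := fun x i j hij => by
    by_contra hc
    rw [not_or, not_not, not_not] at hc
    exact Set.disjoint_left.mp (hd hij) hc.1 hc.2
  constructor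
  · have e : ∀ x, M.nr T (m + 1) (∑ i, b i • σ i) x
        = ∑ i, normSq (b i) * M.nr T (m + 1) (σ i) x := by
      intro x
      have e1 : M.ev (∑ i, b i • σ i) x = ∑ i, b i • M.ev (σ i) x := by
        simp only [Mf.ev, Finset.sum_apply, Pi.smul_apply]
      unfold Mf.nr
      rw [e1]
      exact q_sum (fun v : ℂ => normSq v / (M.ev T x).det.re ^ (m + 1))
        (fun c v => by rw [smul_eq_mul, normSq_mul, mul_div_assoc]) (fun i => M.ev (σ i) x)
        (fun i j hij => (hv x hij).imp (fun a => (vanish (hK i) (h i) a).1)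
          fun a => (vanish (hK j) (h j) a).1) b
    unfold Mf.wn0
    simp only [e, Finset.sum_mul, mul_assoc]
    rw [integral_finsetSum _ fun i _ => hi _ (by have := (hSC i).2.2.2.1; fun_prop)]
    simp only [integral_const_mul]
  · have e : ∀ x, (HS.dp M T (m + 1) (∑ i, b i • σ i) (∑ i, b i • σ i) x).re
        = ∑ i, normSq (b i) * (HS.dp M T (m + 1) (σ i) (σ i) x).re := by
      intro x
      unfold HS.dp
      rw [db_sum σ hσ b x]
      refine q_sum (fun v : E n => ((star v ⬝ᵥ (M.ev T x)⁻¹ *ᵥ v) / (M.ev T x).det ^ (m + 1)).re)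
        (fun c v => ?_) (fun i => M.ev (HS.db M (σ i)) x)
        (fun i j hij => (hv x hij).imp (fun a => (vanish (hK i) (h i) a).2)
          fun a => (vanish (hK j) (h j) a).2) b
      rw [← Complex.re_ofReal_mul, normSq_eq_conj_mul_self, star_smul, Matrix.mulVec_smul,
        smul_dotProduct, dotProduct_smul, smul_eq_mul, smul_eq_mul, ← mul_assoc, mul_div_assoc]
      rfl
    unfold Mf.wn1
    simp only [e, Finset.sum_mul, mul_assoc]
    rw [integral_finsetSum _ fun i _ => hi _ (by have := (hSC i).2.2.2.2.2.2.2.1; fun_prop)]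
    simp only [integral_const_mul]

end W8

theorem st_WPS (hN1 : St_WN1) (hPK : St_WPK) : St_WPS := by
  intro n M _
  obtain ⟨c, hc, h1⟩ := hN1 n M
  obtain ⟨C, hC, h2⟩ := hPK n
  have hR : 0 < √(64 * C) := Real.sqrt_pos.mpr (by positivity)
  refine ⟨c / √(64 * C) ^ (2 * n), by positivity, fun T w Ω h => ?_⟩
  have hT : M.Met T := h.kae.toMet
  filter_upwards [h1 T w _ Ω hT h.sm hR h.cl, eventually_gt_atTop 0] with m ⟨J, _, e, a1, a2, a3⟩ hm
  have hm' : (0 : ℝ) < m := by exact_mod_cast hm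
  have hs : 0 < √(64 * C) / √m := div_pos hR (Real.sqrt_pos.mpr hm')
  have hs2 : (√(64 * C) / √m) ^ 2 = 64 * C / m := by
    rw [div_pow, Real.sq_sqrt (by positivity), Real.sq_sqrt hm'.le]
  have hpsd : ∀ j, (M.theta T w (e j) 0).PosSemidef := by
    intro j
    have t0 : (0 : E n) ∈ (e j).target := (a1 j).1.sub (mem_closedBall_self hs.le)
    have p1 := h.pos _ (a1 j).1.mem 0 t0 (a1 j).2
    have p2 : ((1 / 2 : ℝ) • T (e j) 0).PosSemidef :=
      (hT.pos _ (a1 j).1.mem 0 t0).posSemidef.smul (by norm_num)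
    simpa using p1.add p2
  choose σ s1 s2 s3 s4 using fun j => h2 M T w m _ (e j) hT h.sm hs (a1 j).1 (hpsd j)
  have hK : ∀ j, IsClosed ((e j).symm '' closedBall 0 (√(64 * C) / √m)) := fun j =>
    ((isCompact_closedBall _ _).image_of_continuousOn
      ((e j).continuousOn_symm.mono (a1 j).1.sub)).isClosed
  let r : J → ℂ := fun j => ((√(M.wn0 T w m (σ j)))⁻¹ : ℝ)
  have hr : ∀ j, normSq (r j) = (M.wn0 T w m (σ j))⁻¹ := fun j => by
    rw [normSq_ofReal, ← mul_inv, Real.mul_self_sqrt (s3 j).le]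
  refine ⟨J, inferInstance, fun j => r j • σ j, ?_, fun j =>
    (HS.st_SC5 mTR mCHN mHOL n M T (m + 1) (σ j) (σ j) hT (s1 j) (s1 j)).2.1 _, fun a => ?_⟩
  · rw [div_mul_eq_mul_div, div_mul_eq_mul_div, div_le_iff₀ (by positivity)]
    exact a3
  · simp only [smul_smul]
    obtain ⟨w0, w1⟩ := W8.wn_sum hT h.sm.continuous m σ s1 _ hK a2 s2 fun i => a i * r i
    rw [w0, w1, Finset.mul_sum]
    refine ⟨Finset.sum_congr rfl fun i _ => ?_, Finset.sum_le_sum fun i _ => ?_⟩
    · rw [normSq_mul, hr, mul_assoc, inv_mul_cancel₀ (s3 i).ne', mul_one]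
    · rw [normSq_mul, hr, mul_assoc, mul_comm ((m : ℝ) / 64)]
      refine mul_le_mul_of_nonneg_left ?_ (normSq_nonneg _)
      have b1 := s4 i
      rw [hs2, div_mul_eq_mul_div, div_le_iff₀ hm'] at b1
      rw [inv_mul_le_iff₀ (s3 i)]
      refine le_of_mul_le_mul_left ?_ hC
      linarith

end Pool.Agent.Lib.HW27
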