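import Pool.Agent.Lib.HW27.Blue
import Pool.Agent.Lib.HS32.MAll
import Pool.Agent.Lib.HS.B_SIU
import Pool.Agent.Lib.HS.B_SC5
import Pool.Agent.Lib.HS.B_BOXOK

/-! Project hw: the inequality of Hörmander and Siu with the gradient term. -/

open scoped Classical Topology ContDiff ComplexOrder Matrix
open Set MeasureTheory Complex Metric Filter

noncomputable section

namespace Pool.Agent.Lib.HW27

open Pool.Agent.Lib.SV (E)
open Pool.Agent.Lib.HS32
open Pool.Agent.Lib.HS (boxOp wq st_SC5 st_BOXOK)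
open Pool.Agent.Lib.HS.SIUK (v1 v2 ph_sm box_eq hess_ph exp_ph vden1 vden2)
open Pool.Agent.Lib.HS68 (dual wdv met_loc clo_kl Loc Kl)

namespace W48

variable {n : ℕ}

theorem sq_le {H Z : Mat n} (hH : HS78.Bd 2 H) (hs : (H * Z).IsSymm) :
    ∑ k, ∑ l, normSq (Z k l) ≤ 4 * (∑ k, ∑ l, Z k l * star (Z l k)).re := by
  have hp := hH.posDef two_pos
  have hi := hH.inv two_pos
  have hT : Z = H⁻¹ * (H * Z) := by
    rw [← Matrix.mul_assoc, Matrix.nonsing_inv_mul _ (Ne.isUnit hp.det_pos.ne'), Matrix.one_mul]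
  have h2 : (H⁻¹)ᵀ * (H * Z)ᴴ = Zᴴᵀ := by
    conv_rhs => rw [hT, Matrix.conjTranspose_mul, hp.inv.1.eq, Matrix.transpose_mul]
    congr 1
    conv_lhs => rw [← hs.eq]
    rfl
  have h3 : ∑ k, ∑ l, Z k l * star (Z l k) = (H * (Z * (H⁻¹)ᵀ * Zᴴ)).trace := by
    rw [Matrix.trace_mul_comm, Matrix.mul_assoc, Matrix.mul_assoc]
    conv_rhs => rw [← hp.1.eq, ← Matrix.conjTranspose_mul, hp.1.eq, h2]
    rfl
  have h4 := HS78.tr_mul_ge hH.1 (hp.inv.posSemidef.transpose.mul_mul_conjTranspose_same Z)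
  have h5 : ((H⁻¹)ᵀ - (((2 : ℝ)⁻¹ : ℝ) : ℂ) • (1 : Mat n)).PosSemidef := by
    have := hi.1.transpose
    rwa [Matrix.transpose_sub, Matrix.transpose_smul, Matrix.transpose_one] at this
  have h6 := HS78.tr_mul_ge h5 (Matrix.posSemidef_conjTranspose_mul_self Z)
  rw [← Matrix.mul_assoc, Matrix.trace_mul_comm ((H⁻¹)ᵀ * Zᴴ), ← Matrix.mul_assoc,
    Matrix.trace_mul_comm Zᴴ] at h6
  have h7 : (Z * Zᴴ).trace.re = ∑ k, ∑ l, normSq (Z k l) := by
    simp [Matrix.trace, Matrix.mul_apply, Complex.mul_conj]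
  rw [h3, ← h7]
  linarith

theorem hor_symm {H : E n → Mat n} {z : E n} (h : Loc H z) (hK : Kl H z) {s : E n → ℂ}
    (hs : ContDiffAt ℝ ∞ s z) :
    (H z * Matrix.of fun k l => dzb l (fun x => dual H s x k) z).IsSymm := by
  obtain ⟨M, hM, h1, hu⟩ := h.rep
  obtain ⟨b, hb⟩ := HS68.exists_rep hs
  have h2 : HS68.RepM (Matrix.of fun k l => (HS68.germDR z).db l
      ((M⁻¹ *ᵥ fun i => (HS68.germDR z).db i b) k))
      fun w => Matrix.of fun k l => dzb l (fun x => dual H s x k) w := fun k l =>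
    (HS68.rep_dual hM h.det_ne hb k).db l
  have h3 := (HS68.germDR z).hor_symm h1 hu (hM.kl hK) b
  exact Matrix.IsSymm.ext fun i j => (hM.mul h2 j i).val (hM.mul h2 i j) (h3.apply i j)

variable {M : Mf n} {H : M.Fam (Mat n)} {m : ℕ} {w : M.X → ℝ} {s : M.Fam ℂ} {e : M.Ch} {z : E n}

theorem point (hH : M.Kae H) (hw : M.Sm w) (hs : M.Sec (m + 1) s) (he : e ∈ M.C)
    (hz : z ∈ e.target) :
    normSq ((boxOp M H (m + 1) w).ap s e z) / (H e z).det.re ^ (m + 1) -
      nq ((M.hs w - (m : ℝ) • M.ric H) e z) (dual (H e) (s e) z) / (H e z).det.re ^ (m + 1) -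
      Real.exp (w (e.symm z)) * (dvb (v1 M H m w s e) z / (H e z).det -
        dv (v2 M H m w s e) z / (H e z).det).re =
    (∑ k, ∑ l, dzb l (fun x => dual (H e) (s e) x k) z *
      star (dzb k (fun x => dual (H e) (s e) x l) z)).re / (H e z).det.re ^ (m + 1) := by
  have L := met_loc hH.toMet he hz
  have s0 := hs.sm _ he _ hz
  have h1 := HS68.hor_div (ph_sm (m := m) hH.toMet hw he hz) (L.smooth_dual s0)
  have h3 := Mf.pd_det_re L.pos
  have h4 : dvb (v1 M H m w s e) z / (H e z).det - dv (v2 M H m w s e) z / (H e z).det = _ :=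
    (sub_div _ _ _).symm.trans (congrArg (· / (H e z).det) h1)
  rw [h4, box_eq hH hw hs he hz, hess_ph hH.toMet hw he hz, exp_ph hH.toMet he hz,
    ← Mf.herm_det L.pos.1, div_ofReal_re, re_mul_ofReal, ofReal_re, sub_re, sub_re,
    show ∀ a : ℂ, a * star a = (normSq a : ℂ) from mul_conj, ofReal_re, Real.exp_neg, nq, pow_succ]
  have h5 := (Real.exp_pos (w (e.symm z))).ne'
  field_simp
  ring

end W48

open W48 in
theorem st_WSI : St_WSI := by
  intro n
  refine ⟨4, four_pos, fun M hM H w m s hH hw hs => ?_⟩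
  have hSC := st_SC5 mTR mCHN mHOL
  have hBOX := st_BOXOK mCHN mHOL mTR mINV
  have hm := hH.toMet
  have hW : M.Sm fun x => (m : ℝ) * w x := hw.const_mul _
  have hint := (mMU n M H hm).2.2.2.2.1
  obtain ⟨a0, a1, a2⟩ := (mDIV n M H hm).2.2 _ (vden1 mCHN mTR hBOX hH hW hs)
  obtain ⟨b0, b1, b2⟩ := (mDIV n M H hm).2.1 _ (vden2 mCHN mTR hm hW hs)
  have i1 := hint ℂ _ a1.continuous
  have i2 := hint ℂ _ b1.continuous
  have i3 := (i1.sub i2).re
  have h1 := integral_re (i1.sub i2)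
  rw [integral_sub' i1 i2, a2 hM, b2 hM, sub_zero, map_zero] at h1
  have hT : M.Ten ((m : ℝ) • M.theta H w) :=
    (((mHES n M).1 w hw).toTen.sub ((mHES n M).2.2.2.2.2.2.2.2.1 H hm).toTen).smul m
  have hb := (hBOX n M H (m + 1) _ hm hW).sec s hs
  obtain ⟨q1, q2⟩ := (hSC n M H (m + 1) s s hm hs hs).2.2.2.2.2.2.2.2.2 _ hT
  obtain ⟨-, -, r1, r2, -⟩ := hSC n M H (m + 1) _ _ hm hb hb
  have ce : Continuous fun x => Real.exp (-(m * w x)) := hW.neg.exp.continuous
  obtain ⟨b, hbe⟩ : ∃ b : M.X → ℝ, b = fun x =>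
      M.nr H (m + 1) ((boxOp M H (m + 1) fun x => m * w x).ap s) x -
        wq M H (m + 1) ((m : ℝ) • M.theta H w) s x - Real.exp (m * w x) *
        (M.ev (fun e z => dvb (v1 M H m (fun x => m * w x) s e) z / (H e z).det) x -
          M.ev (fun e z => dv (v2 M H m (fun x => m * w x) s e) z / (H e z).det) x).re := ⟨_, rfl⟩
  have key : M.All fun e z => b (e.symm z) = (∑ k, ∑ l, dzb l (fun x => dual (H e) (s e) x k) z *
      star (dzb k (fun x => dual (H e) (s e) x l) z)).re / (H e z).det.re ^ (m + 1) := by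
    intro e he z hz
    have t : ((m : ℝ) • M.theta H w) e z = (M.hs (fun x => m * w x) - (m : ℝ) • M.ric H) e z := by
      simp only [Mf.theta, Pi.smul_apply, Pi.sub_apply, smul_sub,
        ((mLAP n M w w hw hw).1 m e he z hz).2.2.2.1]
    rw [← point hH hW hs he hz, hbe]
    beta_reduce
    rw [r1 e he z hz, q1 e he z hz, a0.rep e he z hz, b0.rep e he z hz, ← t]
    rfl
  refine ⟨b, ?_, fun x => ?_, ?_, fun e he z hz hd => ?_⟩
  · rw [hbe]
    exact (r2.sub q2).sub (hW.exp.continuous.mul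
      (continuous_re.comp (a1.continuous.sub b1.continuous)))
  · have he := Mf.ch_mem x
    have hz := Mf.ch_tgt x
    have L := met_loc hm he hz
    have := key _ he _ hz
    beta_reduce at this
    rw [Mf.ch_symm] at this
    rw [this]
    exact div_nonneg (Complex.nonneg_iff.1 (L.hor_nonneg (clo_kl hH.toClo he hz)
      (hs.sm _ he _ hz))).1 (pow_pos (Mf.pd_det_re L.pos) _).le
  · have i5 := hint ℝ _ (r2.mul ce)
    have h2 := integral_sub' i5 i3
    rw [h1, sub_zero] at h2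
    refine le_of_eq (Eq.trans (integral_congr_ae (Eventually.of_forall fun x => ?_)) h2)
    have h5 := (Real.exp_pos (m * w x)).ne'
    simp only [hbe, Pi.sub_apply, Pi.mul_apply, RCLike.re_to_complex, Real.exp_neg]
    field_simp
    ring
  · have L := met_loc hm he hz
    rw [key e he z hz, ← mul_div_assoc]
    exact div_le_div_of_nonneg_right
      (sq_le hd (hor_symm L (clo_kl hH.toClo he hz) (hs.sm e he z hz)))
      (pow_pos (Mf.pd_det_re L.pos) _).le

end Pool.Agent.Lib.HW27
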