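import Pool.Agent.Lib.HW27.Blue
import Pool.Agent.Lib.HS.K21
import Pool.Agent.Lib.HS.B_SC5
import Pool.Agent.Lib.HS32.MAll

/-! Project hw, part B: linear combinations of sections. -/

open scoped Classical Topology ContDiff ComplexOrder Matrix
open Set MeasureTheory Complex Metric Filter

noncomputable section

namespace Pool.Agent.Lib.HW27

open Pool.Agent.Lib.SV (E)
open Pool.Agent.Lib.HS32 Pool.Agent.Lib.HS32.Mf
open Pool.Agent.Lib.HS (db sp dp St_SC5 st_SC5)

variable {n : ℕ} {M : Mf n} {T : M.Fam (Mat n)} {w : M.X → ℝ} {m p : ℕ} {J J' : Type}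
  [Fintype J] [Fintype J'] {σ : J → M.Fam ℂ} {σ' : J' → M.Fam ℂ} {e : M.Ch} {z : E n}

theorem sum_fun (a : J → ℂ) (σ : J → M.Fam ℂ) (e : M.Ch) :
    (∑ i, a i • σ i) e = fun z => ∑ i, a i * σ i e z := by
  funext z
  simp only [Finset.sum_apply, Pi.smul_apply, smul_eq_mul]

theorem ev_sum (a : J → ℂ) (σ : J → M.Fam ℂ) (x : M.X) :
    M.ev (∑ i, a i • σ i) x = ∑ i, a i * M.ev (σ i) x := by
  simp only [Mf.ev, sum_fun]

theorem sec_sum (h : ∀ i, M.Sec p (σ i)) (a : J → ℂ) : M.Sec p (∑ i, a i • σ i) := by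
  refine ⟨fun e he z hz => ?_, fun e he e' he' x hx hx' => ?_⟩
  · beta_reduce
    rw [sum_fun]
    exact ContDiffAt.sum fun i _ => contDiffAt_const.mul ((h i).sm e he z hz)
  · simp only [sum_fun, Finset.sum_mul]
    exact Finset.sum_congr rfl fun i _ => by rw [(h i).cmp e he e' he' x hx hx', mul_assoc]

theorem hsec_sum (h : ∀ i, M.HSec p (σ i)) (a : J → ℂ) : M.HSec p (∑ i, a i • σ i) := by
  refine ⟨sec_sum (fun i => (h i).toSec) a, fun e he z hz => ?_⟩
  beta_reduce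
  rw [sum_fun]
  exact DifferentiableAt.fun_sum fun i _ => ((h i).hol e he z hz).const_mul _

theorem db_sum (h : ∀ i, M.Sec p (σ i)) (a : J → ℂ) (he : e ∈ M.C) (hz : z ∈ e.target) :
    db M (∑ i, a i • σ i) e z = ∑ i, a i • db M (σ i) e z := by
  funext l
  rw [db, sum_fun]
  simp only [db, Finset.sum_apply, Pi.smul_apply, smul_eq_mul]
  rw [dzb_sum fun i _ => (cd_diff ((h i).sm e he z hz)).const_mul _]
  exact Finset.sum_congr rfl fun i _ => dzb_const_mul _ (cd_diff ((h i).sm e he z hz))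

theorem wdu_sum (h : ∀ i, M.Sec p (σ i)) (a : J → ℂ) (he : e ∈ M.C) (hz : z ∈ e.target) :
    M.wdu T (∑ i, a i • σ i) e z = ∑ i, a i • M.wdu T (σ i) e z := by
  simp only [Mf.wdu, db_sum h a he hz, Matrix.mulVec_sum, Matrix.mulVec_smul]

theorem wbox_sum (h : ∀ i, M.Sec p (σ i)) (a : J → ℂ) (he : e ∈ M.C) (hz : z ∈ e.target) :
    M.wbox T w m (∑ i, a i • σ i) e z = ∑ i, a i * M.wbox T w m (σ i) e z := by
  simp only [Mf.wbox, HS21.Op.ap, sum_fun]
  rw [HS21.lop_sum _ fun i _ => contDiffAt_const.mul ((h i).sm e he z hz)]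
  exact Finset.sum_congr rfl fun i _ => HS21.lop_smul _ ((h i).sm e he z hz)

theorem sp_sum (a : J → ℂ) (b : J' → ℂ) (x : M.X) :
    sp M T p (∑ i, a i • σ i) (∑ j, b j • σ' j) x =
      ∑ i, ∑ j, a i * star (b j) * sp M T p (σ i) (σ' j) x := by
  simp only [sp, ev_sum, star_sum, Finset.sum_mul_sum, Finset.sum_div, star_mul']
  exact Finset.sum_congr rfl fun i _ => Finset.sum_congr rfl fun j _ => by ring

theorem dp_sum (h : ∀ i, M.Sec p (σ i)) (h' : ∀ i, M.Sec p (σ' i)) (a : J → ℂ) (b : J' → ℂ)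
    (x : M.X) : dp M T p (∑ i, a i • σ i) (∑ j, b j • σ' j) x =
      ∑ i, ∑ j, a i * star (b j) * dp M T p (σ i) (σ' j) x := by
  simp only [dp, Mf.ev, db_sum h a (ch_mem x) (ch_tgt x), db_sum h' b (ch_mem x) (ch_tgt x),
    star_sum, star_smul, Matrix.mulVec_sum, Matrix.mulVec_smul, dotProduct_sum, sum_dotProduct,
    dotProduct_smul, smul_dotProduct, smul_eq_mul, Finset.sum_div, Finset.mul_sum]
  exact Finset.sum_congr rfl fun i _ => Finset.sum_congr rfl fun j _ => by ring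

theorem dp_star (hT : M.Met T) (s s' : M.Fam ℂ) (x : M.X) :
    star (dp M T p s s' x) = dp M T p s' s x := by
  have h := (hT.ev_pos x).inv.1
  have h2 : star (M.ev T x).det = (M.ev T x).det := by
    rw [← herm_det (hT.ev_pos x).1]
    exact conj_ofReal _
  rw [dp, dp, star_div₀, star_pow, h2, Matrix.star_dotProduct, star_star, Matrix.star_mulVec,
    h.eq, Matrix.dotProduct_mulVec]

theorem aSC5 : St_SC5 := st_SC5 mTR mCHN mHOL

/-- The weighted scalar product of the `(0,1)` derivatives. -/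
def wdp (M : Mf n) (T : M.Fam (Mat n)) (w : M.X → ℝ) (m : ℕ) (s s' : M.Fam ℂ) : ℂ :=
  ∫ x, dp M T (m + 1) s s' x * (Real.exp (-(m * w x)) : ℝ) ∂M.mu T

theorem wt_cont (hw : M.Sm w) (m : ℕ) : Continuous fun x => Real.exp (-(m * w x)) :=
  (hw.const_mul (m : ℝ)).neg.exp.continuous

variable [M.Cpt] {s s' : M.Fam ℂ}

theorem int_sp (hT : M.Met T) (hw : M.Sm w) (hs : M.Sec (m + 1) s) (hs' : M.Sec (m + 1) s') :
    Integrable (fun x => sp M T (m + 1) s s' x * (Real.exp (-(m * w x)) : ℝ)) (M.mu T) :=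
  (mMU n M T hT).2.2.2.2.1 ℂ _ ((aSC5 n M T _ s s' hT hs hs').2.2.2.2.2.1.mul
    (continuous_ofReal.comp (wt_cont hw m)))

theorem int_dp (hT : M.Met T) (hw : M.Sm w) (hs : M.Sec (m + 1) s) (hs' : M.Sec (m + 1) s') :
    Integrable (fun x => dp M T (m + 1) s s' x * (Real.exp (-(m * w x)) : ℝ)) (M.mu T) :=
  (mMU n M T hT).2.2.2.2.1 ℂ _ ((aSC5 n M T _ s s' hT hs hs').2.2.2.2.2.2.2.1.mul
    (continuous_ofReal.comp (wt_cont hw m)))

theorem wip_sum (hT : M.Met T) (hw : M.Sm w) (h : ∀ i, M.Sec (m + 1) (σ i))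
    (h' : ∀ i, M.Sec (m + 1) (σ' i)) (a : J → ℂ) (b : J' → ℂ) :
    M.wip T w m (∑ i, a i • σ i) (∑ j, b j • σ' j) =
      ∑ i, ∑ j, a i * star (b j) * M.wip T w m (σ i) (σ' j) := by
  simp only [Mf.wip, sp_sum, Finset.sum_mul, mul_assoc]
  rw [integral_finsetSum _ fun i _ => integrable_finsetSum _ fun j _ =>
    ((int_sp hT hw (h i) (h' j)).const_mul _).const_mul _]
  refine Finset.sum_congr rfl fun i _ => ?_
  rw [integral_finsetSum _ fun j _ => ((int_sp hT hw (h i) (h' j)).const_mul _).const_mul _]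
  simp only [integral_const_mul]

theorem wdp_sum (hT : M.Met T) (hw : M.Sm w) (h : ∀ i, M.Sec (m + 1) (σ i))
    (h' : ∀ i, M.Sec (m + 1) (σ' i)) (a : J → ℂ) (b : J' → ℂ) :
    wdp M T w m (∑ i, a i • σ i) (∑ j, b j • σ' j) =
      ∑ i, ∑ j, a i * star (b j) * wdp M T w m (σ i) (σ' j) := by
  simp only [wdp, dp_sum h h', Finset.sum_mul, mul_assoc]
  rw [integral_finsetSum _ fun i _ => integrable_finsetSum _ fun j _ =>
    ((int_dp hT hw (h i) (h' j)).const_mul _).const_mul _]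
  refine Finset.sum_congr rfl fun i _ => ?_
  rw [integral_finsetSum _ fun j _ => ((int_dp hT hw (h i) (h' j)).const_mul _).const_mul _]
  simp only [integral_const_mul]

omit [M.Cpt] in
theorem wdp_star (hT : M.Met T) (s s' : M.Fam ℂ) :
    star (wdp M T w m s s') = wdp M T w m s' s := by
  rw [wdp, wdp, Complex.star_def, ← integral_conj]
  refine integral_congr_ae (Eventually.of_forall fun x => ?_)
  simp only [map_mul, conj_ofReal]
  rw [← dp_star hT s s' x]
  rfl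

omit [M.Cpt] in
theorem wdp_self (hT : M.Met T) (hs : M.Sec (m + 1) s) : wdp M T w m s s = M.wn1 T w m s := by
  rw [wdp, Mf.wn1, ← integral_complex_ofReal]
  refine integral_congr_ae (Eventually.of_forall fun x => ?_)
  have h := ((aSC5 n M T _ s s hT hs hs).2.2.2.2.2.2.2.2.1 x).2.2.2.1
  simp only [ofReal_mul]
  congr 1
  exact Complex.ext (by simp) (by simp [h])

omit [M.Cpt] in
theorem wip_self (hT : M.Met T) (hs : M.Sec (m + 1) s) : M.wip T w m s s = M.wn0 T w m s := by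
  rw [Mf.wip, Mf.wn0, ← integral_complex_ofReal]
  refine integral_congr_ae (Eventually.of_forall fun x => ?_)
  simp only [ofReal_mul, ((aSC5 n M T _ s s hT hs hs).2.2.2.2.2.2.2.2.1 x).2.1]

end Pool.Agent.Lib.HW27
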