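import Pool.Agent.Lib.HW27.Defs

/-! Project hw, part B (a weak Morse inequality): blueprint. -/

open scoped Classical Topology ContDiff ComplexOrder Matrix
open Set MeasureTheory Complex Metric Filter

noncomputable section

namespace Pool.Agent.Lib.HW27

open Pool.Agent.Lib.SV (E)
open Pool.Agent.Lib.HS32

/-! ### Nets of charts -/

/-- Uniform Taylor expansion of order two, up to a pluriharmonic function. -/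
def St_WGA : Prop := ∀ (n : ℕ) (Φ : E n → ℝ) (U K : Set (E n)), IsOpen U → IsCompact K → K ⊆ U →
  (∀ z ∈ U, ContDiffAt ℝ ∞ Φ z) → ∀ η : ℝ, 0 < η → ∃ δ : ℝ, 0 < δ ∧ ∀ y ∈ K,
    closedBall y δ ⊆ U ∧ ∃ p : E n → ℂ, Differentiable ℂ p ∧ ∀ z ∈ closedBall y δ,
      |Φ z - 2 * (p z).re - nq (hess (fun w => (Φ w : ℂ)) y) (z - y)| ≤ η * ‖z - y‖ ^ 2

/-- Nets for a continuous metric in coordinates. -/
def St_WNT : Prop := ∀ n : ℕ, ∃ (A : ℝ) (D : ℕ), 1 ≤ A ∧ ∀ (T : E n → Mat n) (U K : Set (E n)),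
  IsOpen U → IsCompact K → K ⊆ U → ContinuousOn T U → (∀ z ∈ U, (T z).PosDef) →
  ∀ᶠ s in 𝓝[>] (0 : ℝ), ∃ (S : Finset (E n)) (P : E n → Mat n),
    (∀ y ∈ S, y ∈ K ∧ (P y)ᴴ * P y = T y) ∧
    (∀ y ∈ S, ∀ y' ∈ S, y ≠ y' → ∀ z, ‖P y *ᵥ (z - y)‖ ≤ s → s < ‖P y' *ᵥ (z - y')‖) ∧
    (∀ z ∈ K, ∃ y ∈ S, ‖P y *ᵥ (z - y)‖ < A * s) ∧
    ∀ z, (S.filter fun y => ‖P y *ᵥ (z - y)‖ ≤ 2 * (A * s)).card ≤ D

/-- Affine changes of a chart. -/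
def St_WNC : Prop := ∀ (n : ℕ) (M : Mf n) (T : M.Fam (Mat n)) (w : M.X → ℝ) (L : ℝ), M.Met T →
  M.Sm w → 0 < L → ∀ e ∈ M.C, ∀ K : Set (E n), IsCompact K → K ⊆ e.target →
  ∀ᶠ m : ℕ in atTop, ∀ y ∈ K, ∀ P : Mat n, Pᴴ * P = T e y →
    ∃ e', M.WNice T w m (L / √m) e' ∧ e'.source = e.source ∧ ∀ x, e' x = P *ᵥ (e x - y)

/-- Packing. -/
def St_WN1 : Prop := ∀ (n : ℕ) (M : Mf n) [M.Cpt], ∃ c : ℝ, 0 < c ∧
  ∀ (T : M.Fam (Mat n)) (w : M.X → ℝ) (R : ℝ) (K : Set M.X), M.Met T → M.Sm w → 0 < R →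
    IsClosed K → ∀ᶠ m : ℕ in atTop, ∃ (J : Type) (_ : Fintype J) (e : J → M.Ch),
      (∀ j, M.WNice T w m (R / √m) (e j) ∧ (e j).symm 0 ∈ K) ∧
      (Pairwise fun i j => Disjoint ((e i).symm '' closedBall 0 (R / √m))
        ((e j).symm '' closedBall 0 (R / √m))) ∧
      c * (M.mu T).real K * (m : ℝ) ^ n ≤ Fintype.card J * R ^ (2 * n)

/-- Covering. -/
def St_WN2 : Prop := ∀ (n : ℕ) (M : Mf n) [M.Cpt], ∃ D : ℕ,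
  ∀ (T : M.Fam (Mat n)) (w : M.X → ℝ) (R : ℝ), M.Met T → M.Sm w → 0 < R →
    ∀ᶠ m : ℕ in atTop, ∃ (J : Type) (_ : Fintype J) (e : J → M.Ch),
      (∀ j, M.WNice T w m (2 * (R / √m)) (e j)) ∧
      (∀ x, ∃ j, x ∈ (e j).symm '' ball 0 (R / √m)) ∧
      ∀ x, (Finset.univ.filter fun j => x ∈ (e j).symm '' ball 0 (2 * (R / √m))).card ≤ D

/-! ### Almost holomorphic sections -/

/-- One peak section. -/
def St_WPK : Prop := ∀ n : ℕ, ∃ C : ℝ, 0 < C ∧ ∀ (M : Mf n) [M.Cpt] (T : M.Fam (Mat n))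
  (w : M.X → ℝ) (m : ℕ) (s : ℝ) (e : M.Ch), M.Met T → M.Sm w → 0 < s → M.WNice T w m s e →
  (M.theta T w e 0).PosSemidef → ∃ σ, M.Sec (m + 1) σ ∧
    (M.All fun e' z => e'.symm z ∉ e.symm '' closedBall 0 s → σ e' z = 0) ∧
    0 < M.wn0 T w m σ ∧ s ^ 2 * M.wn1 T w m σ ≤ C * M.wn0 T w m σ

/-- The space of peak sections. -/
def St_WPS : Prop := ∀ (n : ℕ) (M : Mf n) [M.Cpt], ∃ c : ℝ, 0 < c ∧
  ∀ (T : M.Fam (Mat n)) (w : M.X → ℝ) (Ω : Set M.X), M.WDat T w Ω → ∀ᶠ m : ℕ in atTop,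
    ∃ (J : Type) (_ : Fintype J) (σ : J → M.Fam ℂ),
      c * (M.mu T).real Ω * (m : ℝ) ^ n ≤ Fintype.card J ∧ (∀ i, M.Sec (m + 1) (σ i)) ∧
      ∀ a : J → ℂ, M.wn0 T w m (∑ i, a i • σ i) = ∑ i, normSq (a i) ∧
        M.wn1 T w m (∑ i, a i • σ i) ≤ m / 64 * ∑ i, normSq (a i)

/-! ### Forms of low energy -/

/-- The inequality of Hörmander and Siu with the gradient term. -/
def St_WSI : Prop := ∀ n : ℕ, ∃ C : ℝ, 0 < C ∧ ∀ (M : Mf n) [M.Cpt] (T : M.Fam (Mat n))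
  (w : M.X → ℝ) (m : ℕ) (s : M.Fam ℂ), M.Kae T → M.Sm w → M.Sec (m + 1) s →
  ∃ b : M.X → ℝ, Continuous b ∧ (∀ x, 0 ≤ b x) ∧
    ∫ x, (HS.wq M T (m + 1) ((m : ℝ) • M.theta T w) s x + b x) * Real.exp (-(m * w x)) ∂M.mu T ≤
      M.wn0 T w m (M.wbox T w m s) ∧
    M.All fun e z => HS78.Bd 2 (T e z) → M.wgr T m s e z ≤ C * b (e.symm z)

/-- The mass of a Bessel family on a set, in coordinates. -/
def St_WEU : Prop := ∀ n : ℕ, ∃ C : ℝ, 0 < C ∧ ∀ (s Λ : ℝ) (N : ℕ) (F : Fin N → E n → ℂ)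
  (B : Set (E n)), 0 < s → 0 ≤ Λ →
  (∀ i, ∀ z ∈ closedBall (0 : E n) (2 * s), ContDiffAt ℝ ∞ (F i) z) →
  (∀ a : Fin N → ℂ, ∫ z in ball (0 : E n) (2 * s), normSq (∑ i, a i * F i z) ≤
    Λ * ∑ i, normSq (a i)) → MeasurableSet B → B ⊆ ball 0 s →
  ∑ i, ∫ z in B, normSq (F i z) ≤
    C * (s ^ 2 * ∑ i, ∫ z in ball (0 : E n) (2 * s), ∑ l, normSq (dzb l (F i) z)) +
      C * (Λ * volume.real B / s ^ (2 * n))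

/-- The same in a good chart. -/
def St_WLC : Prop := ∀ n : ℕ, ∃ C : ℝ, 0 < C ∧ ∀ (M : Mf n) [M.Cpt] (T : M.Fam (Mat n))
  (w : M.X → ℝ) (Ω : Set M.X) (m N : ℕ) (s : ℝ) (e : M.Ch) (t : Fin N → M.Fam ℂ)
  (b : Fin N → M.X → ℝ) (B : Set M.X), M.WDat T w Ω → 0 < s → m * s ^ 2 ≤ 1 →
  M.WNice T w m (2 * s) e → (∀ i, M.Sec (m + 1) (t i)) →
  (∀ a : Fin N → ℂ, M.wn1 T w m (∑ i, a i • t i) ≤ ∑ i, normSq (a i)) →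
  (∀ i, Continuous (b i) ∧ ∀ z ∈ ball (0 : E n) (2 * s), M.wgr T m (t i) e z ≤ b i (e.symm z)) →
  MeasurableSet B →
  ∑ i, ∫ x in B ∩ e.symm '' ball 0 s,
      (HS.dp M T (m + 1) (t i) (t i) x).re * Real.exp (-(m * w x)) ∂M.mu T ≤
    C * (s ^ 2 * ∑ i, ∫ x in e.symm '' ball 0 (2 * s), b i x * Real.exp (-(m * w x)) ∂M.mu T) +
      C * ((M.mu T).real (B ∩ e.symm '' ball 0 s) / s ^ (2 * n))

/-- The dimension of a space of forms of low energy. -/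
def St_WLO : Prop := ∀ (n : ℕ) (M : Mf n) [M.Cpt], ∃ C : ℝ, 0 < C ∧
  ∀ (T : M.Fam (Mat n)) (w : M.X → ℝ) (Ω : Set M.X), M.WDat T w Ω → ∀ᶠ m : ℕ in atTop,
    ∀ (N : ℕ) (t : Fin N → M.Fam ℂ), (∀ i, M.Sec (m + 1) (t i)) →
      (∀ a : Fin N → ℂ, M.wn1 T w m (∑ i, a i • t i) = ∑ i, normSq (a i)) →
      (∀ i, M.wn0 T w m (M.wbox T w m (t i)) ≤ m / 16) →
      (N : ℝ) ≤ C * (M.mu T).real Ωᶜ * (m : ℝ) ^ n

/-! ### The projection on holomorphic sections -/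

/-- The resolvent and its holomorphic limit. -/
def St_WL1 : Prop := ∀ (n : ℕ) (M : Mf n) [M.Cpt] (T : M.Fam (Mat n)) (w : M.X → ℝ) (m : ℕ)
  (σ : M.Fam ℂ) (l : Ultrafilter ℝ), M.Kae T → M.Sm w → M.Sec (m + 1) σ →
  (l : Filter ℝ) ≤ 𝓝[>] 0 → ∃ (s : ℝ → M.Fam ℂ) (s₀ : M.Fam ℂ),
    (∀ τ : ℝ, 0 < τ → M.Sec (m + 1) (s τ) ∧
      M.All fun e z => τ * s τ e z - M.wbox T w m (s τ) e z = τ * σ e z) ∧
    M.HSec (m + 1) s₀ ∧ ∀ σ', M.Sec (m + 1) σ' →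
      Tendsto (fun τ => M.wip T w m (s τ) σ') l (𝓝 (M.wip T w m s₀ σ'))

/-- The energy of the resolvent. -/
def St_WL2 : Prop := ∀ (n : ℕ) (M : Mf n) [M.Cpt] (T : M.Fam (Mat n)) (w : M.X → ℝ) (m : ℕ)
  (σ s : M.Fam ℂ) (τ δ : ℝ), M.Kae T → M.Sm w → M.Sec (m + 1) σ → M.Sec (m + 1) s → 0 < τ →
  0 ≤ δ → (M.All fun e z => τ * s e z - M.wbox T w m s e z = τ * σ e z) →
  0 < M.wn0 T w m σ → M.wn1 T w m σ ≤ δ * M.wn0 T w m σ →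
  (M.wip T w m s σ).re ≤ M.wn0 T w m σ / 2 →
  0 < M.wn1 T w m s ∧ M.wn0 T w m (M.wbox T w m s) ≤ 4 * δ * M.wn1 T w m s

/-- The rank of the projection. -/
def St_WLI : Prop := ∀ (n : ℕ) (M : Mf n) [M.Cpt] (T : M.Fam (Mat n)) (w : M.X → ℝ) (m : ℕ)
  (β : ℝ) (J : Type) [Fintype J] (σ : J → M.Fam ℂ), M.Kae T → M.Sm w →
  (∀ i, M.Sec (m + 1) (σ i)) →
  (∀ a : J → ℂ, M.wn0 T w m (∑ i, a i • σ i) = ∑ i, normSq (a i) ∧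
    M.wn1 T w m (∑ i, a i • σ i) ≤ m / 64 * ∑ i, normSq (a i)) →
  (∀ (N : ℕ) (t : Fin N → M.Fam ℂ), (∀ i, M.Sec (m + 1) (t i)) →
    (∀ a : Fin N → ℂ, M.wn1 T w m (∑ i, a i • t i) = ∑ i, normSq (a i)) →
    (∀ i, M.wn0 T w m (M.wbox T w m (t i)) ≤ m / 16) → (N : ℝ) ≤ β) →
  ∃ N : ℕ, (Fintype.card J : ℝ) - β ≤ N ∧ M.WMany (m + 1) N

/-! ### The result -/

/-- The weak Morse inequality. -/
def St_WMO : Prop := ∀ (n : ℕ) (M : Mf n) [M.Cpt], ∃ c C : ℝ, 0 < c ∧ 0 < C ∧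
  ∀ (T : M.Fam (Mat n)) (w : M.X → ℝ) (Ω : Set M.X), M.WDat T w Ω → ∀ᶠ m : ℕ in atTop,
    ∃ N : ℕ, (c * (M.mu T).real Ω - C * (M.mu T).real Ωᶜ) * (m : ℝ) ^ n ≤ N ∧ M.WMany (m + 1) N

/-- The bad set is small. -/
def St_WBA : Prop := ∀ (n : ℕ) (M : Mf n) [M.Cpt] (H : M.Fam (Mat n)), 0 < n → M.Kae H →
  (∀ ε : ℝ, 0 < ε → ∃ u, M.Sol H ε u) → 0 < M.vol H 0 → ∃ c : ℝ, 0 < c ∧ ∀ δ : ℝ, 0 < δ →
    ∃ T w Ω, M.WDat T w Ω ∧ c ≤ (M.mu T).real Ω ∧ (M.mu T).real Ωᶜ ≤ δ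

theorem morse_of (hPS : St_WPS) (hLO : St_WLO) (hLI : St_WLI) : St_WMO := by
  intro n M _
  obtain ⟨c, hc, h1⟩ := hPS n M
  obtain ⟨C, hC, h2⟩ := hLO n M
  refine ⟨c, C, hc, hC, fun T w Ω h => ?_⟩
  filter_upwards [h1 T w Ω h, h2 T w Ω h] with m ⟨J, _, σ, a1, a2, a3⟩ b
  obtain ⟨N, c1, c2⟩ := hLI n M T w m _ J σ h.kae h.sm a2 a3 b
  exact ⟨N, by linarith, c2⟩

/-- Nef with positive volume implies big. -/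
theorem big_of (hMO : St_WMO) (hBA : St_WBA) {n : ℕ} (M : Mf n) [M.Cpt] {H : M.Fam (Mat n)}
    (hn : 0 < n) (hH : M.Kae H) (hs : ∀ ε : ℝ, 0 < ε → ∃ u, M.Sol H ε u) (hv : 0 < M.vol H 0) :
    M.WBig := by
  obtain ⟨c, C, hc, hC, h1⟩ := hMO n M
  obtain ⟨a, ha, h2⟩ := hBA n M H hn hH hs hv
  obtain ⟨T, w, Ω, h, h3, h4⟩ := h2 (c * a / (2 * C)) (by positivity)
  have h5 : c * a / 2 ≤ c * (M.mu T).real Ω - C * (M.mu T).real Ωᶜ := by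
    have e : C * (c * a / (2 * C)) = c * a / 2 := by field_simp
    have := mul_le_mul_of_nonneg_left h4 hC.le
    have := mul_le_mul_of_nonneg_left h3 hc.le
    linarith
  refine ⟨c * a / 2 / 2 ^ n, by positivity, ?_⟩
  obtain ⟨m₀, hm⟩ := eventually_atTop.1 (h1 T w Ω h)
  filter_upwards [eventually_ge_atTop (m₀ + 2)] with m hm'
  obtain ⟨k, rfl⟩ : ∃ k, m = k + 1 := ⟨m - 1, by omega⟩
  obtain ⟨N, b1, b2⟩ := hm k (by omega)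
  refine ⟨N, le_trans ?_ b1, b2⟩
  have k1 : (1 : ℝ) ≤ k := by exact_mod_cast (by omega : 1 ≤ k)
  have k2 : ((k + 1 : ℕ) : ℝ) ^ n ≤ 2 ^ n * (k : ℝ) ^ n := by
    rw [← mul_pow]
    exact pow_le_pow_left₀ (by positivity) (by push_cast; linarith) n
  calc _ ≤ c * a / 2 / 2 ^ n * (2 ^ n * (k : ℝ) ^ n) := by gcongr
    _ = c * a / 2 * (k : ℝ) ^ n := by field_simp
    _ ≤ _ := by gcongr

end Pool.Agent.Lib.HW27
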