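import Pool.Agent.Lib.HW27.Blue
import Pool.Agent.Lib.HS32.MAll

/-! Row `WNC`: affine changes of a chart. -/

open scoped Classical Topology ContDiff ComplexOrder Matrix
open Set MeasureTheory Complex Metric Filter

noncomputable section

namespace Pool.Agent.Lib.HW27

open Pool.Agent.Lib.SV (E)
open Pool.Agent.Lib.HS32

namespace W50

variable {n : ℕ}

/-- The affine change of coordinates `z ↦ P (z - y)`. -/
def af (y : E n) (P Q : Mat n) (h : P * Q = 1) (h' : Q * P = 1) :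
    OpenPartialHomeomorph (E n) (E n) where
  toFun z := P *ᵥ (z - y)
  invFun v := y + Q *ᵥ v
  source := univ
  target := univ
  map_source' _ _ := mem_univ _
  map_target' _ _ := mem_univ _
  left_inv' z _ := by rw [Matrix.mulVec_mulVec, h', Matrix.one_mulVec, add_sub_cancel]
  right_inv' v _ := by rw [add_sub_cancel_left, Matrix.mulVec_mulVec, h, Matrix.one_mulVec]
  open_source := isOpen_univ
  open_target := isOpen_univ
  continuousOn_toFun := by fun_prop
  continuousOn_invFun := by fun_prop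

theorem lin (Q : Mat n) (v : E n) : HasFDerivAt (fun v : E n => Q *ᵥ v)
    (LinearMap.toContinuousLinearMap Q.mulVecLin) v :=
  (LinearMap.toContinuousLinearMap Q.mulVecLin).hasFDerivAt

theorem dif (y : E n) (Q : Mat n) : Differentiable ℂ fun v : E n => y + Q *ᵥ v :=
  fun v => ((lin Q v).const_add y).differentiableAt

theorem jm_af (y : E n) (Q : Mat n) (v : E n) : jm (fun v : E n => y + Q *ᵥ v) v = Q := by
  ext i j
  rw [jm, Matrix.of_apply, ((lin Q v).const_add y).fderiv]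
  simp

theorem nq_sub' (A B : Mat n) (v : E n) : nq (A - B) v = nq A v - nq B v := by
  simp only [nq, Matrix.sub_mulVec, dotProduct_sub, sub_re]

theorem bd_two {A B Q : Mat n} {c : ℝ} (hA : A.IsHermitian) (hQ : Qᴴ * B * Q = 1)
    (hc : ∀ v, c * ‖v‖ ^ 2 ≤ nq B v) (hs : BBD.sn (A - B) ≤ c / 2) :
    HS78.Bd 2 (Qᴴ * A * Q) := by
  have key : ∀ v, |nq (Qᴴ * A * Q) v - nq 1 v| ≤ nq 1 v / 2 := fun v => by
    rw [← hQ, BBD.nq_conj, BBD.nq_conj, ← nq_sub']
    have h1 := BBD.nq_abs (A - B) (Q *ᵥ v)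
    have h2 := hc (Q *ᵥ v)
    have h3 := mul_le_mul_of_nonneg_right hs (sq_nonneg ‖Q *ᵥ v‖)
    linarith
  have hH : (Qᴴ * A * Q).IsHermitian := Matrix.isHermitian_conjTranspose_mul_mul Q hA
  constructor
  · have := BBD.psd hH Matrix.isHermitian_one (s := 1) (t := -2⁻¹) fun v => by
      linarith [(abs_le.1 (key v)).1]
    rwa [one_smul, neg_smul, ← sub_eq_add_neg] at this
  · have := BBD.psd Matrix.isHermitian_one hH (s := 2) (t := -1) fun v => by
      linarith [abs_le.1 (key v)]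
    rwa [neg_one_smul, ← sub_eq_add_neg] at this

theorem norm_le {B Q : Mat n} {c : ℝ} (c0 : 0 < c) (hQ : Qᴴ * B * Q = 1)
    (hc : ∀ v, c * ‖v‖ ^ 2 ≤ nq B v) (v : E n) :
    ‖Q *ᵥ v‖ ≤ (BBD.sn (1 : Mat n) / c + 1) * ‖v‖ := by
  have h0 : 0 ≤ BBD.sn (1 : Mat n) / c := div_nonneg (BBD.sn_nonneg _) c0.le
  have h1 := hc (Q *ᵥ v)
  rw [← BBD.nq_conj, hQ] at h1
  have h2 := h1.trans ((le_abs_self _).trans (BBD.nq_abs 1 v))
  have h3 : ‖Q *ᵥ v‖ ^ 2 ≤ BBD.sn (1 : Mat n) / c * ‖v‖ ^ 2 := by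
    rw [div_mul_eq_mul_div, le_div_iff₀ c0]; linarith
  refine abs_le_of_sq_le_sq' ?_ (by positivity) |>.2
  rw [mul_pow]
  exact h3.trans (mul_le_mul_of_nonneg_right (by nlinarith) (sq_nonneg _))

theorem unif {T : E n → Mat n} {K : Set (E n)} (hK : IsCompact K) (h : ∀ z ∈ K, SmM T z) {c : ℝ}
    (c0 : 0 < c) : ∃ δ, 0 < δ ∧ ∀ u : E n, ‖u‖ ≤ δ → ∀ y ∈ K, BBD.sn (T (y + u) - T y) ≤ c := by
  have h1 : ∀ᶠ u in 𝓝 (0 : E n), ∀ y ∈ K, BBD.sn (T (y + u) - T y) ≤ c := by
    refine hK.eventually_forall_of_forall_eventually fun y hy => ?_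
    have h2 : ContinuousAt (fun p : E n × E n => BBD.sn (T (p.2 + p.1) - T p.2)) (0, y) := by
      refine tendsto_finsetSum _ fun i _ => tendsto_finsetSum _ fun j _ => ?_
      refine ContinuousAt.norm (f := fun p : E n × E n => T (p.2 + p.1) i j - T p.2 i j) ?_
      refine ContinuousAt.sub ?_ ?_
      · exact ContinuousAt.comp_of_eq (g := fun w => T w i j) (h y hy i j).continuousAt
          (by fun_prop) (by simp)
      · exact ContinuousAt.comp_of_eq (g := fun w => T w i j) (h y hy i j).continuousAt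
          (by fun_prop) rfl
    exact h2.eventually_le_const (by simpa [BBD.sn] using c0)
  obtain ⟨δ, δ0, h2⟩ := nhds_basis_closedBall.eventually_iff.1 h1
  exact ⟨δ, δ0, fun u hu => h2 (by simpa using hu)⟩

end W50

open W50 in
theorem st_WNC (hGA : St_WGA) : St_WNC := by
  intro n M T w L hT hw hL e he K hK hKe
  have hW := (mINV n M T hT).2.2.2.2.2.2.1
  have hθ : M.Ten (M.theta T w) :=
    ((mHES n M).1 w hw).toForm.toTen.sub ((mHES n M).2.2.2.2.2.2.2.2.1 T hT).toForm.toTen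
  obtain ⟨c, c0, hc⟩ := BBD.low hK (fun z hz => hT.sm e he z (hKe hz))
    fun z hz => hT.pos e he z (hKe hz)
  obtain ⟨δ', δ0', hδ'⟩ := unif hK (fun z hz => hT.sm e he z (hKe hz)) (half_pos c0)
  set C := BBD.sn (1 : Mat n) / c + 1 with hC
  have C0 : 0 < C := by have := div_nonneg (BBD.sn_nonneg (1 : Mat n)) c0.le; linarith
  obtain ⟨δ, δ0, hδ⟩ := hGA n (fun z => Real.log (T e z).det.re + w (e.symm z)) e.target K
    e.open_target hK hKe (fun z hz => (hW.sm e he z hz).add (hw e he z hz)) ((C * L) ^ 2)⁻¹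
    (by positivity)
  have hm : ∀ᶠ m : ℕ in atTop, C * L / √m ≤ min δ δ' :=
    (tendsto_const_nhds.div_atTop (Real.tendsto_sqrt_atTop.comp
      tendsto_natCast_atTop_atTop)).eventually_le_const (lt_min δ0 δ0')
  filter_upwards [hm, eventually_gt_atTop 0] with m hm m0 y hy P hP
  have hye := hKe hy
  have hPd : IsUnit P.det := by
    have := Mf.pd_det_ne (hT.pos e he y hye)
    rw [← hP, Matrix.det_mul] at this
    exact (right_ne_zero_of_mul this).isUnit
  have h1 := Matrix.mul_nonsing_inv P hPd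
  have h2 := Matrix.nonsing_inv_mul P hPd
  generalize P⁻¹ = Q at h1 h2
  have hQ : Qᴴ * T e y * Q = 1 := by
    rw [← hP, ← mul_assoc, mul_assoc _ P, h1, mul_one, ← Matrix.conjTranspose_mul, h1,
      Matrix.conjTranspose_one]
  have d1 : DifferentiableOn ℂ (af y P Q h1 h2) (af y P Q h1 h2).source := fun z _ =>
    ((lin P (z - y)).differentiableAt.comp z
      (differentiableAt_id.sub_const y)).differentiableWithinAt
  have d2 : DifferentiableOn ℂ (af y P Q h1 h2).symm (af y P Q h1 h2).target :=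
    (dif y Q).differentiableOn
  have he' := M.sat e he _ d1 d2
  have hs : (e.trans (af y P Q h1 h2)).source = e.source := by
    rw [OpenPartialHomeomorph.trans_source]; exact inter_univ _
  obtain ⟨hb, p, hp, hg⟩ := hδ y hy
  have hv : ∀ v ∈ closedBall (0 : E n) (L / √m), ‖Q *ᵥ v‖ ≤ C * L / √m := fun v hv => by
    rw [mul_div_assoc]
    exact (norm_le c0 hQ (hc y hy) v).trans
      (mul_le_mul_of_nonneg_left (by simpa using hv) C0.le)
  have hz : ∀ v ∈ closedBall (0 : E n) (L / √m), y + Q *ᵥ v ∈ closedBall y δ := fun v h => by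
    simpa using (hv v h).trans (hm.trans (min_le_left _ _))
  have ov : ∀ {p : M.Ch → M.Ch → M.X → Prop}, M.Ov p → ∀ v, y + Q *ᵥ v ∈ e.target →
      p e (e.trans (af y P Q h1 h2)) (e.symm (y + Q *ᵥ v)) := fun h v hv =>
    h e he _ he' _ (e.map_target hv) (hs ▸ e.map_target hv)
  have e1 : ∀ v, y + Q *ᵥ v ∈ e.target →
      e.trans (af y P Q h1 h2) (e.symm (y + Q *ᵥ v)) = v ∧
      e (e.symm (y + Q *ᵥ v)) = y + Q *ᵥ v ∧
      M.J e (e.trans (af y P Q h1 h2)) (e.symm (y + Q *ᵥ v)) = Q := fun v hv => by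
    refine ⟨?_, e.right_inv hv, ?_⟩
    · rw [OpenPartialHomeomorph.trans_apply, e.right_inv hv]
      exact (af y P Q h1 h2).right_inv (mem_univ v)
    · rw [((mTR n M).2.2.2.2.2 e he _ d1 d2 _ (hs ▸ e.map_target hv)).2]
      exact jm_af y Q _
  refine ⟨e.trans (af y P Q h1 h2), ⟨he', fun v h => ?_, fun v h => ?_,
    fun v => m * p (y + Q *ᵥ v) + (m * Real.log (normSq Q.det) / 2 : ℝ),
    ((hp.comp (dif y Q)).const_mul _).add_const _, fun v h => ?_⟩, hs, fun x => rfl⟩
  · rw [OpenPartialHomeomorph.trans_target]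
    exact ⟨mem_univ _, hb (hz v h)⟩
  · have a := ov hT.cmp v (hb (hz v h))
    obtain ⟨b1, b2, b3⟩ := e1 v (hb (hz v h))
    beta_reduce at a
    rw [b1, b2, b3] at a
    rw [a]
    exact bd_two (hT.herm e he _ (hb (hz v h))) hQ (hc y hy)
      (hδ' _ ((hv v h).trans (hm.trans (min_le_right _ _))) y hy)
  · have a := ov hW.cmp v (hb (hz v h))
    obtain ⟨b1, b2, b3⟩ := e1 v (hb (hz v h))
    beta_reduce at a
    rw [b1, b2, b3] at a
    have y0 : y + Q *ᵥ 0 = y := by simp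
    have a' := ov hθ.cmp 0 (y0.symm ▸ hye)
    obtain ⟨c1, c2, c3⟩ := e1 0 (y0.symm ▸ hye)
    beta_reduce at a'
    rw [c1, c2, c3, y0] at a'
    have t : M.theta T w e y =
        hess (fun z => ((Real.log (T e z).det.re + w (e.symm z) : ℝ) : ℂ)) y := by
      simp only [ofReal_add]
      refine Eq.trans ?_ (hess_add (cd_ofReal (hW.sm e he y hye)) (hw.lc e he y hye)).symm
      rw [add_comm]
      exact sub_neg_eq_add _ _
    have g := hg _ (hz v h)
    rw [add_sub_cancel_left, ← t] at g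
    rw [a, a', BBD.nq_conj]
    have m1 : (0 : ℝ) < m := by exact_mod_cast m0
    have g2 : ‖Q *ᵥ v‖ ^ 2 ≤ (C * L) ^ 2 / m := by
      have := pow_le_pow_left₀ (norm_nonneg _) (hv v h) 2
      rwa [div_pow, Real.sq_sqrt m1.le] at this
    have g3 : m * (((C * L) ^ 2)⁻¹ * ‖Q *ᵥ v‖ ^ 2) ≤ 1 :=
      calc _ ≤ m * (((C * L) ^ 2)⁻¹ * ((C * L) ^ 2 / m)) := by gcongr
        _ = 1 := by field_simp
    refine le_trans (le_of_eq ?_) ((mul_le_mul_of_nonneg_left g m1.le).trans g3)
    rw [← abs_of_pos m1, ← abs_mul, abs_of_pos m1]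
    congr 1
    change m * (_ + w (e.symm (y + Q *ᵥ v))) - _ - _ = _
    simp only [add_re, ofReal_re, mul_re, natCast_re, natCast_im, zero_mul, sub_zero]
    ring

end Pool.Agent.Lib.HW27
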